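import Pool.Agent.T2H92.RS.Stm

/-! # Package AMC -/

set_option autoImplicit false

namespace Pool.Agent.T2H92.RS

open MeasureTheory Filter Topology Set
open scoped ENNReal NNReal

namespace PkgAMC

theorem wt_add {d : ℕ} (N : ℝ) (s t x : X d) : wt N s (x + t) = wt N (s - t) x := by
  unfold wt wr
  have : x + t - s = x - (s - t) := by abel
  rw [this]

theorem tr {d : ℕ} (N : ℝ) (g : X d → ℝ≥0∞) (s t : X d) :
    ∫⁻ x, (wt N s x * g (x - t)) ^ 2 = ∫⁻ x, (wt N (s - t) x * g x) ^ 2 := by
  have h := lintegral_add_right_eq_self (μ := (volume : Measure (X d)))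
    (fun x => (wt N s x * g (x - t)) ^ 2) t
  rw [← h]
  refine lintegral_congr fun x => ?_
  rw [wt_add, add_sub_cancel_right]

theorem tr2 {d : ℕ} (N : ℝ) (g : X d → ℝ≥0∞) (s t : X d) :
    n2 (fun x => wt N s x * g (x - t)) = n2 (fun x => wt N (s - t) x * g x) := by
  unfold n2
  rw [tr]

theorem pt {d : ℕ} (B : Bas d) (hMK : S_MK) (N : ℝ) (k g : X d → ℝ≥0∞) (hk : Measurable k)
    (hg : Measurable g) (s : X d) : n2 (fun x => wt N s x * cv k g x) ≤
      ∫⁻ t, n2 (fun x => wt N (s - t) x * g x) * k t := by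
  have hw : Measurable fun x => wt N s x := by
    unfold wt wr
    fun_prop
  have e1 : (fun x => wt N s x * cv k g x) =
      fun x => ∫⁻ t, wt N s x * (g (x - t) * k t) := by
    funext x
    rw [B.cv_comm k g hk hg]
    unfold cv
    exact (lintegral_const_mul _ ((hg.comp (measurable_const.sub measurable_id)).mul hk)).symm
  rw [e1]
  have h2 : Measurable (Function.uncurry fun t x : X d => wt N s x * (g (x - t) * k t)) :=
    (hw.comp measurable_snd).mul ((hg.comp (measurable_snd.sub measurable_fst)).mul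
      (hk.comp measurable_fst))
  refine (hMK d (fun t x => wt N s x * (g (x - t) * k t)) h2).trans (le_of_eq ?_)
  refine lintegral_congr fun t => ?_
  rw [← tr2 N g s t, mul_comm _ (k t), ← B.n2_smul (k t) (fun x => wt N s x * g (x - t))
    (hw.mul (hg.comp (measurable_id.sub measurable_const)))]
  congr 1
  funext x
  ring

end PkgAMC

open PkgAMC

theorem pAMC (hBAS : S_BAS) (hMK : S_MK) : S_AMC := by
  intro d N k g hk hg
  have B := hBAS d
  have h1 := pt B hMK N k g hk hg
  have hG : Measurable fun s => n2 (fun x => wt N s x * g x) := B.am_meas N g hg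
  have h2 := B.cv_int _ k hG hk
  unfold am
  rw [mul_comm, ← h2]
  exact lintegral_mono h1

end Pool.Agent.T2H92.RS
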