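import Pool.Agent.T2H92.RS.Stm

/-! # Package AMF -/

set_option autoImplicit false

namespace Pool.Agent.T2H92.RS

open MeasureTheory Filter Topology Set
open scoped ENNReal NNReal

namespace PkgAMF

/-- `∫ exp (-‖x‖ / N) dx < ∞` -/
theorem exp_integrable (d : ℕ) (N : ℝ) (hN : 0 < N) :
    Integrable (fun x : X d => Real.exp (-(‖x‖ / N))) := by
  have h1 : Integrable (fun x : X d => (1 + ‖x‖) ^ (-((d : ℝ) + 1))) := by
    apply integrable_one_add_norm
    simp
  -- `exp (-r/N) ≤ C (1+r)^(-(d+1))`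
  obtain ⟨C, hC⟩ : ∃ C : ℝ, ∀ r : ℝ, 0 ≤ r → Real.exp (-(r / N)) ≤ C * (1 + r) ^ (-((d : ℝ) + 1)) := by
    -- (1+r)^(d+1) exp(-r/N) bounded
    refine ⟨Real.exp (1 / N) * (N ^ (d + 1) * (d + 1).factorial), fun r hr => ?_⟩
    have h1r : 0 < 1 + r := by linarith
    have e1 : (1 + r) ^ (-((d : ℝ) + 1)) = ((1 + r) ^ (d + 1))⁻¹ := by
      rw [Real.rpow_neg h1r.le]
      congr 1
      rw [← Real.rpow_natCast]
      push_cast
      rfl
    rw [e1, ← div_eq_mul_inv, le_div_iff₀ (by positivity)]
    have h2 : ((1 + r) / N) ^ (d + 1) / (d + 1).factorial ≤ Real.exp ((1 + r) / N) :=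
      Real.pow_div_factorial_le_exp _ (by positivity) _
    have h3 : (1 + r) ^ (d + 1) ≤ N ^ (d + 1) * (d + 1).factorial * Real.exp ((1 + r) / N) := by
      rw [div_pow, div_div, div_le_iff₀ (by positivity)] at h2
      linarith
    calc Real.exp (-(r / N)) * (1 + r) ^ (d + 1)
        ≤ Real.exp (-(r / N)) * (N ^ (d + 1) * (d + 1).factorial * Real.exp ((1 + r) / N)) :=
          mul_le_mul_of_nonneg_left h3 (Real.exp_pos _).le
      _ = (Real.exp (-(r / N)) * Real.exp ((1 + r) / N)) * (N ^ (d + 1) * (d + 1).factorial) := by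
          ring
      _ = Real.exp (1 / N) * (N ^ (d + 1) * (d + 1).factorial) := by
          rw [← Real.exp_add]
          congr 2
          field_simp
          ring
  refine (h1.const_mul C).mono' ?_ ?_
  · exact (by fun_prop : Continuous fun x : X d => Real.exp (-(‖x‖ / N))).aestronglyMeasurable
  · refine Filter.Eventually.of_forall fun x => ?_
    rw [Real.norm_eq_abs, abs_of_pos (Real.exp_pos _)]
    exact hC _ (norm_nonneg _)

theorem exp_lintegral (d : ℕ) (N : ℝ) (hN : 0 < N) :
    ∫⁻ x : X d, ENNReal.ofReal (Real.exp (-(‖x‖ / N))) ≠ ∞ := by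
  have h := (exp_integrable d N hN).2
  rw [hasFiniteIntegral_iff_ofReal (Filter.Eventually.of_forall fun x => (Real.exp_pos _).le)] at h
  exact h.ne

end PkgAMF

open PkgAMF in
theorem pAMF : S_AMF := by
  intro d N hN ρ Λ
  -- pointwise bound of the inner norm
  have hb : ∀ s : X d, n2 (fun x => wt N s x * (Metric.ball (0 : X d) ρ).indicator
      (fun _ => ENNReal.ofReal Λ) x) ≤
      ENNReal.ofReal (Real.exp (-(‖s‖ / N))) * (ENNReal.ofReal (Real.exp (ρ / N)) *
        n2 (fun x => (Metric.ball (0 : X d) ρ).indicator (fun _ => ENNReal.ofReal Λ) x)) := by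
    intro s
    rw [← mul_assoc, ← ENNReal.ofReal_mul (Real.exp_pos _).le]
    unfold n2
    have e1 : ∀ a : ℝ≥0∞, a = (a ^ 2) ^ (1 / 2 : ℝ) := fun a => by
      rw [← ENNReal.rpow_natCast, ← ENNReal.rpow_mul]; norm_num
    rw [e1 (ENNReal.ofReal (Real.exp (-(‖s‖ / N)) * Real.exp (ρ / N))),
      ← ENNReal.mul_rpow_of_nonneg _ _ (by norm_num)]
    refine ENNReal.rpow_le_rpow ?_ (by norm_num)
    rw [← lintegral_const_mul _ (by
      refine Measurable.pow_const ?_ 2
      exact measurable_const.indicator measurableSet_ball)]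
    refine lintegral_mono fun x => ?_
    simp only
    rw [mul_pow]
    by_cases hx : x ∈ Metric.ball (0 : X d) ρ
    · refine mul_le_mul' (pow_le_pow_left' ?_ 2) le_rfl
      unfold wt wr
      refine ENNReal.ofReal_le_ofReal ?_
      rw [← Real.exp_add]
      refine Real.exp_le_exp.2 ?_
      rw [mem_ball_zero_iff] at hx
      have h1 : ‖s‖ ≤ ‖x - s‖ + ‖x‖ := by
        have := norm_sub_norm_le s x
        rw [norm_sub_rev] at this
        linarith
      have h2 : ‖s‖ / N ≤ ‖x - s‖ / N + ρ / N := by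
        rw [← add_div]
        exact div_le_div_of_nonneg_right (by linarith) hN.le
      linarith
    · rw [Set.indicator_of_notMem hx]
      simp
  have hfin : n2 (fun x => (Metric.ball (0 : X d) ρ).indicator (fun _ => ENNReal.ofReal Λ) x)
      ≠ ∞ := by
    unfold n2
    refine ENNReal.rpow_ne_top_of_nonneg (by norm_num) ?_
    have e2 : ∀ x : X d, ((Metric.ball (0 : X d) ρ).indicator (fun _ => ENNReal.ofReal Λ) x) ^ 2
        = (Metric.ball (0 : X d) ρ).indicator (fun _ => ENNReal.ofReal Λ ^ 2) x := by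
      intro x
      by_cases hx : x ∈ Metric.ball (0 : X d) ρ
      · rw [Set.indicator_of_mem hx, Set.indicator_of_mem hx]
      · rw [Set.indicator_of_notMem hx, Set.indicator_of_notMem hx]; simp
    simp only [e2]
    rw [lintegral_indicator measurableSet_ball, lintegral_const]
    refine ENNReal.mul_ne_top (by finiteness) ?_
    rw [Measure.restrict_apply_univ]
    exact measure_ball_lt_top.ne
  unfold am
  refine ne_top_of_le_ne_top ?_ (lintegral_mono hb)
  rw [lintegral_mul_const _ (by
    exact (by fun_prop : Continuous fun x : X d => Real.exp (-(‖x‖ / N))).measurable.ennreal_ofReal)]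
  exact ENNReal.mul_ne_top (exp_lintegral d N hN) (ENNReal.mul_ne_top ENNReal.ofReal_ne_top hfin)

end Pool.Agent.T2H92.RS
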