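import Pool.Agent.T2H92.RS.Stm
import Pool.Agent.T2H92.RS.AMF

/-! # Package AML -/

set_option autoImplicit false

namespace Pool.Agent.T2H92.RS

open MeasureTheory Filter Topology Set
open scoped ENNReal NNReal

namespace PkgAML

/-- the square of the weight, as a function of the difference -/
noncomputable def gg (d : ℕ) (N : ℝ) (y : X d) : ℝ≥0∞ := ENNReal.ofReal (Real.exp (-(‖y‖ / N))) ^ 2

theorem gg_meas (d : ℕ) (N : ℝ) : Measurable (gg d N) := by
  unfold gg
  refine Measurable.pow_const ?_ 2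
  exact (by fun_prop : Continuous fun x : X d => Real.exp (-(‖x‖ / N))).measurable.ennreal_ofReal

theorem wt_sq (d : ℕ) (N : ℝ) (s x : X d) : wt N s x ^ 2 = gg d N (x - s) := rfl

theorem gg_fin (d : ℕ) (N : ℝ) (hN : 0 < N) : ∫⁻ y : X d, gg d N y ≠ ∞ := by
  refine ne_top_of_le_ne_top (PkgAMF.exp_lintegral d N hN) (lintegral_mono fun y => ?_)
  unfold gg
  rw [pow_two]
  calc ENNReal.ofReal (Real.exp (-(‖y‖ / N))) * ENNReal.ofReal (Real.exp (-(‖y‖ / N)))
      ≤ ENNReal.ofReal (Real.exp (-(‖y‖ / N))) * 1 := by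
        refine mul_le_mul' le_rfl ?_
        rw [← ENNReal.ofReal_one]
        refine ENNReal.ofReal_le_ofReal ?_
        rw [Real.exp_le_one_iff]
        have : 0 ≤ ‖y‖ / N := by positivity
        linarith
    _ = _ := mul_one _

theorem gg_pos (d : ℕ) (N : ℝ) : ∫⁻ y : X d, gg d N y ≠ 0 := by
  rw [Ne, lintegral_eq_zero_iff (gg_meas d N)]
  intro h
  have h1 : ∀ y : X d, gg d N y ≠ 0 := fun y => by
    unfold gg
    exact pow_ne_zero _ (by rw [Ne, ENNReal.ofReal_eq_zero, not_le]; exact Real.exp_pos _)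
  have h2 : ∀ᵐ y : X d, False := h.mono fun y hy => h1 y hy
  rw [Filter.eventually_false_iff_eq_bot] at h2
  exact NeZero.ne (volume : Measure (X d)) (ae_eq_bot.1 h2)

theorem n2_wt (d : ℕ) (N : ℝ) (s : X d) :
    n2 (fun x => wt N s x) = (∫⁻ y : X d, gg d N y) ^ (1 / 2 : ℝ) := by
  unfold n2
  congr 1
  simp only [wt_sq]
  exact lintegral_sub_right_eq_self (fun y => gg d N y) s

theorem cs (d : ℕ) (f g : X d → ℝ≥0∞) (hf : Measurable f) (hg : Measurable g) :
    ∫⁻ x, f x * g x ≤ n2 f * n2 g := by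
  have h := ENNReal.lintegral_mul_le_Lp_mul_Lq (volume : Measure (X d))
    (p := 2) (q := 2) Real.HolderConjugate.two_two hf.aemeasurable hg.aemeasurable
  unfold n2
  simpa [ENNReal.rpow_two] using h

theorem wt_meas (d : ℕ) (N : ℝ) (s : X d) : Measurable fun x : X d => wt N s x := by
  unfold wt wr
  exact (by fun_prop : Continuous fun x : X d => Real.exp (-(‖x - s‖ / N))).measurable.ennreal_ofReal

end PkgAML

open PkgAML in
theorem pAML (hBAS : S_BAS) : S_AML := by
  intro d N hN
  have h0 := gg_pos d N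
  have h1 := gg_fin d N hN
  refine ⟨(∫⁻ y : X d, gg d N y)⁻¹ * (∫⁻ y : X d, gg d N y) ^ (1 / 2 : ℝ),
    ENNReal.mul_ne_top (ENNReal.inv_ne_top.2 h0) (ENNReal.rpow_ne_top_of_nonneg (by norm_num) h1),
    fun v hv => ?_⟩
  have key : (∫⁻ y : X d, gg d N y) * ∫⁻ x, v x ≤
      (∫⁻ y : X d, gg d N y) ^ (1 / 2 : ℝ) * am N v := by
    calc (∫⁻ y : X d, gg d N y) * ∫⁻ x, v x
        = ∫⁻ x, (∫⁻ y : X d, gg d N y) * v x := by rw [lintegral_const_mul _ hv]
      _ = ∫⁻ x : X d, ∫⁻ s : X d, gg d N (x - s) * v x := by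
          refine lintegral_congr fun x => ?_
          have hm : Measurable fun s : X d => gg d N (x - s) :=
            (gg_meas d N).comp (measurable_const.sub measurable_id)
          rw [lintegral_mul_const _ hm]
          congr 1
          exact (lintegral_sub_left_eq_self (fun y => gg d N y) x).symm
      _ = ∫⁻ s : X d, ∫⁻ x : X d, gg d N (x - s) * v x := by
          refine lintegral_lintegral_swap ?_
          refine Measurable.aemeasurable ?_
          exact ((gg_meas d N).comp (measurable_fst.sub measurable_snd)).mul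
            (hv.comp measurable_fst)
      _ ≤ ∫⁻ s : X d, (∫⁻ y : X d, gg d N y) ^ (1 / 2 : ℝ) * n2 (fun x => wt N s x * v x) := by
          refine lintegral_mono fun s => ?_
          simp only
          rw [← n2_wt d N s]
          refine le_trans (le_of_eq ?_) (cs d (fun x => wt N s x) (fun x => wt N s x * v x)
            (wt_meas d N s) ((wt_meas d N s).mul hv))
          refine lintegral_congr fun x => ?_
          rw [← wt_sq, pow_two, mul_assoc]
      _ = (∫⁻ y : X d, gg d N y) ^ (1 / 2 : ℝ) * am N v := by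
          unfold am
          rw [lintegral_const_mul' _ _ (ENNReal.rpow_ne_top_of_nonneg (by norm_num) h1)]
  calc ∫⁻ x, v x = (∫⁻ y : X d, gg d N y)⁻¹ * ((∫⁻ y : X d, gg d N y) * ∫⁻ x, v x) := by
        rw [← mul_assoc, ENNReal.inv_mul_cancel h0 h1, one_mul]
    _ ≤ (∫⁻ y : X d, gg d N y)⁻¹ * ((∫⁻ y : X d, gg d N y) ^ (1 / 2 : ℝ) * am N v) :=
        mul_le_mul' le_rfl key
    _ = _ := by rw [mul_assoc]

end Pool.Agent.T2H92.RS
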