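import Pool.Agent.T2H92.RS.Stm

/-!
# Package BAS: basic facts on convolutions and weighted norms
-/

set_option autoImplicit false

namespace Pool.Agent.T2H92.RS

open MeasureTheory Filter Topology Set
open scoped ENNReal NNReal

namespace PkgBAS

variable {d : ℕ}

theorem wt_meas (N : ℝ) : Measurable fun p : X d × X d => wt N p.1 p.2 := by
  unfold wt wr
  apply Measurable.ennreal_ofReal
  apply Continuous.measurable
  fun_prop

theorem sec_meas {k g : X d → ℝ≥0∞} (hk : Measurable k) (hg : Measurable g) :
    Measurable fun p : X d × X d => k (p.1 - p.2) * g p.2 :=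
  (hk.comp (measurable_fst.sub measurable_snd)).mul (hg.comp measurable_snd)

theorem cv_meas (k g : X d → ℝ≥0∞) (hk : Measurable k) (hg : Measurable g) :
    Measurable (cv k g) :=
  Measurable.lintegral_prod_right' (sec_meas hk hg)

theorem cv_comm (k g : X d → ℝ≥0∞) : cv k g = cv g k := by
  funext x
  unfold cv
  have h := lintegral_sub_left_eq_self (μ := (volume : Measure (X d)))
    (fun y => k y * g (x - y)) x
  rw [show (∫⁻ y, g (x - y) * k y) = ∫⁻ y, k y * g (x - y) from
    lintegral_congr fun y => mul_comm _ _, ← h]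
  refine lintegral_congr fun y => ?_
  rw [sub_sub_cancel]

theorem cv_int (k g : X d → ℝ≥0∞) (hk : Measurable k) (hg : Measurable g) :
    ∫⁻ x, cv k g x = (∫⁻ x, k x) * ∫⁻ x, g x := by
  unfold cv
  rw [lintegral_lintegral_swap (sec_meas hk hg).aemeasurable]
  have h : ∀ y, ∫⁻ x, k (x - y) * g y = (∫⁻ x, k x) * g y := by
    intro y
    have hm : Measurable fun x : X d => k (x - y) := hk.comp (measurable_id.sub_const y)
    rw [lintegral_mul_const _ hm]
    congr 1
    exact lintegral_sub_right_eq_self k y
  rw [lintegral_congr h, lintegral_const_mul _ hg]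

theorem cv_mono (k k' g g' : X d → ℝ≥0∞) (h : ∀ᵐ x, k x ≤ k' x) (h' : ∀ᵐ x, g x ≤ g' x)
    (x : X d) : cv k g x ≤ cv k' g' x := by
  unfold cv
  have h1 : ∀ᵐ y, k (x - y) ≤ k' (x - y) :=
    (quasiMeasurePreserving_sub_left (volume : Measure (X d)) x).ae h
  refine lintegral_mono_ae ?_
  filter_upwards [h1, h'] with y hy hy'
  exact mul_le_mul' hy hy'

theorem n2_mono (f g : X d → ℝ≥0∞) (h : ∀ᵐ x, f x ≤ g x) : n2 f ≤ n2 g := by
  unfold n2
  refine ENNReal.rpow_le_rpow (lintegral_mono_ae ?_) (by norm_num)
  filter_upwards [h] with x hx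
  exact pow_le_pow_left' hx 2

theorem n2_add (f g : X d → ℝ≥0∞) (hf : Measurable f) (hg : Measurable g) :
    n2 (fun x => f x + g x) ≤ n2 f + n2 g := by
  have h := ENNReal.lintegral_Lp_add_le (μ := (volume : Measure (X d))) (p := 2)
    hf.aemeasurable hg.aemeasurable (by norm_num)
  simp only [ENNReal.rpow_two, Pi.add_apply] at h
  exact h

theorem n2_smul (a : ℝ≥0∞) (f : X d → ℝ≥0∞) (hf : Measurable f) :
    n2 (fun x => a * f x) = a * n2 f := by
  unfold n2
  simp only [mul_pow]
  rw [lintegral_const_mul _ (hf.pow_const 2), ENNReal.mul_rpow_of_nonneg _ _ (by norm_num)]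
  congr 1
  rw [← ENNReal.rpow_two, ← ENNReal.rpow_mul]
  norm_num

theorem am_meas (N : ℝ) (v : X d → ℝ≥0∞) (hv : Measurable v) :
    Measurable fun s => n2 (fun x => wt N s x * v x) := by
  unfold n2
  apply Measurable.pow_const
  exact Measurable.lintegral_prod_right' (f := fun p : X d × X d => (wt N p.1 p.2 * v p.2) ^ 2)
    (((wt_meas N).mul (hv.comp measurable_snd)).pow_const 2)

theorem wt_meas' (N : ℝ) (s : X d) : Measurable fun x => wt N s x := by
  unfold wt wr
  apply Measurable.ennreal_ofReal
  apply Continuous.measurable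
  fun_prop

end PkgBAS

open PkgBAS in
theorem pBAS : S_BAS := by
  intro d
  refine ⟨wt_meas, cv_meas, fun k g _ _ => cv_comm k g, cv_int, cv_mono, ?_, ?_, n2_mono, n2_add,
    n2_smul, am_meas, ?_, ?_, ?_⟩
  · intro k g g' hk hg x
    unfold cv
    rw [← lintegral_add_left]
    · exact lintegral_congr fun y => mul_add _ _ _
    · exact (hk.comp (measurable_const.sub measurable_id)).mul hg
  · intro a k g hk hg x
    unfold cv
    rw [← lintegral_const_mul]
    · exact lintegral_congr fun y => by ring
    · exact (hk.comp (measurable_const.sub measurable_id)).mul hg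
  · intro N f g h
    unfold am
    refine lintegral_mono fun s => n2_mono _ _ ?_
    filter_upwards [h] with x hx
    gcongr
  · intro N f g hf hg
    unfold am
    rw [← lintegral_add_left (am_meas N f hf)]
    refine lintegral_mono fun s => ?_
    have h := n2_add (fun x => wt N s x * f x) (fun x => wt N s x * g x)
      ((wt_meas' N s).mul hf) ((wt_meas' N s).mul hg)
    simp only [← mul_add] at h
    exact h
  · intro N a f hf
    unfold am
    rw [← lintegral_const_mul _ (am_meas N f hf)]
    refine lintegral_congr fun s => ?_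
    have h := n2_smul a (fun x => wt N s x * f x) ((wt_meas' N s).mul hf)
    rw [← h]
    congr 1
    funext x
    ring

end Pool.Agent.T2H92.RS
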