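import Pool.Agent.T2H92.RS.Stm
import Pool.Agent.GQ.Semi

/-! # RS, package BND: growth bound from dissipativity -/

set_option autoImplicit false

namespace Pool.Agent.T2H92.RS

open MeasureTheory Filter Topology Set
open scoped ENNReal NNReal

namespace PkgBND

/-- the semigroup as a `GQ.C0Semigroup` -/
noncomputable def sg {d : ℕ} (S : ℝ → L1 d →L[ℂ] L1 d) (h : C0SG S) : GQ.C0Semigroup (L1 d) where
  T := S
  map_zero := h.zero
  map_add := h.add
  cont := h.cont

lemma csm {d : ℕ} (r : ℝ) (v : L1 d) : ((r : ℝ) : ℂ) • v = r • v := by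
  exact Complex.coe_smul r v

lemma dom_bound {d : ℕ} (S : ℝ → L1 d →L[ℂ] L1 d) (c : ℝ) (hS : C0SG S)
    (hd : ∀ lam : ℝ, c < lam → ∀ f g, IsGen S f g → (lam - c) * ‖f‖ ≤ ‖(lam : ℂ) • f - g‖)
    (f g : L1 d) (hfg : IsGen S f g) (t : ℝ) (ht : 0 ≤ t) : ‖S t f‖ ≤ Real.exp (c * t) * ‖f‖ := by
  have hcont : ∀ u, ContinuousOn (fun s => S s u) (Ici 0) := fun u => (sg S hS).continuousOn u
  have hgen : ∀ s, 0 ≤ s → IsGen S (S s f) (S s g) := fun s hs => (sg S hS).isGen_map (f := f) (g := g) hfg s hs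
  have hder : ∀ x, 0 ≤ x → HasDerivWithinAt (fun s => S s f) (S x g) (Ici x) x := fun x hx =>
    (sg S hS).hasDerivWithinAt (f := f) (g := g) hfg x hx
  have key := le_gronwallBound_of_liminf_deriv_right_le (f := fun s => ‖S s f‖)
    (f' := fun s => c * ‖S s f‖) (δ := ‖f‖) (K := c) (ε := 0) (a := 0) (b := t)
    (by
      have h1 : ContinuousOn (fun s => ‖S s f‖) (Ici 0) := (hcont f).norm
      exact h1.mono Icc_subset_Ici_self)
    (by
      intro x hx r hr
      apply Eventually.frequently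
      have hxx : (0 : ℝ) ≤ x := hx.1
      have hIoi : Ioi x ⊆ Ici (0 : ℝ) := fun z hz => hxx.trans (le_of_lt hz)
      have l1 : Tendsto (fun z => ‖S z f‖) (𝓝[>] x) (𝓝 ‖S x f‖) :=
        ((hcont f x hxx).mono hIoi).norm
      have l2 : Tendsto (fun z => S z g) (𝓝[>] x) (𝓝 (S x g)) := (hcont g x hxx).mono hIoi
      have l3 : Tendsto (fun z => slope (fun s => S s f) x z) (𝓝[>] x) (𝓝 (S x g)) := by
        have := hder x hxx
        rw [← hasDerivWithinAt_Ioi_iff_Ici, hasDerivWithinAt_iff_tendsto_slope' (by simp)] at this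
        exact this
      have l4 : Tendsto (fun z => c * ‖S z f‖ + ‖slope (fun s => S s f) x z - S z g‖) (𝓝[>] x)
          (𝓝 (c * ‖S x f‖ + ‖S x g - S x g‖)) := (l1.const_mul c).add (l3.sub l2).norm
      rw [sub_self, norm_zero, add_zero] at l4
      have l5 : ∀ᶠ z in 𝓝[>] x, c * ‖S z f‖ + ‖slope (fun s => S s f) x z - S z g‖ < r :=
        l4.eventually (gt_mem_nhds hr)
      have l6 : ∀ᶠ z in 𝓝[>] x, z < x + 1 / (|c| + 1) := by
        apply nhdsWithin_le_nhds
        apply gt_mem_nhds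
        have : (0 : ℝ) < 1 / (|c| + 1) := by positivity
        linarith
      filter_upwards [l5, l6, self_mem_nhdsWithin] with z h5 h6 h7
      rw [mem_Ioi] at h7
      have hh : 0 < z - x := by linarith
      have hz0 : 0 ≤ z := by linarith
      have hlam : c < (z - x)⁻¹ := by
        have h8 : z - x < 1 / (|c| + 1) := by linarith
        have h9 : |c| + 1 < (z - x)⁻¹ := by
          rw [lt_inv_comm₀ (by positivity) hh, inv_eq_one_div]
          exact h8
        have := le_abs_self c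
        linarith
      have h8 := hd ((z - x)⁻¹) hlam _ _ (hgen z hz0)
      have h9 : ‖(((z - x)⁻¹ : ℝ) : ℂ) • S z f - S z g‖ ≤
          (z - x)⁻¹ * ‖S x f‖ + ‖slope (fun s => S s f) x z - S z g‖ := by
        have e1 : (((z - x)⁻¹ : ℝ) : ℂ) • S z f - S z g =
            (((z - x)⁻¹ : ℝ) : ℂ) • S x f + (slope (fun s => S s f) x z - S z g) := by
          rw [slope_def_module, ← csm, smul_sub]
          abel
        rw [e1]
        refine (norm_add_le _ _).trans ?_
        rw [norm_smul, Complex.norm_real, Real.norm_eq_abs, abs_of_pos (inv_pos.mpr hh)]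
      calc (z - x)⁻¹ * (‖S z f‖ - ‖S x f‖) ≤ c * ‖S z f‖ + ‖slope (fun s => S s f) x z - S z g‖ := by
            linarith
        _ < r := h5)
    (by
      show ‖S 0 f‖ ≤ ‖f‖
      rw [hS.zero]
      exact le_of_eq rfl)
    (by
      intro x _
      simp)
    t ⟨ht, le_rfl⟩
  rw [gronwallBound_ε0, sub_zero] at key
  rw [mul_comm]
  exact key

end PkgBND

theorem pBND (hDEN : S_DEN) : S_BND := by
  intro d S c hc hS hd t ht
  refine ContinuousLinearMap.opNorm_le_bound _ (Real.exp_pos _).le ?_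
  intro f
  have key : ∀ ε : ℝ, 0 < ε → ‖S t f‖ ≤ Real.exp (c * t) * ‖f‖ + ε * (Real.exp (c * t) + ‖S t‖) := by
    intro ε hε
    obtain ⟨f', g', hfg, hff⟩ := hDEN d S hS f ε hε
    have h1 := PkgBND.dom_bound S c hS hd f' g' hfg t ht
    have h2 : ‖S t f‖ ≤ ‖S t f'‖ + ‖S t‖ * ε := by
      have e1 : S t f = S t f' + S t (f - f') := by
        rw [map_sub]
        abel
      rw [e1]
      refine (norm_add_le _ _).trans ?_
      gcongr
      exact ((S t).le_opNorm _).trans (by gcongr)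
    have h3 : ‖f'‖ ≤ ‖f‖ + ε := by
      have e1 : f' = f - (f - f') := by abel
      rw [e1]
      exact (norm_sub_le _ _).trans (by linarith)
    have h4 : Real.exp (c * t) * ‖f'‖ ≤ Real.exp (c * t) * (‖f‖ + ε) := by gcongr
    nlinarith
  apply le_of_forall_pos_le_add
  intro η hη
  have hD : 0 < Real.exp (c * t) + ‖S t‖ + 1 := by positivity
  have h1 := key (η / (Real.exp (c * t) + ‖S t‖ + 1)) (by positivity)
  have h2 : η / (Real.exp (c * t) + ‖S t‖ + 1) * (Real.exp (c * t) + ‖S t‖) ≤ η := by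
    rw [div_mul_eq_mul_div, div_le_iff₀ hD]
    nlinarith
  linarith

end Pool.Agent.T2H92.RS
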