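import Pool.Agent.T2H92.RS.Stm

/-! # RS: package CLO -/

set_option autoImplicit false

namespace Pool.Agent.T2H92.RS

open MeasureTheory Filter Topology Set
open scoped ENNReal NNReal

namespace PkgCLO

lemma mo_meas {d : ℕ} (f : L1 d) : Measurable (mo f) :=
  (Lp.stronglyMeasurable f).measurable.enorm

lemma sub_ae {d : ℕ} (g : ℕ → L1 d) (g' : L1 d) (h : Tendsto g atTop (𝓝 g')) :
    ∃ ns : ℕ → ℕ, StrictMono ns ∧ ∀ᵐ x, Tendsto (fun k => g (ns k) x) atTop (𝓝 (g' x)) :=
  (tendstoInMeasure_of_tendsto_Lp h).exists_seq_tendsto_ae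

lemma cs {d : ℕ} (g h : X d → ℝ≥0∞) (hg : Measurable g) (hh : Measurable h) :
    ∫⁻ x, g x * h x ≤ n2 g * n2 h := by
  have := ENNReal.lintegral_mul_le_Lp_mul_Lq volume Real.HolderConjugate.two_two hg.aemeasurable
    hh.aemeasurable
  simpa [n2] using this

end PkgCLO

open PkgCLO in
theorem pCLO (hBAS : S_BAS) (hYNG : S_YNG) : S_CLO := by
  intro d E Rn R hE hEi hD hS hlim
  have B := hBAS d
  refine ⟨?_, ?_⟩
  · intro f
    obtain ⟨ns, -, hns⟩ := sub_ae _ _ (hlim f)
    have h1 : ∀ᵐ x, ∀ n, mo (Rn n f) x ≤ cv E (mo f) x := ae_all_iff.2 fun n => hD n f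
    filter_upwards [hns, h1] with x hx h1x
    refine le_of_tendsto (hx.enorm) (Eventually.of_forall fun k => ?_)
    exact h1x (ns k)
  · intro f hf
    obtain ⟨ns, -, hns⟩ := sub_ae _ _ (hlim f)
    have h1 : ∀ᵐ x, ∀ n, mo (Rn n f) x ≤ cv E (mo f) x := ae_all_iff.2 fun n => hD n f
    have hmf := mo_meas f
    have hcv := B.cv_meas E (mo f) hE hmf
    have hfin : ∫⁻ x, cv E (mo f) x * mo f x ≠ ∞ := by
      refine ne_top_of_le_ne_top ?_ (cs _ _ hcv hmf)
      refine ENNReal.mul_ne_top ?_ hf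
      exact ne_top_of_le_ne_top (ENNReal.mul_ne_top hEi hf) (hYNG d E (mo f) hE hmf)
    have hae : ∀ᵐ x, cv E (mo f) x * mo f x < ∞ := ae_lt_top (hcv.mul hmf) hfin
    have key : Tendsto (fun k => ∫ x, (Rn (ns k) f) x * (starRingEnd ℂ) (f x)) atTop
        (𝓝 (∫ x, (R f) x * (starRingEnd ℂ) (f x))) := by
      refine tendsto_integral_of_dominated_convergence
        (fun x => (cv E (mo f) x * mo f x).toReal) ?_ ?_ ?_ ?_
      · intro k
        exact ((Lp.stronglyMeasurable (Rn (ns k) f)).mul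
          (continuous_star.comp_stronglyMeasurable (Lp.stronglyMeasurable f))).aestronglyMeasurable
      · exact integrable_toReal_of_lintegral_ne_top (hcv.mul hmf).aemeasurable hfin
      · intro k
        filter_upwards [h1, hae] with x hx hx2
        have : ‖(Rn (ns k) f) x * (starRingEnd ℂ) (f x)‖ₑ ≤ cv E (mo f) x * mo f x := by
          rw [enorm_mul]
          refine mul_le_mul' (hx (ns k)) (le_of_eq ?_)
          simp [mo, enorm_eq_nnnorm]
        rw [← toReal_enorm]
        exact ENNReal.toReal_mono hx2.ne this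
      · filter_upwards [hns] with x hx
        exact hx.mul_const _
    have him : Tendsto (fun k => (∫ x, (Rn (ns k) f) x * (starRingEnd ℂ) (f x)).im) atTop
        (𝓝 (∫ x, (R f) x * (starRingEnd ℂ) (f x)).im) :=
      (Complex.continuous_im.tendsto _).comp key
    have h0 : (fun k => (∫ x, (Rn (ns k) f) x * (starRingEnd ℂ) (f x)).im) = fun _ => (0 : ℝ) := by
      funext k
      exact hS (ns k) f hf
    rw [h0] at him
    exact tendsto_nhds_unique him tendsto_const_nhds

end Pool.Agent.T2H92.RS
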