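import Pool.Agent.T2H92.RS.Stm

set_option autoImplicit false

namespace Pool.Agent.T2H92.RS

open MeasureTheory Filter Topology Set
open scoped ENNReal NNReal

theorem pCOM1 (hBAS : S_BAS) : S_COM1 := by
  intro d R E hE hEi hDom N hN s v w hw
  have hB := hBAS d
  have hvm : Measurable (mo v) := (Lp.stronglyMeasurable v).enorm
  -- the inequality for all rational `c`
  have hq : ∀ c : ℚ, ∀ᵐ x, ‖R w x - ((c : ℝ) : ℂ) * R v x‖ₑ ≤
      ∫⁻ y, E (x - y) * (ENNReal.ofReal |wr N s y - (c : ℝ)| * mo v y) := by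
    intro c
    have h1 := hDom (w - ((c : ℝ) : ℂ) • v)
    have h2 : R (w - ((c : ℝ) : ℂ) • v) = R w - ((c : ℝ) : ℂ) • R v := by
      rw [map_sub, map_smul]
    have h3 : mo (w - ((c : ℝ) : ℂ) • v) =ᵐ[volume] fun y => ENNReal.ofReal |wr N s y - (c : ℝ)| * mo v y := by
      filter_upwards [Lp.coeFn_sub w (((c : ℝ) : ℂ) • v), Lp.coeFn_smul ((c : ℝ) : ℂ) v, hw] with y h4 h5 h6
      unfold mo
      rw [h4, Pi.sub_apply, h5, Pi.smul_apply, h6, smul_eq_mul, ← sub_mul, enorm_mul]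
      congr 1
      rw [← Complex.ofReal_sub, ← ofReal_norm, Complex.norm_real, Real.norm_eq_abs]
    filter_upwards [h1, Lp.coeFn_sub (R w) (((c : ℝ) : ℂ) • R v), Lp.coeFn_smul ((c : ℝ) : ℂ) (R v)] with x h7 h8 h9
    rw [h2] at h7
    unfold mo at h7
    rw [h8, Pi.sub_apply, h9, Pi.smul_apply, smul_eq_mul] at h7
    refine h7.trans ?_
    exact hB.cv_mono E E _ _ (Eventually.of_forall fun _ => le_refl _) (h3.mono fun y hy => hy.le) x
  have hall := ae_all_iff.2 hq
  -- finiteness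
  have hfin : ∀ᵐ x, cv E (mo v) x < ∞ := by
    refine ae_lt_top (hB.cv_meas E (mo v) hE hvm) ?_
    rw [hB.cv_int E (mo v) hE hvm]
    refine ENNReal.mul_ne_top hEi ?_
    have h := (Lp.memLp v).1
    have h2 : ∫⁻ x, ‖v x‖ₑ < ∞ := (memLp_one_iff_integrable.1 (Lp.memLp v)).2
    exact h2.ne
  filter_upwards [hall, hfin] with x hx hxf
  set T := ∫⁻ y, E (x - y) * (ENNReal.ofReal |wr N s y - wr N s x| * mo v y) with hT
  set K : ℝ≥0∞ := ‖R v x‖ₑ + cv E (mo v) x with hK
  have hKf : K ≠ ∞ := by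
    rw [hK]
    exact ENNReal.add_ne_top.2 ⟨enorm_ne_top, hxf.ne⟩
  have hmain : ∀ ε : ℝ, 0 < ε → ‖(wr N s x : ℂ) * R v x - R w x‖ₑ ≤ ENNReal.ofReal ε * K + T := by
    intro ε hε
    obtain ⟨c, hc1, hc2⟩ := exists_rat_btwn (show wr N s x < wr N s x + ε by linarith)
    have habs : |wr N s x - (c : ℝ)| ≤ ε := by
      rw [abs_le]
      constructor <;> linarith
    have h1 : (wr N s x : ℂ) * R v x - R w x =
        ((wr N s x - (c : ℝ) : ℝ) : ℂ) * R v x - (R w x - ((c : ℝ) : ℂ) * R v x) := by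
      push_cast
      ring
    have h2 : ‖((wr N s x - (c : ℝ) : ℝ) : ℂ) * R v x‖ₑ ≤ ENNReal.ofReal ε * ‖R v x‖ₑ := by
      rw [enorm_mul]
      refine mul_le_mul_left ?_ _
      rw [← ofReal_norm, Complex.norm_real, Real.norm_eq_abs]
      exact ENNReal.ofReal_le_ofReal habs
    have h3 : ∫⁻ y, E (x - y) * (ENNReal.ofReal |wr N s y - (c : ℝ)| * mo v y) ≤
        ENNReal.ofReal ε * cv E (mo v) x + T := by
      rw [← hB.cv_smul (ENNReal.ofReal ε) E (mo v) hE hvm x]
      unfold cv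
      rw [hT, ← lintegral_add_left]
      · refine lintegral_mono fun y => ?_
        rw [← mul_add, ← add_mul]
        gcongr
        rw [← ENNReal.ofReal_add hε.le (abs_nonneg _)]
        refine ENNReal.ofReal_le_ofReal ?_
        have := abs_sub_le (wr N s y) (wr N s x) (c : ℝ)
        linarith
      · refine (hE.comp (measurable_const.sub measurable_id)).mul (hvm.const_mul _)
    calc ‖(wr N s x : ℂ) * R v x - R w x‖ₑ
        ≤ ‖((wr N s x - (c : ℝ) : ℝ) : ℂ) * R v x‖ₑ + ‖R w x - ((c : ℝ) : ℂ) * R v x‖ₑ := by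
          rw [h1]
          exact enorm_sub_le
      _ ≤ ENNReal.ofReal ε * ‖R v x‖ₑ + (ENNReal.ofReal ε * cv E (mo v) x + T) :=
          add_le_add h2 ((hx c).trans h3)
      _ = ENNReal.ofReal ε * K + T := by rw [hK]; ring
  have hlim : Tendsto (fun ε : ℝ => ENNReal.ofReal ε * K + T) (𝓝[>] 0) (𝓝 (ENNReal.ofReal 0 * K + T)) := by
    refine Tendsto.add ?_ tendsto_const_nhds
    refine ENNReal.Tendsto.mul_const ?_ (Or.inr hKf)
    exact (ENNReal.continuous_ofReal.tendsto 0).mono_left nhdsWithin_le_nhds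
  rw [ENNReal.ofReal_zero, zero_mul, zero_add] at hlim
  exact ge_of_tendsto hlim (by filter_upwards [self_mem_nhdsWithin] with ε hε using hmain ε hε)

end Pool.Agent.T2H92.RS
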