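import Pool.Agent.T2H92.RS.Stm
import Pool.Agent.GQ.Semi

/-! # RS: package DEN -/

set_option autoImplicit false

namespace Pool.Agent.T2H92.RS

open MeasureTheory Filter Topology Set
open scoped ENNReal NNReal

namespace PkgDEN

/-- the semigroup as a structure -/
noncomputable def toP {d : ℕ} {S : ℝ → L1 d →L[ℂ] L1 d} (h : C0SG S) : GQ.C0Semigroup (L1 d) where
  T := S
  map_zero := h.zero
  map_add := h.add
  cont := h.cont

/-- orbit, extended to `t < 0` -/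
noncomputable def orb {d : ℕ} (S : ℝ → L1 d →L[ℂ] L1 d) (f : L1 d) (t : ℝ) : L1 d := S (max t 0) f

lemma orb_cont {d : ℕ} {S : ℝ → L1 d →L[ℂ] L1 d} (h : C0SG S) (f : L1 d) : Continuous (orb S f) := by
  have h1 : ContinuousOn (fun t => S t f) (Set.Ici 0) := (toP h).continuousOn f
  have h2 : Continuous fun t : ℝ => max t 0 := continuous_id.max continuous_const
  exact h1.comp_continuous h2 fun t => Set.mem_Ici.2 (le_max_right _ _)

lemma orb_of {d : ℕ} (S : ℝ → L1 d →L[ℂ] L1 d) (f : L1 d) {t : ℝ} (ht : 0 ≤ t) : orb S f t = S t f := by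
  simp [orb, max_eq_left ht]

lemma prim {d : ℕ} {S : ℝ → L1 d →L[ℂ] L1 d} (h : C0SG S) (f : L1 d) (b : ℝ) :
    Tendsto (fun s : ℝ => s⁻¹ • ((∫ x in (0:ℝ)..(b + s), orb S f x) - ∫ x in (0:ℝ)..b, orb S f x))
      (𝓝[>] 0) (𝓝 (orb S f b)) := by
  have h1 := ((orb_cont h f).integral_hasStrictDerivAt 0 b).hasDerivAt
  rw [hasDerivAt_iff_tendsto_slope_zero] at h1
  exact h1.mono_left (nhdsWithin_mono _ fun x hx => ne_of_gt hx)

lemma shift {d : ℕ} {S : ℝ → L1 d →L[ℂ] L1 d} (h : C0SG S) (f : L1 d) {b s : ℝ} (hb : 0 ≤ b) (hs : 0 ≤ s) :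
    S s (∫ x in (0:ℝ)..b, orb S f x) = (∫ x in (0:ℝ)..(b + s), orb S f x) - ∫ x in (0:ℝ)..s, orb S f x := by
  have hc := orb_cont h f
  rw [← ContinuousLinearMap.intervalIntegral_comp_comm _ (hc.intervalIntegrable _ _)]
  have h1 : ∫ x in (0:ℝ)..b, S s (orb S f x) = ∫ x in (0:ℝ)..b, orb S f (x + s) := by
    refine intervalIntegral.integral_congr fun x hx => ?_
    rw [uIcc_of_le hb] at hx
    have hx0 : 0 ≤ x := hx.1
    show S s (orb S f x) = orb S f (x + s)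
    rw [orb_of S f hx0, orb_of S f (by linarith), add_comm x s, h.add s x hs hx0]
    rfl
  rw [h1, intervalIntegral.integral_comp_add_right, zero_add,
    eq_sub_iff_add_eq', intervalIntegral.integral_add_adjacent_intervals (hc.intervalIntegrable _ _)
      (hc.intervalIntegrable _ _)]

lemma gen {d : ℕ} {S : ℝ → L1 d →L[ℂ] L1 d} (h : C0SG S) (f : L1 d) {b : ℝ} (hb : 0 ≤ b) :
    IsGen S (∫ x in (0:ℝ)..b, orb S f x) (S b f - f) := by
  have h1 := (prim h f b).sub (prim h f 0)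
  rw [orb_of S f hb, orb_of S f le_rfl, h.zero] at h1
  refine Tendsto.congr' ?_ h1
  filter_upwards [self_mem_nhdsWithin] with s hs
  have hs' : 0 ≤ s := le_of_lt hs
  rw [shift h f hb hs', Complex.coe_smul, zero_add, intervalIntegral.integral_same, sub_zero, ← smul_sub]
  congr 1
  abel

lemma gen_smul {d : ℕ} {S : ℝ → L1 d →L[ℂ] L1 d} {f g : L1 d} (h : IsGen S f g) (c : ℂ) :
    IsGen S (c • f) (c • g) := by
  have h1 : Tendsto (fun t : ℝ => c • (((t⁻¹ : ℝ) : ℂ) • (S t f - f))) (𝓝[>] 0) (𝓝 (c • g)) := h.const_smul c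
  refine h1.congr fun t => ?_
  rw [map_smul, ← smul_sub, smul_comm]

end PkgDEN

open PkgDEN in
theorem pDEN : S_DEN := by
  intro d S h f ε hε
  have h1 := prim h f 0
  rw [orb_of S f le_rfl, h.zero] at h1
  have h2 : Tendsto (fun s : ℝ => s⁻¹ • ∫ x in (0:ℝ)..s, orb S f x) (𝓝[>] 0) (𝓝 f) := by
    refine h1.congr fun s => ?_
    rw [zero_add, intervalIntegral.integral_same, sub_zero]
  have h3 := (Metric.tendsto_nhds.1 h2) ε hε
  obtain ⟨s, hs, hs0⟩ := (h3.and self_mem_nhdsWithin).exists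
  have hs0' : 0 ≤ s := le_of_lt hs0
  refine ⟨((s⁻¹ : ℝ) : ℂ) • ∫ x in (0:ℝ)..s, orb S f x, ((s⁻¹ : ℝ) : ℂ) • (S s f - f),
    gen_smul (gen h f hs0') _, ?_⟩
  rw [Complex.coe_smul, ← dist_eq_norm, dist_comm]
  exact hs.le

end Pool.Agent.T2H92.RS
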