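import Pool.Agent.T2H92.RS.Stm

/-!
# Package DIS: the generators with bounded potentials are dissipative up to `c`
-/

set_option autoImplicit false

namespace Pool.Agent.T2H92.RS

open MeasureTheory Filter Topology Set
open scoped ENNReal NNReal

namespace PkgDIS

theorem key {d : ℕ} {W : X d → ℝ} {c lam s : ℝ} (hW : ∀ x, -c ≤ W x) (hlam : c < lam) (hs : 0 < s)
    (f g h : L1 d) (hg : g =ᵐ[volume] fun x => h x - ((W x : ℝ) : ℂ) * f x) :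
    (lam - c + s⁻¹) * ‖f‖ ≤ ‖(lam : ℂ) • f - g + h + ((s⁻¹ : ℝ) : ℂ) • f‖ := by
  have hpos : 0 ≤ lam - c + s⁻¹ := by
    have := inv_pos.mpr hs
    linarith
  have h1 : (lam - c + s⁻¹) * ‖f‖ = ‖((lam - c + s⁻¹ : ℝ) : ℂ) • f‖ := by
    rw [norm_smul, Complex.norm_real, Real.norm_of_nonneg hpos]
  rw [h1]
  apply Lp.norm_le_norm_of_ae_le
  filter_upwards [hg, Lp.coeFn_smul (((lam - c + s⁻¹ : ℝ) : ℂ)) f,
    Lp.coeFn_add ((lam : ℂ) • f - g + h) (((s⁻¹ : ℝ) : ℂ) • f),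
    Lp.coeFn_add ((lam : ℂ) • f - g) h, Lp.coeFn_sub ((lam : ℂ) • f) g,
    Lp.coeFn_smul (lam : ℂ) f, Lp.coeFn_smul ((s⁻¹ : ℝ) : ℂ) f] with x e1 e2 e3 e4 e5 e6 e7
  rw [e2, e3, Pi.add_apply, e4, Pi.add_apply, e5, Pi.sub_apply, e6, e7, e1]
  simp only [Pi.smul_apply, smul_eq_mul]
  have e8 : (lam : ℂ) * f x - (h x - ((W x : ℝ) : ℂ) * f x) + h x + ((s⁻¹ : ℝ) : ℂ) * f x
      = ((lam + W x + s⁻¹ : ℝ) : ℂ) * f x := by
    push_cast
    ring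
  rw [e8, norm_mul, norm_mul, Complex.norm_real, Complex.norm_real, Real.norm_of_nonneg hpos,
    Real.norm_of_nonneg]
  · apply mul_le_mul_of_nonneg_right _ (norm_nonneg _)
    have := hW x
    linarith
  · have := hW x
    linarith

end PkgDIS

open PkgDIS in
theorem pDIS : S_DIS := by
  intro d m V M Tn T c hc _ hV hA hM n lam hlam f g hfg
  obtain ⟨h, hMf, hg⟩ := (hA.genn n f g).mp hfg
  have hW : ∀ x, -c ≤ min (V x) n := by
    intro x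
    apply le_min (hV x)
    have : (0 : ℝ) ≤ n := Nat.cast_nonneg n
    linarith
  have hlim : Tendsto (fun s : ℝ => (lam - c) * ‖f‖ -
      ‖h - ((s⁻¹ : ℝ) : ℂ) • (M s f - f)‖) (𝓝[>] 0) (𝓝 ((lam - c) * ‖f‖ - ‖h - h‖)) :=
    tendsto_const_nhds.sub (tendsto_const_nhds.sub hMf).norm
  rw [sub_self, norm_zero, sub_zero] at hlim
  apply le_of_tendsto hlim
  filter_upwards [self_mem_nhdsWithin] with s hs
  have hs' : 0 < s := hs
  have h1 := key hW hlam hs' f g h hg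
  have h2 : (lam : ℂ) • f - g + h + ((s⁻¹ : ℝ) : ℂ) • f
      = ((lam : ℂ) • f - g) + ((s⁻¹ : ℝ) : ℂ) • M s f + (h - ((s⁻¹ : ℝ) : ℂ) • (M s f - f)) := by
    rw [smul_sub]
    abel
  rw [h2] at h1
  have h3 := norm_add₃_le (a := ((lam : ℂ) • f - g)) (b := ((s⁻¹ : ℝ) : ℂ) • M s f)
    (c := (h - ((s⁻¹ : ℝ) : ℂ) • (M s f - f)))
  have h4 : ‖((s⁻¹ : ℝ) : ℂ) • M s f‖ ≤ s⁻¹ * ‖f‖ := by
    rw [norm_smul, Complex.norm_real, Real.norm_of_nonneg (inv_nonneg.mpr hs'.le)]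
    apply mul_le_mul_of_nonneg_left _ (inv_nonneg.mpr hs'.le)
    calc ‖M s f‖ ≤ ‖M s‖ * ‖f‖ := (M s).le_opNorm f
      _ ≤ 1 * ‖f‖ := mul_le_mul_of_nonneg_right (hM s hs'.le) (norm_nonneg _)
      _ = ‖f‖ := one_mul _
  have h5 : (lam - c + s⁻¹) * ‖f‖ = (lam - c) * ‖f‖ + s⁻¹ * ‖f‖ := by ring
  linarith

end Pool.Agent.T2H92.RS
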