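import Pool.Agent.T2H92.RS.Stm

set_option autoImplicit false

/-! RS package DMN (helper69) -/

namespace Pool.Agent.T2H92.RS

open MeasureTheory Filter Topology Set
open scoped ENNReal NNReal

theorem pDMN (hBAS : S_BAS) : S_DMN := by
  intro d f F q Ea Eb κ hEa hEb hκ h1 h2 h3
  have B := hBAS d
  have mF : Measurable (mo F) := (Lp.stronglyMeasurable F).enorm
  have mf : Measurable (mo f) := (Lp.stronglyMeasurable f).enorm
  obtain ⟨H, hH⟩ : ∃ H : X d → ℝ≥0∞, H = cv Ea (mo f) := ⟨_, rfl⟩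
  have mH : Measurable H := by rw [hH]; exact B.cv_meas _ _ hEa mf
  obtain ⟨D, hD⟩ : ∃ D : X d → ℝ≥0∞, D = fun x => mo F x - H x := ⟨_, rfl⟩
  have mD : Measurable D := by rw [hD]; exact mF.sub mH
  have hFD : ∀ x, mo F x ≤ H x + D x := by
    intro x
    rw [hD]
    exact le_add_tsub
  have h4 : ∀ x, cv Eb (mo q) x ≤ cv Eb (mo f) x + κ * cv Eb (mo F) x := by
    intro x
    calc cv Eb (mo q) x ≤ cv Eb (fun y => mo f y + κ * mo F y) x :=
          B.cv_mono _ _ _ _ (Eventually.of_forall fun _ => le_rfl) h2 x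
      _ = cv Eb (mo f) x + cv Eb (fun y => κ * mo F y) x := B.cv_add _ _ _ hEb mf x
      _ = _ := by rw [B.cv_smul κ _ _ hEb mF x]
  have h5 : ∀ x, cv Eb (mo F) x ≤ cv Eb H x + cv Eb D x := by
    intro x
    calc cv Eb (mo F) x ≤ cv Eb (fun y => H y + D y) x :=
          B.cv_mono _ _ _ _ (Eventually.of_forall fun _ => le_rfl)
            (Eventually.of_forall hFD) x
      _ = _ := B.cv_add _ _ _ hEb mH x
  have h6 : ∀ᵐ x, D x ≤ κ * cv Eb D x := by
    filter_upwards [h1, h3] with x hx1 hx3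
    have h7 : mo F x ≤ H x + κ * cv Eb D x := by
      calc mo F x ≤ cv Eb (mo q) x := hx1
        _ ≤ cv Eb (mo f) x + κ * cv Eb (mo F) x := h4 x
        _ ≤ cv Eb (mo f) x + κ * (cv Eb H x + cv Eb D x) := by gcongr; exact h5 x
        _ = (cv Eb (mo f) x + κ * cv Eb H x) + κ * cv Eb D x := by ring
        _ = H x + κ * cv Eb D x := by rw [hH, ← hx3]
    have hDx : D x = mo F x - H x := by rw [hD]
    rw [hDx]
    exact tsub_le_iff_left.2 h7
  have h8 : ∫⁻ x, D x ≤ (κ * ∫⁻ x, Eb x) * ∫⁻ x, D x := by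
    calc ∫⁻ x, D x ≤ ∫⁻ x, κ * cv Eb D x := lintegral_mono_ae h6
      _ = κ * ∫⁻ x, cv Eb D x := lintegral_const_mul _ (B.cv_meas _ _ hEb mD)
      _ = _ := by rw [B.cv_int _ _ hEb mD, mul_assoc]
  have h9 : ∫⁻ x, D x ≠ ∞ := by
    have h10 : ∫⁻ x, mo F x ≠ ∞ := by
      have := (L1.integrable_coeFn F).2
      exact this.ne
    refine ne_top_of_le_ne_top h10 (lintegral_mono fun x => ?_)
    rw [hD]
    exact tsub_le_self
  have h11 : ∫⁻ x, D x = 0 := by
    by_contra hne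
    have h12 : (κ * ∫⁻ x, Eb x) * ∫⁻ x, D x < 1 * ∫⁻ x, D x :=
      ENNReal.mul_lt_mul_left hne h9 hκ
    rw [one_mul] at h12
    exact absurd h8 (not_le.2 h12)
  rw [lintegral_eq_zero_iff mD] at h11
  filter_upwards [h11] with x hx
  rw [hD] at hx
  rw [← hH]
  exact tsub_eq_zero_iff_le.1 hx

end Pool.Agent.T2H92.RS
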