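import Pool.Agent.T2H92.RS.Stm

/-! # RS: package FIX -/

set_option autoImplicit false

namespace Pool.Agent.T2H92.RS

open MeasureTheory Filter Topology Set
open scoped ENNReal NNReal

theorem pFIX : S_FIX := by
  intro d m V M Tn T hA n lam Rn RM hRn hRM f
  obtain ⟨h, hh1, hh2⟩ := (hA.genn n _ _).mp (hRn.1 f)
  refine ⟨((lam + n : ℝ) : ℂ) • Rn f - h, ?_, hRM.2 _ _ hh1⟩
  filter_upwards [hh2, Lp.coeFn_sub (((lam + n : ℝ) : ℂ) • Rn f) h,
    Lp.coeFn_smul ((lam + n : ℝ) : ℂ) (Rn f), Lp.coeFn_sub ((lam : ℂ) • Rn f) f,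
    Lp.coeFn_smul (lam : ℂ) (Rn f)] with x h1 h2 h3 h4 h5
  rw [h2, Pi.sub_apply, h3, Pi.smul_apply, smul_eq_mul]
  rw [h4, Pi.sub_apply, h5, Pi.smul_apply, smul_eq_mul] at h1
  have e : h x = (lam : ℂ) * Rn f x - f x + ((min (V x) n : ℝ) : ℂ) * Rn f x := by
    linear_combination -h1
  rw [e]
  push_cast
  ring

end Pool.Agent.T2H92.RS
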