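import Pool.Agent.T2H92.RS.Stm

/-! # Package L2B -/

set_option autoImplicit false

namespace Pool.Agent.T2H92.RS

open MeasureTheory Filter Topology Set
open scoped ENNReal NNReal

namespace PkgL2B

variable {d : ℕ}

theorem mo_meas (f : L1 d) : Measurable (mo f) := (Lp.stronglyMeasurable f).measurable.enorm

theorem n2_sq (g : X d → ℝ≥0∞) : n2 g * n2 g = ∫⁻ x, g x ^ 2 := by
  unfold n2
  rw [← ENNReal.rpow_add_of_nonneg _ _ (by norm_num) (by norm_num)]
  norm_num

theorem n2_mono {f g : X d → ℝ≥0∞} (h : ∀ᵐ x, f x ≤ g x) : n2 f ≤ n2 g := by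
  unfold n2
  refine ENNReal.rpow_le_rpow (lintegral_mono_ae ?_) (by norm_num)
  filter_upwards [h] with x hx
  gcongr

theorem cs {f g : X d → ℝ≥0∞} (hf : Measurable f) (hg : Measurable g) :
    ∫⁻ x, f x * g x ≤ n2 f * n2 g := by
  have h := ENNReal.lintegral_mul_le_Lp_mul_Lq (volume : Measure (X d))
    (Real.HolderConjugate.two_two) hf.aemeasurable hg.aemeasurable
  unfold n2
  simpa using h

end PkgL2B

open PkgL2B

theorem pL2B (hYNG : S_YNG) : S_L2B := by
  intro d R E hE hE1 hD hS z f hf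
  set h : L1 d := z • f - R f with hh
  have hRf : n2 (mo (R f)) ≠ ∞ := by
    have h1 : n2 (mo (R f)) ≤ (∫⁻ x, E x) * n2 (mo f) :=
      (n2_mono (hD f)).trans (hYNG d E (mo f) hE (mo_meas f))
    exact ne_top_of_le_ne_top (ENNReal.mul_ne_top hE1 hf) h1
  -- integrability
  have int : ∀ u : L1 d, n2 (mo u) ≠ ∞ → Integrable fun x => u x * (starRingEnd ℂ) (f x) := by
    intro u hu
    refine ⟨?_, ?_⟩
    · exact ((Lp.stronglyMeasurable u).mul
        (Complex.continuous_conj.comp_stronglyMeasurable (Lp.stronglyMeasurable f))).aestronglyMeasurable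
    · rw [hasFiniteIntegral_iff_enorm]
      have h1 : ∫⁻ x, ‖u x * (starRingEnd ℂ) (f x)‖ₑ = ∫⁻ x, mo u x * mo f x := by
        refine lintegral_congr fun x => ?_
        rw [enorm_mul]
        unfold mo
        congr 1
        rw [← ofReal_norm, ← ofReal_norm, RCLike.norm_conj]
      rw [h1]
      exact (cs (mo_meas u) (mo_meas f)).trans_lt (ENNReal.mul_lt_top hu.lt_top hf.lt_top)
  have hae : ∀ᵐ x, h x = z * f x - R f x := by
    have h1 := Lp.coeFn_sub (z • f) (R f)
    have h2 := Lp.coeFn_smul z f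
    filter_upwards [h1, h2] with x hx1 hx2
    rw [hh, hx1, Pi.sub_apply, hx2, Pi.smul_apply, smul_eq_mul]
  have hI : ∫ x, h x * (starRingEnd ℂ) (f x) =
      z * (∫ x, f x * (starRingEnd ℂ) (f x)) - ∫ x, R f x * (starRingEnd ℂ) (f x) := by
    rw [← integral_const_mul, ← integral_sub ((int f hf).const_mul z) (int (R f) hRf)]
    refine integral_congr_ae ?_
    filter_upwards [hae] with x hx
    rw [hx]
    ring
  have hff : ∫ x, f x * (starRingEnd ℂ) (f x) = ((∫ x, ‖f x‖ ^ 2 : ℝ) : ℂ) := by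
    rw [← integral_complex_ofReal]
    refine integral_congr_ae (Eventually.of_forall fun x => ?_)
    show f x * (starRingEnd ℂ) (f x) = _
    rw [Complex.mul_conj, Complex.normSq_eq_norm_sq]
  have him : (∫ x, h x * (starRingEnd ℂ) (f x)).im = z.im * ∫ x, ‖f x‖ ^ 2 := by
    rw [hI, hff, Complex.sub_im, hS f hf, sub_zero, Complex.mul_im]
    simp
  have hnn : 0 ≤ ∫ x, ‖f x‖ ^ 2 := integral_nonneg fun x => by positivity
  have hsq : ENNReal.ofReal (∫ x, ‖f x‖ ^ 2) = ∫⁻ x, mo f x ^ 2 := by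
    rw [ofReal_integral_eq_lintegral_ofReal]
    · refine lintegral_congr fun x => ?_
      unfold mo
      rw [← ofReal_norm, ENNReal.ofReal_pow (norm_nonneg _)]
    · have h1 := (int f hf).norm
      refine h1.congr (Eventually.of_forall fun x => ?_)
      show ‖f x * (starRingEnd ℂ) (f x)‖ = ‖f x‖ ^ 2
      rw [norm_mul, RCLike.norm_conj, sq]
    · exact Eventually.of_forall fun x => by positivity
  have key : ENNReal.ofReal |z.im| * ∫⁻ x, mo f x ^ 2 ≤ n2 (mo h) * n2 (mo f) := by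
    rw [← hsq, ← ENNReal.ofReal_mul (abs_nonneg _)]
    have h1 : |z.im| * ∫ x, ‖f x‖ ^ 2 ≤ ‖∫ x, h x * (starRingEnd ℂ) (f x)‖ := by
      rw [← abs_of_nonneg hnn, ← abs_mul, ← him]
      exact Complex.abs_im_le_norm _
    have h1' : |z.im| * ∫ x, ‖f x‖ ^ 2 ≤ ‖∫ x, h x * (starRingEnd ℂ) (f x)‖ := h1
    calc ENNReal.ofReal (|z.im| * ∫ x, ‖f x‖ ^ 2)
        ≤ ENNReal.ofReal ‖∫ x, h x * (starRingEnd ℂ) (f x)‖ := ENNReal.ofReal_le_ofReal h1'
      _ = ‖∫ x, h x * (starRingEnd ℂ) (f x)‖ₑ := ofReal_norm _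
      _ ≤ ∫⁻ x, ‖h x * (starRingEnd ℂ) (f x)‖ₑ := enorm_integral_le_lintegral_enorm _
      _ = ∫⁻ x, mo h x * mo f x := by
        refine lintegral_congr fun x => ?_
        rw [enorm_mul]
        unfold mo
        congr 1
        rw [← ofReal_norm, ← ofReal_norm, RCLike.norm_conj]
      _ ≤ n2 (mo h) * n2 (mo f) := cs (mo_meas h) (mo_meas f)
  by_cases h0 : n2 (mo f) = 0
  · rw [h0, mul_zero]
    exact zero_le
  · rw [← n2_sq, ← mul_assoc] at key
    exact (ENNReal.mul_le_mul_iff_left h0 hf).1 key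

end Pool.Agent.T2H92.RS
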