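import Pool.Agent.T2H92.RS.Stm
import Pool.Agent.GQ.Semi

set_option autoImplicit false

namespace Pool.Agent.T2H92.RS

open MeasureTheory Filter Topology Set
open scoped ENNReal NNReal

namespace PkgLAP

variable {d : ℕ}

/-- the integrand -/
noncomputable def F (S : ℝ → L1 d →L[ℂ] L1 d) (lam : ℝ) (f : L1 d) (t : ℝ) : L1 d := Real.exp (-lam * t) • S t f

theorem F_contOn {S : ℝ → L1 d →L[ℂ] L1 d} (hS : C0SG S) (lam : ℝ) (f : L1 d) :
    ContinuousOn (F S lam f) (Ici 0) := by
  have h : ContinuousOn (fun t => S t f) (Ici 0) :=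
    GQ.C0Semigroup.continuousOn (⟨S, hS.zero, hS.add, hS.cont⟩ : GQ.C0Semigroup (L1 d)) f
  have h2 : Continuous (fun t : ℝ => Real.exp (-lam * t)) := by fun_prop
  exact h2.continuousOn.smul h

theorem F_bound {S : ℝ → L1 d →L[ℂ] L1 d} {c : ℝ} (hb : ∀ t, 0 ≤ t → ‖S t‖ ≤ Real.exp (c * t)) (lam : ℝ)
    (f : L1 d) (t : ℝ) (ht : 0 ≤ t) : ‖F S lam f t‖ ≤ Real.exp ((c - lam) * t) * ‖f‖ := by
  unfold F
  rw [norm_smul, Real.norm_eq_abs, abs_of_pos (Real.exp_pos _)]
  have h1 : ‖S t f‖ ≤ Real.exp (c * t) * ‖f‖ :=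
    ((S t).le_opNorm f).trans (mul_le_mul_of_nonneg_right (hb t ht) (norm_nonneg _))
  calc Real.exp (-lam * t) * ‖S t f‖ ≤ Real.exp (-lam * t) * (Real.exp (c * t) * ‖f‖) :=
        mul_le_mul_of_nonneg_left h1 (Real.exp_pos _).le
    _ = Real.exp ((c - lam) * t) * ‖f‖ := by
        rw [← mul_assoc, ← Real.exp_add]
        congr 2
        ring

theorem F_int {S : ℝ → L1 d →L[ℂ] L1 d} {c lam : ℝ} (hS : C0SG S)
    (hb : ∀ t, 0 ≤ t → ‖S t‖ ≤ Real.exp (c * t)) (hlam : c < lam) (f : L1 d) :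
    IntegrableOn (F S lam f) (Ioi 0) := by
  have hg : IntegrableOn (fun t : ℝ => Real.exp ((c - lam) * t) * ‖f‖) (Ioi 0) :=
    (integrableOn_exp_mul_Ioi (by linarith) 0).mul_const _
  refine Integrable.mono' hg ?_ ?_
  · exact ((F_contOn hS lam f).mono Ioi_subset_Ici_self).aestronglyMeasurable measurableSet_Ioi
  · exact (ae_restrict_iff' measurableSet_Ioi).2 (Eventually.of_forall fun t ht => F_bound hb lam f t (le_of_lt ht))

/-- the resolvent -/
noncomputable def Rop {S : ℝ → L1 d →L[ℂ] L1 d} {c lam : ℝ} (hS : C0SG S)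
    (hb : ∀ t, 0 ≤ t → ‖S t‖ ≤ Real.exp (c * t)) (hlam : c < lam) : L1 d →L[ℂ] L1 d :=
  LinearMap.mkContinuous
    { toFun := fun f => ∫ t in Ioi (0 : ℝ), F S lam f t
      map_add' := by
        intro f g
        rw [← integral_add (F_int hS hb hlam f) (F_int hS hb hlam g)]
        refine integral_congr_ae (Eventually.of_forall fun t => ?_)
        simp only [F]
        rw [map_add, smul_add]
      map_smul' := by
        intro a f
        rw [RingHom.id_apply, ← integral_smul]
        refine integral_congr_ae (Eventually.of_forall fun t => ?_)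
        simp only [F]
        rw [map_smul, smul_comm] }
    (∫ t in Ioi (0 : ℝ), Real.exp ((c - lam) * t)) (by
      intro f
      show ‖∫ t in Ioi (0 : ℝ), F S lam f t‖ ≤ _
      rw [← integral_mul_const]
      refine norm_integral_le_of_norm_le ((integrableOn_exp_mul_Ioi (by linarith) 0).mul_const _) ?_
      exact (ae_restrict_iff' measurableSet_Ioi).2
        (Eventually.of_forall fun t ht => F_bound hb lam f t (le_of_lt ht)))

theorem Rop_apply {S : ℝ → L1 d →L[ℂ] L1 d} {c lam : ℝ} (hS : C0SG S)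
    (hb : ∀ t, 0 ≤ t → ‖S t‖ ≤ Real.exp (c * t)) (hlam : c < lam) (f : L1 d) :
    Rop hS hb hlam f = ∫ t in Ioi (0 : ℝ), F S lam f t := rfl

theorem S_Rop {S : ℝ → L1 d →L[ℂ] L1 d} {c lam : ℝ} (hS : C0SG S)
    (hb : ∀ t, 0 ≤ t → ‖S t‖ ≤ Real.exp (c * t)) (hlam : c < lam) (f : L1 d) (h : ℝ) (hh : 0 < h) :
    S h (Rop hS hb hlam f) = Real.exp (lam * h) •
      (Rop hS hb hlam f - ∫ t in (0 : ℝ)..h, F S lam f (max t 0)) := by
  rw [Rop_apply, ← ContinuousLinearMap.integral_comp_comm _ (F_int hS hb hlam f)]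
  have h1 : ∫ t in Ioi (0 : ℝ), S h (F S lam f t) = ∫ t in Ioi (0 : ℝ), Real.exp (lam * h) • F S lam f (h + t) := by
    refine setIntegral_congr_fun measurableSet_Ioi fun t ht => ?_
    have ht' : (0 : ℝ) ≤ t := le_of_lt ht
    simp only [F]
    have e1 : S h (Real.exp (-lam * t) • S t f) = Real.exp (-lam * t) • S h (S t f) :=
      (S h).map_smul_of_tower _ _
    have e2 : S (h + t) f = S h (S t f) := by rw [hS.add h t hh.le ht']; rfl
    rw [e1, e2, smul_smul, ← Real.exp_add]
    congr 2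
    ring
  have h2 : ∫ t in Ioi (0 : ℝ), F S lam f (h + t) = ∫ t in Ioi h, F S lam f t := by
    have e := (measurePreserving_add_left (volume : Measure ℝ) h).setIntegral_preimage_emb
      (measurableEmbedding_addLeft h) (F S lam f) (Ioi h)
    rw [preimage_const_add_Ioi, sub_self] at e
    exact e
  have h3 : ∫ t in Ioi (0 : ℝ), F S lam f t = (∫ t in Ioc 0 h, F S lam f t) + ∫ t in Ioi h, F S lam f t := by
    rw [← Ioc_union_Ioi_eq_Ioi hh.le]
    refine setIntegral_union ?_ measurableSet_Ioi ?_ ?_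
    · exact Set.disjoint_left.2 fun x hx hx2 => absurd hx.2 (not_le.2 hx2)
    · exact (F_int hS hb hlam f).mono_set Ioc_subset_Ioi_self
    · exact (F_int hS hb hlam f).mono_set (Ioi_subset_Ioi hh.le)
  have h4 : ∫ t in (0 : ℝ)..h, F S lam f (max t 0) = ∫ t in Ioc 0 h, F S lam f t := by
    rw [intervalIntegral.integral_of_le hh.le]
    refine setIntegral_congr_fun measurableSet_Ioc fun t ht => ?_
    rw [max_eq_left (le_of_lt ht.1)]
  rw [h1, integral_smul, h2, h4, h3, add_sub_cancel_left]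

theorem gen_Rop {S : ℝ → L1 d →L[ℂ] L1 d} {c lam : ℝ} (hS : C0SG S)
    (hb : ∀ t, 0 ≤ t → ‖S t‖ ≤ Real.exp (c * t)) (hlam : c < lam) (f : L1 d) :
    IsGen S (Rop hS hb hlam f) ((lam : ℂ) • Rop hS hb hlam f - f) := by
  set Rf := Rop hS hb hlam f with hRf
  have hcont : Continuous fun t : ℝ => F S lam f (max t 0) := by
    exact (F_contOn hS lam f).comp_continuous (by fun_prop : Continuous fun t : ℝ => max t 0)
      fun t => mem_Ici.2 (le_max_right t 0)
  have hder1 : HasDerivAt (fun h : ℝ => ∫ t in (0 : ℝ)..h, F S lam f (max t 0)) (F S lam f (max 0 0)) 0 :=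
    intervalIntegral.integral_hasDerivAt_right (hcont.intervalIntegrable 0 0)
      (hcont.stronglyMeasurableAtFilter _ _) hcont.continuousAt
  have hF0 : F S lam f (max 0 0) = f := by
    unfold F
    rw [max_self, mul_zero, Real.exp_zero, one_smul, hS.zero]
    rfl
  rw [hF0] at hder1
  have hexp : HasDerivAt (fun h : ℝ => Real.exp (lam * h)) lam 0 := by
    have h1 : HasDerivAt (fun h : ℝ => lam * h) lam 0 := by
      simpa using (hasDerivAt_id (0 : ℝ)).const_mul lam
    have h2 := h1.exp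
    simpa using h2
  have hder := hexp.smul (hder1.const_sub Rf)
  have hval : Real.exp (lam * 0) • (-f) + lam • (Rf - ∫ t in (0 : ℝ)..0, F S lam f (max t 0)) =
      (lam : ℂ) • Rf - f := by
    rw [mul_zero, Real.exp_zero, one_smul, intervalIntegral.integral_same, sub_zero, Complex.coe_smul]
    abel
  rw [hval] at hder
  have hsl := hasDerivAt_iff_tendsto_slope_zero.1 hder
  have hsl2 := hsl.mono_left (nhdsWithin_mono (0 : ℝ) (fun x (hx : x ∈ Ioi (0 : ℝ)) => ne_of_gt hx))
  unfold IsGen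
  refine hsl2.congr' ?_
  filter_upwards [self_mem_nhdsWithin] with t ht
  rw [Complex.coe_smul, hRf, S_Rop hS hb hlam f t ht]
  simp only [Pi.smul_apply', zero_add, mul_zero, Real.exp_zero, one_smul, intervalIntegral.integral_same, sub_zero]
  rfl

end PkgLAP

open PkgLAP in
theorem pLAP : S_LAP := by
  intro d S c lam hS hb hlam
  refine ⟨Rop hS hb hlam, fun f => F_int hS hb hlam f, fun f => Rop_apply hS hb hlam f, ?_, ?_⟩
  · intro g
    exact gen_Rop hS hb hlam g
  · intro f h hfh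
    have hcomm : ∀ s : ℝ, 0 ≤ s → ∀ g, Rop hS hb hlam (S s g) = S s (Rop hS hb hlam g) := by
      intro s hs g
      rw [Rop_apply, Rop_apply, ← ContinuousLinearMap.integral_comp_comm _ (F_int hS hb hlam g)]
      refine setIntegral_congr_fun measurableSet_Ioi fun t ht => ?_
      have ht' : (0 : ℝ) ≤ t := le_of_lt ht
      simp only [F]
      have e1 : S s (Real.exp (-lam * t) • S t g) = Real.exp (-lam * t) • S s (S t g) :=
        (S s).map_smul_of_tower _ _
      have e2 : S (s + t) g = S s (S t g) := by rw [hS.add s t hs ht']; rfl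
      have e3 : S (t + s) g = S t (S s g) := by rw [hS.add t s ht' hs]; rfl
      rw [e1, ← e2, ← e3, add_comm]
    have h1 : Tendsto (fun t : ℝ => Rop hS hb hlam (((t⁻¹ : ℝ) : ℂ) • (S t f - f))) (𝓝[>] 0)
        (𝓝 (Rop hS hb hlam h)) := ((Rop hS hb hlam).continuous.tendsto h).comp hfh
    have h2 : Tendsto (fun t : ℝ => ((t⁻¹ : ℝ) : ℂ) • (S t (Rop hS hb hlam f) - Rop hS hb hlam f)) (𝓝[>] 0)
        (𝓝 (Rop hS hb hlam h)) := by
      refine h1.congr' ?_
      filter_upwards [self_mem_nhdsWithin] with t ht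
      rw [map_smul, map_sub, hcomm t (le_of_lt ht)]
    have h3 := gen_Rop hS hb hlam f
    have h4 := tendsto_nhds_unique h2 h3
    rw [map_sub, map_smul, h4]
    abel

end Pool.Agent.T2H92.RS
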