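import Pool.Agent.T2H92.RS.Stm

set_option autoImplicit false

/-! RS package MK (helper69) -/

namespace Pool.Agent.T2H92.RS

open MeasureTheory Filter Topology Set
open scoped ENNReal NNReal

namespace PkgMK

lemma n2_eq {d : ℕ} (g : X d → ℝ≥0∞) : n2 g = (∫⁻ x, g x ^ (2 : ℝ)) ^ (1 / (2 : ℝ)) := by
  unfold n2
  congr 1
  refine lintegral_congr fun x => ?_
  exact (ENNReal.rpow_natCast (g x) 2).symm

lemma n2_sq {d : ℕ} (g : X d → ℝ≥0∞) : n2 g ^ 2 = ∫⁻ x, g x ^ 2 := by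
  unfold n2
  rw [← ENNReal.rpow_natCast, ← ENNReal.rpow_mul]
  norm_num

lemma cs {d : ℕ} (f g : X d → ℝ≥0∞) (hf : Measurable f) (hg : Measurable g) :
    ∫⁻ x, f x * g x ≤ n2 f * n2 g := by
  rw [n2_eq, n2_eq]
  exact ENNReal.lintegral_mul_le_Lp_mul_Lq volume Real.HolderConjugate.two_two hf.aemeasurable
    hg.aemeasurable

end PkgMK

open PkgMK

theorem pMK : S_MK := by
  intro d F hF
  have hFt : ∀ t, Measurable (F t) := fun t => hF.comp (measurable_const.prodMk measurable_id)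
  have hFx : ∀ x, Measurable fun t => F t x := fun x =>
    hF.comp (measurable_id.prodMk measurable_const)
  -- the square
  have e1 : ∫⁻ x, (∫⁻ t, F t x) ^ 2 = ∫⁻ x, ∫⁻ t, ∫⁻ s, F t x * F s x := by
    refine lintegral_congr fun x => ?_
    rw [sq]
    rw [← lintegral_mul_const _ (hFx x)]
    refine lintegral_congr fun t => ?_
    rw [lintegral_const_mul _ (hFx x)]
  have m1 : Measurable fun p : X d × X d => ∫⁻ s, F p.2 p.1 * F s p.1 := by
    have : Measurable fun q : (X d × X d) × X d => F q.1.2 q.1.1 * F q.2 q.1.1 := by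
      refine Measurable.mul ?_ ?_
      · exact hF.comp ((measurable_snd.comp measurable_fst).prodMk
          (measurable_fst.comp measurable_fst))
      · exact hF.comp (measurable_snd.prodMk (measurable_fst.comp measurable_fst))
    exact this.lintegral_prod_right'
  have e2 : ∫⁻ x, ∫⁻ t, ∫⁻ s, F t x * F s x = ∫⁻ t, ∫⁻ x, ∫⁻ s, F t x * F s x :=
    lintegral_lintegral_swap (f := fun x t => ∫⁻ s, F t x * F s x) m1.aemeasurable
  have e3 : ∀ t, ∫⁻ x, ∫⁻ s, F t x * F s x = ∫⁻ s, ∫⁻ x, F t x * F s x := by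
    intro t
    refine lintegral_lintegral_swap (f := fun x s => F t x * F s x) ?_
    refine Measurable.aemeasurable ?_
    exact ((hFt t).comp measurable_fst).mul (hF.comp (measurable_snd.prodMk measurable_fst))
  have mn : Measurable fun t => n2 (F t) := by
    unfold n2
    exact (Measurable.lintegral_prod_right' (f := fun p : X d × X d => F p.1 p.2 ^ 2)
      (hF.pow_const 2)).pow_const _
  have h4 : ∫⁻ x, (∫⁻ t, F t x) ^ 2 ≤ (∫⁻ t, n2 (F t)) ^ 2 := by
    rw [e1, e2]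
    calc ∫⁻ t, ∫⁻ x, ∫⁻ s, F t x * F s x = ∫⁻ t, ∫⁻ s, ∫⁻ x, F t x * F s x :=
          lintegral_congr fun t => e3 t
      _ ≤ ∫⁻ t, ∫⁻ s, n2 (F t) * n2 (F s) :=
          lintegral_mono fun t => lintegral_mono fun s => cs _ _ (hFt t) (hFt s)
      _ = (∫⁻ t, n2 (F t)) ^ 2 := by
          rw [sq, ← lintegral_mul_const _ mn]
          refine lintegral_congr fun t => ?_
          rw [lintegral_const_mul _ mn]
  have h5 : n2 (fun x => ∫⁻ t, F t x) = (∫⁻ x, (∫⁻ t, F t x) ^ 2) ^ (1 / 2 : ℝ) := rfl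
  rw [h5]
  calc (∫⁻ x, (∫⁻ t, F t x) ^ 2) ^ (1 / 2 : ℝ) ≤ ((∫⁻ t, n2 (F t)) ^ 2) ^ (1 / 2 : ℝ) :=
        ENNReal.rpow_le_rpow h4 (by norm_num)
    _ = ∫⁻ t, n2 (F t) := by
        rw [← ENNReal.rpow_natCast, ← ENNReal.rpow_mul]
        norm_num

end Pool.Agent.T2H92.RS
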