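import Pool.Agent.T2H92.RS.Stm

set_option autoImplicit false

namespace Pool.Agent.T2H92.RS

open MeasureTheory Filter Topology Set
open scoped ENNReal NNReal

namespace PkgMS1

/-- Tonelli for convolutions with measures -/
theorem ton {d : ℕ} (ν : Measure (X d)) [IsFiniteMeasure ν] (h : X d → ℝ≥0∞) (hh : Measurable h) :
    ∫⁻ x, ∫⁻ y, h (x - y) ∂ν = ν univ * ∫⁻ x, h x := by
  have hm : Measurable (Function.uncurry fun (x : X d) (y : X d) => h (x - y)) :=
    hh.comp (measurable_fst.sub measurable_snd)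
  rw [lintegral_lintegral_swap hm.aemeasurable]
  have h1 : ∀ y : X d, ∫⁻ x, h (x - y) = ∫⁻ x, h x := fun y => lintegral_sub_right_eq_self h y
  simp_rw [h1]
  rw [lintegral_const, mul_comm]

theorem fin_meas {d : ℕ} {m : ℝ → Measure (X d)} (hm : ConvSG m) {t : ℝ} (ht : 0 ≤ t) : IsFiniteMeasure (m t) :=
  ⟨lt_of_le_of_lt (hm.mass t ht) ENNReal.one_lt_top⟩

theorem enorm_L1 {d : ℕ} (f : L1 d) : ‖f‖ₑ = ∫⁻ x, ‖f x‖ₑ := by
  rw [Lp.enorm_def, eLpNorm_one_eq_lintegral_enorm]

theorem lint_fin {d : ℕ} (f : L1 d) : ∫⁻ x, ‖f x‖ₑ ≠ ∞ := by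
  rw [← enorm_L1]
  exact enorm_ne_top

/-- functions which agree almost everywhere have the same convolution -/
theorem ae_conv {d : ℕ} (ν : Measure (X d)) [IsFiniteMeasure ν] (f g : X d → ℂ) (hf : StronglyMeasurable f)
    (hg : StronglyMeasurable g) (hfg : f =ᵐ[volume] g) :
    ∀ᵐ x, ∀ᵐ y ∂ν, f (x - y) = g (x - y) := by
  have hmeas : Measurable fun x => ‖f x - g x‖ₑ := (hf.sub hg).enorm
  have h1 := ton ν (fun x => ‖f x - g x‖ₑ) hmeas
  have h2 : ∫⁻ x, ‖f x - g x‖ₑ = 0 := by
    rw [lintegral_eq_zero_iff hmeas]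
    filter_upwards [hfg] with x hx
    rw [hx, sub_self, enorm_zero]
    rfl
  rw [h2, mul_zero] at h1
  have hm2 : Measurable fun x : X d => ∫⁻ y, ‖f (x - y) - g (x - y)‖ₑ ∂ν := by
    have : Measurable (Function.uncurry fun (x : X d) (y : X d) => ‖f (x - y) - g (x - y)‖ₑ) :=
      hmeas.comp (measurable_fst.sub measurable_snd)
    exact this.lintegral_prod_right'
  rw [lintegral_eq_zero_iff hm2] at h1
  filter_upwards [h1] with x hx
  have hm3 : Measurable fun y : X d => ‖f (x - y) - g (x - y)‖ₑ := hmeas.comp (measurable_const.sub measurable_id)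
  have hx2 := (lintegral_eq_zero_iff hm3).1 hx
  filter_upwards [hx2] with y hy
  have : ‖f (x - y) - g (x - y)‖ₑ = 0 := hy
  rw [enorm_eq_zero] at this
  exact sub_eq_zero.1 this

/-- almost all the integrands are integrable -/
theorem ae_int {d : ℕ} (ν : Measure (X d)) [IsFiniteMeasure ν] (f : L1 d) :
    ∀ᵐ x, Integrable (fun y => f (x - y)) ν := by
  have hf := Lp.stronglyMeasurable f
  have hmeas : Measurable fun x => ‖f x‖ₑ := hf.enorm
  have h1 := ton ν (fun x => ‖f x‖ₑ) hmeas
  have hm2 : Measurable fun x : X d => ∫⁻ y, ‖f (x - y)‖ₑ ∂ν := by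
    have : Measurable (Function.uncurry fun (x : X d) (y : X d) => ‖f (x - y)‖ₑ) :=
      hmeas.comp (measurable_fst.sub measurable_snd)
    exact this.lintegral_prod_right'
  have h3 : ∀ᵐ x : X d, ∫⁻ y, ‖f (x - y)‖ₑ ∂ν < ∞ := by
    refine ae_lt_top hm2 ?_
    rw [h1]
    exact ENNReal.mul_ne_top (measure_ne_top ν univ) (lint_fin f)
  filter_upwards [h3] with x hx
  exact ⟨(hf.comp_measurable (measurable_const.sub measurable_id)).aestronglyMeasurable, hx⟩

end PkgMS1

open PkgMS1 in
theorem pMS1 : S_MS1 := by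
  intro d m M hm hM
  refine ⟨?_, ?_, ?_⟩
  · intro t ht
    have := fin_meas hm ht
    refine ContinuousLinearMap.opNorm_le_bound _ zero_le_one fun f => ?_
    rw [one_mul]
    have h1 : ‖M t f‖ₑ ≤ ‖f‖ₑ := by
      rw [enorm_L1, enorm_L1]
      calc ∫⁻ x, ‖M t f x‖ₑ = ∫⁻ x, ‖∫ y, f (x - y) ∂(m t)‖ₑ := by
            refine lintegral_congr_ae ?_
            filter_upwards [hM t ht f] with x hx
            rw [hx]
        _ ≤ ∫⁻ x, ∫⁻ y, ‖f (x - y)‖ₑ ∂(m t) := lintegral_mono fun x => enorm_integral_le_lintegral_enorm _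
        _ = m t univ * ∫⁻ x, ‖f x‖ₑ := ton (m t) (fun x => ‖f x‖ₑ) (Lp.stronglyMeasurable f).enorm
        _ ≤ 1 * ∫⁻ x, ‖f x‖ₑ := by gcongr; exact hm.mass t ht
        _ = ∫⁻ x, ‖f x‖ₑ := one_mul _
    rw [← ofReal_norm, ← ofReal_norm] at h1
    exact (ENNReal.ofReal_le_ofReal_iff (norm_nonneg _)).1 h1
  · ext1 f
    apply Lp.ext
    filter_upwards [hM 0 le_rfl f] with x hx
    rw [hx, hm.zero, integral_dirac, sub_zero]
    rfl
  · intro s t hs ht
    have := fin_meas hm hs
    have := fin_meas hm ht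
    have := fin_meas hm (add_nonneg hs ht)
    ext1 f
    apply Lp.ext
    have hf := Lp.stronglyMeasurable f
    -- the convolution of `f` with `m t`
    set G : X d → ℂ := fun x => ∫ b, f (x - b) ∂(m t) with hG
    have hGm : StronglyMeasurable G := by
      have : StronglyMeasurable (Function.uncurry fun (x : X d) (b : X d) => f (x - b)) :=
        hf.comp_measurable (measurable_fst.sub measurable_snd)
      exact this.integral_prod_right
    have h1 := ae_conv (m s) (M t f) G (Lp.stronglyMeasurable _) hGm (hM t ht f)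
    have h2 := ae_int (m (s + t)) f
    show M (s + t) f =ᵐ[volume] M s (M t f)
    filter_upwards [hM (s + t) (add_nonneg hs ht) f, hM s hs (M t f), h1, h2] with x hx1 hx2 hx3 hx4
    rw [hx1, hx2, integral_congr_ae hx3]
    have hadd : Measurable fun p : X d × X d => p.1 + p.2 := measurable_fst.add measurable_snd
    rw [← hm.conv s t hs ht] at hx4 ⊢
    have hsm : AEStronglyMeasurable (fun y => f (x - y)) (((m s).prod (m t)).map fun p => p.1 + p.2) := hx4.1
    rw [integral_map hadd.aemeasurable hsm]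
    have hint : Integrable (fun p : X d × X d => f (x - (p.1 + p.2))) ((m s).prod (m t)) :=
      (integrable_map_measure hsm hadd.aemeasurable).1 hx4
    rw [integral_prod _ hint]
    refine integral_congr_ae (Eventually.of_forall fun a => ?_)
    simp only [hG]
    refine integral_congr_ae (Eventually.of_forall fun b => ?_)
    simp only
    rw [sub_add_eq_sub_sub]

end Pool.Agent.T2H92.RS
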