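import Pool.Agent.T2H92.RS.Stm

set_option autoImplicit false

namespace Pool.Agent.T2H92.RS

open MeasureTheory Filter Topology Set
open scoped ENNReal NNReal

theorem pMS2 : S_MS2 := by
  intro d m hm r hr
  set φ : X d → ℝ := fun x => max 0 (1 - ‖x‖ / (r / 2)) with hφ
  have hc : Continuous φ := by fun_prop
  have hs : HasCompactSupport φ := by
    refine HasCompactSupport.of_support_subset_isCompact (isCompact_closedBall (0 : X d) (r / 2)) ?_
    intro x hx
    rw [mem_closedBall_zero_iff]
    by_contra h
    push Not at h
    apply hx
    simp only [hφ]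
    rw [max_eq_left]
    have : 1 < ‖x‖ / (r / 2) := by
      rw [lt_div_iff₀ (by positivity)]
      linarith
    linarith
  have h0 : φ 0 = 1 := by
    simp only [hφ, norm_zero, zero_div, sub_zero]
    exact max_eq_right zero_le_one
  have hv := hm.vague φ hc hs
  rw [h0] at hv
  have hlow : Tendsto (fun t => ENNReal.ofReal (∫ x, φ x ∂(m t))) (𝓝[>] 0) (𝓝 1) := by
    have := (ENNReal.continuous_ofReal.tendsto 1).comp hv
    rwa [ENNReal.ofReal_one] at this
  refine tendsto_of_tendsto_of_tendsto_of_le_of_le' hlow tendsto_const_nhds ?_ ?_
  · filter_upwards [self_mem_nhdsWithin] with t ht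
    have : IsFiniteMeasure (m t) := ⟨lt_of_le_of_lt (hm.mass t (le_of_lt ht)) ENNReal.one_lt_top⟩
    have hnn : ∀ x, 0 ≤ φ x := fun x => le_max_left _ _
    rw [ofReal_integral_eq_lintegral_ofReal (hc.integrable_of_hasCompactSupport hs)
      (Eventually.of_forall hnn)]
    calc ∫⁻ x, ENNReal.ofReal (φ x) ∂(m t) ≤ ∫⁻ x, (Metric.ball (0 : X d) r).indicator (fun _ => 1) x ∂(m t) := by
          refine lintegral_mono fun x => ?_
          by_cases hx : x ∈ Metric.ball (0 : X d) r
          · rw [indicator_of_mem hx, ← ENNReal.ofReal_one]
            refine ENNReal.ofReal_le_ofReal (max_le zero_le_one ?_)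
            have : 0 ≤ ‖x‖ / (r / 2) := by positivity
            linarith
          · rw [indicator_of_notMem hx]
            rw [mem_ball_zero_iff, not_lt] at hx
            have h1 : φ x = 0 := by
              simp only [hφ]
              rw [max_eq_left]
              have : 1 ≤ ‖x‖ / (r / 2) := by
                rw [le_div_iff₀ (by positivity)]
                linarith
              linarith
            rw [h1, ENNReal.ofReal_zero]
      _ = m t (Metric.ball 0 r) := by
          rw [lintegral_indicator_const Metric.isOpen_ball.measurableSet, one_mul]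
  · filter_upwards [self_mem_nhdsWithin] with t ht
    exact (measure_mono (subset_univ _)).trans (hm.mass t (le_of_lt ht))

end Pool.Agent.T2H92.RS
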