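import Pool.Agent.T2H92.RS.Stm
import Pool.Agent.T2H92.RS.MS1

/-! # RS: package MS3 -/

set_option autoImplicit false

namespace Pool.Agent.T2H92.RS

open MeasureTheory Filter Topology Set
open scoped ENNReal NNReal

namespace PkgMS3

variable {d : ℕ}

local instance : Fact ((1 : ℝ≥0∞) ≠ ∞) := ⟨ENNReal.one_ne_top⟩

/-- translation -/
noncomputable def tr (f : L1 d) (y : X d) : L1 d := DomAddAct.mk (-y) +ᵥ f

lemma tr_ae (f : L1 d) (y : X d) : tr f y =ᵐ[volume] fun x => f (x - y) := by
  have h := DomAddAct.vadd_Lp_ae_eq (DomAddAct.mk (-y)) f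
  filter_upwards [h] with x hx
  rw [tr, hx]
  congr 1
  change -y + x = x - y
  abel

lemma tr_cont (f : L1 d) : Continuous (tr f) := by
  have h1 : Continuous fun y : X d => DomAddAct.mk (-y) :=
    DomAddAct.continuous_mk.comp continuous_neg
  exact h1.vadd continuous_const

lemma tr_zero (f : L1 d) : tr f 0 = f := by
  apply Lp.ext
  filter_upwards [tr_ae f 0] with x hx
  rw [hx, sub_zero]

lemma tr_norm (f : L1 d) (y : X d) : ‖tr f y‖ = ‖f‖ := DomAddAct.norm_vadd_Lp _ _

/-- the main estimate -/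
lemma key {m : ℝ → Measure (X d)} {M : ℝ → L1 d →L[ℂ] L1 d} (hm : ConvSG m) (hM : IsConvOp m M)
    {t : ℝ} (ht : 0 ≤ t) (f : L1 d) :
    ‖M t f - f‖ₑ ≤ (∫⁻ y, ‖tr f y - f‖ₑ ∂(m t)) +
      ENNReal.ofReal (1 - (m t).real univ) * ‖f‖ₑ := by
  have hfin : IsFiniteMeasure (m t) := PkgMS1.fin_meas hm ht
  have hf := Lp.stronglyMeasurable f
  have hu1 : (m t).real univ ≤ 1 := by
    have := ENNReal.toReal_mono ENNReal.one_ne_top (hm.mass t ht)
    simpa [Measure.real] using this
  have hjm : Measurable (Function.uncurry fun (x : X d) (y : X d) => ‖f (x - y) - f x‖ₑ) := by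
    have h1 : StronglyMeasurable fun p : X d × X d => f (p.1 - p.2) :=
      hf.comp_measurable (measurable_fst.sub measurable_snd)
    have h2 : StronglyMeasurable fun p : X d × X d => f p.1 := hf.comp_measurable measurable_fst
    exact (h1.sub h2).enorm
  have e1 : ‖M t f - f‖ₑ = ∫⁻ x, ‖(M t f - f : L1 d) x‖ₑ := PkgMS1.enorm_L1 _
  have e2 : ∀ y, ‖tr f y - f‖ₑ = ∫⁻ x, ‖f (x - y) - f x‖ₑ := by
    intro y
    rw [PkgMS1.enorm_L1]
    apply lintegral_congr_ae
    filter_upwards [tr_ae f y, Lp.coeFn_sub (tr f y) f] with x h1 h2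
    rw [h2, Pi.sub_apply, h1]
  have e3 : ∫⁻ y, ‖tr f y - f‖ₑ ∂(m t) = ∫⁻ x, ∫⁻ y, ‖f (x - y) - f x‖ₑ ∂(m t) := by
    simp only [e2]
    exact (lintegral_lintegral_swap hjm.aemeasurable).symm
  rw [e1, e3, PkgMS1.enorm_L1 f, ← lintegral_const_mul _ hf.enorm, ← lintegral_add_right]
  · apply lintegral_mono_ae
    filter_upwards [hM t ht f, Lp.coeFn_sub (M t f) f, PkgMS1.ae_int (m t) f] with x h1 h2 h3
    rw [h2, Pi.sub_apply, h1]
    have e4 : ∫ y, f (x - y) ∂(m t) - f x =
        ∫ y, (f (x - y) - f x) ∂(m t) + ((((m t).real univ - 1 : ℝ)) : ℂ) * f x := by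
      rw [integral_sub h3 (integrable_const _), integral_const, Complex.real_smul]
      push_cast
      ring
    rw [e4]
    refine (enorm_add_le _ _).trans (add_le_add (enorm_integral_le_lintegral_enorm _) ?_)
    rw [enorm_mul]
    apply mul_le_mul_left
    rw [← ofReal_norm, Complex.norm_real, Real.norm_eq_abs, abs_sub_comm,
      abs_of_nonneg (by linarith)]
  · exact (hf.enorm).const_mul _

end PkgMS3

open PkgMS3 in
theorem pMS3 (hMS2 : S_MS2) : S_MS3 := by
  intro d m M hm hM _ f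
  rw [Metric.tendsto_nhds]
  intro ε hε
  -- the radius
  have hcont : Tendsto (fun y => ‖tr f y - f‖) (𝓝 0) (𝓝 0) := by
    have h1 : Continuous fun y => ‖tr f y - f‖ := ((tr_cont f).sub continuous_const).norm
    have h2 := h1.tendsto 0
    rwa [tr_zero, sub_self, norm_zero] at h2
  have hev : ∀ᶠ y in 𝓝 (0 : X d), ‖tr f y - f‖ < ε / 2 := hcont.eventually (gt_mem_nhds (half_pos hε))
  rw [Metric.eventually_nhds_iff_ball] at hev
  obtain ⟨r, hr, hr1⟩ := hev
  have hlim := hMS2 d m hm r hr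
  have hlim2 : Tendsto (fun t => (m t).real (Metric.ball 0 r)) (𝓝[>] 0) (𝓝 1) := by
    have := (ENNReal.tendsto_toReal ENNReal.one_ne_top).comp hlim
    rw [ENNReal.toReal_one] at this
    exact this
  have hlim3 : Tendsto (fun t => ε / 2 + 3 * ‖f‖ * (1 - (m t).real (Metric.ball 0 r))) (𝓝[>] 0)
      (𝓝 (ε / 2)) := by
    have h1 := ((hlim2.const_sub 1).const_mul (3 * ‖f‖)).const_add (ε / 2)
    simpa using h1
  filter_upwards [hlim3.eventually (gt_mem_nhds (by linarith : ε / 2 < ε)), self_mem_nhdsWithin]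
    with t ht1 ht0
  have ht : (0 : ℝ) ≤ t := le_of_lt ht0
  have hfin : IsFiniteMeasure (m t) := PkgMS1.fin_meas hm ht
  have hu1 : (m t).real univ ≤ 1 := by
    have := ENNReal.toReal_mono ENNReal.one_ne_top (hm.mass t ht)
    simpa [Measure.real] using this
  refine lt_of_le_of_lt ?_ ht1
  rw [dist_eq_norm]
  set B : Set (X d) := Metric.ball 0 r with hB
  have hBm : MeasurableSet B := measurableSet_ball
  have hk := key hm hM ht f
  have hcompl : (m t).real Bᶜ ≤ 1 - (m t).real B := by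
    have := measureReal_add_measureReal_compl (μ := m t) hBm
    linarith
  have hbu : (m t).real B ≤ (m t).real univ := measureReal_mono (subset_univ B)
  have hI : ∫⁻ y, ‖tr f y - f‖ₑ ∂(m t) ≤
      ENNReal.ofReal (ε / 2 + 2 * ‖f‖ * (1 - (m t).real B)) := by
    rw [← lintegral_add_compl _ hBm, ENNReal.ofReal_add (by positivity)
      (mul_nonneg (by positivity) (by linarith))]
    refine add_le_add ?_ ?_
    · calc ∫⁻ y in B, ‖tr f y - f‖ₑ ∂(m t) ≤ ∫⁻ _y in B, ENNReal.ofReal (ε / 2) ∂(m t) := by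
            apply setLIntegral_mono' hBm
            intro y hy
            rw [← ofReal_norm]
            exact ENNReal.ofReal_le_ofReal (hr1 y hy).le
        _ = ENNReal.ofReal (ε / 2) * m t B := by rw [setLIntegral_const]
        _ ≤ ENNReal.ofReal (ε / 2) * 1 := by
            apply mul_le_mul_right
            exact (measure_mono (subset_univ B)).trans (hm.mass t ht)
        _ = ENNReal.ofReal (ε / 2) := mul_one _
    · calc ∫⁻ y in Bᶜ, ‖tr f y - f‖ₑ ∂(m t) ≤
            ∫⁻ _y in Bᶜ, ENNReal.ofReal (2 * ‖f‖) ∂(m t) := by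
            apply setLIntegral_mono' hBm.compl
            intro y _
            rw [← ofReal_norm]
            apply ENNReal.ofReal_le_ofReal
            have h1 := norm_sub_le (tr f y) f
            rw [tr_norm] at h1
            linarith
        _ = ENNReal.ofReal (2 * ‖f‖) * m t Bᶜ := by rw [setLIntegral_const]
        _ = ENNReal.ofReal (2 * ‖f‖) * ENNReal.ofReal ((m t).real Bᶜ) := by
            rw [ofReal_measureReal]
        _ ≤ ENNReal.ofReal (2 * ‖f‖ * (1 - (m t).real B)) := by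
            rw [← ENNReal.ofReal_mul (by positivity)]
            exact ENNReal.ofReal_le_ofReal (mul_le_mul_of_nonneg_left hcompl (by positivity))
  have hJ : ENNReal.ofReal (1 - (m t).real univ) * ‖f‖ₑ ≤
      ENNReal.ofReal (‖f‖ * (1 - (m t).real B)) := by
    rw [← ofReal_norm, ← ENNReal.ofReal_mul (by linarith)]
    apply ENNReal.ofReal_le_ofReal
    rw [mul_comm]
    exact mul_le_mul_of_nonneg_left (by linarith) (norm_nonneg _)
  have hK : ‖M t f - f‖ₑ ≤ ENNReal.ofReal (ε / 2 + 3 * ‖f‖ * (1 - (m t).real B)) := by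
    refine (hk.trans (add_le_add hI hJ)).trans ?_
    have h0 : 0 ≤ 1 - (m t).real B := by linarith
    rw [← ENNReal.ofReal_add (by positivity) (by positivity)]
    apply ENNReal.ofReal_le_ofReal
    linarith
  have h0 : 0 ≤ 1 - (m t).real B := by linarith
  have h5 := ENNReal.toReal_mono ENNReal.ofReal_ne_top hK
  rwa [toReal_enorm, ENNReal.toReal_ofReal (by positivity)] at h5

end Pool.Agent.T2H92.RS
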