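import Pool.Agent.T2H92.RS.Stm

/-!
# RS: commutators of convolutions with slowly varying weights are small in the amalgam norm
-/

set_option autoImplicit false

namespace Pool.Agent.T2H92.RS

open MeasureTheory Filter Topology Set
open scoped ENNReal NNReal

namespace PkgCOM2

theorem wt_meas {d : ℕ} (N : ℝ) : Measurable fun p : X d × X d => wt N p.1 p.2 := by
  unfold wt wr
  apply ENNReal.measurable_ofReal.comp
  apply Continuous.measurable
  fun_prop

theorem wr_meas {d : ℕ} (N : ℝ) (s : X d) : Measurable fun x : X d => wr N s x := by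
  unfold wr
  apply Continuous.measurable
  fun_prop

/-- the local norm -/
noncomputable def A {d : ℕ} (N : ℝ) (v : X d → ℝ≥0∞) (s : X d) : ℝ≥0∞ := n2 (fun x => wt N s x * v x)

theorem A_meas {d : ℕ} (N : ℝ) {v : X d → ℝ≥0∞} (hv : Measurable v) : Measurable (A N v) := by
  unfold A n2
  exact (Measurable.lintegral_prod_right' (f := fun p : X d × X d => (wt N p.1 p.2 * v p.2) ^ 2)
    (((wt_meas N).mul (hv.comp measurable_snd)).pow_const 2)).pow_const _

theorem wtv_meas {d : ℕ} (N : ℝ) {v : X d → ℝ≥0∞} (hv : Measurable v) (s : X d) :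
    Measurable fun x => wt N s x * v x := by
  have := wr_meas (d := d) N s
  unfold wt
  exact (ENNReal.measurable_ofReal.comp this).mul hv

theorem n2_mono {d : ℕ} {f g : X d → ℝ≥0∞} (h : ∀ x, f x ≤ g x) : n2 f ≤ n2 g := by
  unfold n2
  refine ENNReal.rpow_le_rpow (lintegral_mono fun x => ?_) (by norm_num)
  exact pow_le_pow_left' (h x) 2

theorem n2_smul {d : ℕ} (a : ℝ≥0∞) {f : X d → ℝ≥0∞} (hf : Measurable f) :
    n2 (fun x => a * f x) = a * n2 f := by
  unfold n2
  simp_rw [mul_pow]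
  rw [lintegral_const_mul _ (hf.pow_const 2), ENNReal.mul_rpow_of_nonneg _ _ (by norm_num)]
  congr 1
  rw [← ENNReal.rpow_natCast, ← ENNReal.rpow_mul]
  norm_num

theorem n2_add {d : ℕ} {f g : X d → ℝ≥0∞} (hf : Measurable f) (hg : Measurable g) :
    n2 (fun x => f x + g x) ≤ n2 f + n2 g := by
  have h := ENNReal.lintegral_Lp_add_le (μ := (volume : Measure (X d))) (p := 2) hf.aemeasurable
    hg.aemeasurable (by norm_num)
  unfold n2
  have e : ∀ k : X d → ℝ≥0∞, ∫⁻ x, k x ^ 2 = ∫⁻ x, k x ^ (2 : ℝ) := by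
    intro k
    refine lintegral_congr fun x => ?_
    rw [← ENNReal.rpow_natCast]
    norm_num
  rw [e, e, e]
  exact h

/-- translation -/
theorem n2_trans {d : ℕ} (f : X d → ℝ≥0∞) (t : X d) : n2 (fun x => f (x + t)) = n2 f := by
  unfold n2
  rw [lintegral_add_right_eq_self (fun x => f x ^ 2) t]

theorem wr_pos {d : ℕ} (N : ℝ) (s x : X d) : 0 < wr N s x := Real.exp_pos _

theorem wr_shift {d : ℕ} (N : ℝ) (s x t : X d) : wr N s (x + t) = wr N (s - t) x := by
  unfold wr
  congr 4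
  abel

theorem wr_up {d : ℕ} {N : ℝ} (hN : 0 < N) (s x t : X d) :
    wr N s (x + t) ≤ Real.exp (‖t‖ / N) * wr N s x := by
  unfold wr
  rw [← Real.exp_add, Real.exp_le_exp]
  have h1 : ‖x - s‖ ≤ ‖x + t - s‖ + ‖t‖ := by
    have : x - s = (x + t - s) - t := by abel
    rw [this]
    exact norm_sub_le _ _
  have h2 : ‖x - s‖ / N ≤ (‖x + t - s‖ + ‖t‖) / N := div_le_div_of_nonneg_right h1 hN.le
  rw [add_div] at h2
  linarith

theorem wr_down {d : ℕ} {N : ℝ} (hN : 0 < N) (s x t : X d) :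
    Real.exp (-(‖t‖ / N)) * wr N s x ≤ wr N s (x + t) := by
  unfold wr
  rw [← Real.exp_add, Real.exp_le_exp]
  have h1 : ‖x + t - s‖ ≤ ‖x - s‖ + ‖t‖ := by
    have : x + t - s = (x - s) + t := by abel
    rw [this]
    exact norm_add_le _ _
  have h2 : ‖x + t - s‖ / N ≤ (‖x - s‖ + ‖t‖) / N := div_le_div_of_nonneg_right h1 hN.le
  rw [add_div] at h2
  linarith

theorem diff_one {d : ℕ} {N : ℝ} (hN : 0 < N) (s x t : X d) :
    |wr N s x - wr N s (x + t)| ≤ (Real.exp (‖t‖ / N) - 1) * wr N s x := by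
  have h1 := wr_up hN s x t
  have h2 := wr_down hN s x t
  have h3 := wr_pos N s x
  have h4 : 1 - Real.exp (-(‖t‖ / N)) ≤ Real.exp (‖t‖ / N) - 1 := by
    have h5 := Real.add_one_le_exp (‖t‖ / N)
    have h6 := Real.add_one_le_exp (-(‖t‖ / N))
    linarith
  have h5 := mul_le_mul_of_nonneg_right h4 h3.le
  rw [abs_le]
  constructor <;> nlinarith

theorem diff_two {d : ℕ} {N : ℝ} (s x t : X d) :
    |wr N s x - wr N s (x + t)| ≤ wr N s x + wr N (s - t) x := by
  have h1 := wr_pos N s x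
  have h2 := wr_pos N s (x + t)
  rw [← wr_shift]
  rw [abs_le]
  constructor <;> linarith

/-- the factor -/
noncomputable def cf {d : ℕ} (N : ℝ) (t : X d) : ℝ≥0∞ :=
  if ‖t‖ ≤ N then ENNReal.ofReal (Real.exp (‖t‖ / N) - 1) else 2

theorem cf_meas {d : ℕ} (N : ℝ) : Measurable (cf (d := d) N) := by
  unfold cf
  refine Measurable.ite ?_ ?_ measurable_const
  · exact (isClosed_le continuous_norm continuous_const).measurableSet
  · apply ENNReal.measurable_ofReal.comp
    apply Continuous.measurable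
    fun_prop

theorem cf_le {d : ℕ} {N : ℝ} (hN : 0 < N) (t : X d) : cf N t ≤ 2 := by
  unfold cf
  split_ifs with h
  · have h1 : ‖t‖ / N ≤ 1 := (div_le_one hN).2 h
    have h2 : Real.exp (‖t‖ / N) ≤ Real.exp 1 := Real.exp_le_exp.2 h1
    have h3 := Real.exp_one_lt_d9
    calc ENNReal.ofReal (Real.exp (‖t‖ / N) - 1) ≤ ENNReal.ofReal 2 :=
          ENNReal.ofReal_le_ofReal (by linarith)
      _ = 2 := by norm_num
  · exact le_rfl

theorem cf_lim {d : ℕ} (t : X d) :
    Tendsto (fun n : ℕ => cf ((n : ℝ) + 1) t) atTop (𝓝 0) := by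
  have h1 : ∀ᶠ n : ℕ in atTop, cf ((n : ℝ) + 1) t =
      ENNReal.ofReal (Real.exp (‖t‖ / ((n : ℝ) + 1)) - 1) := by
    filter_upwards [eventually_ge_atTop ⌈‖t‖⌉₊] with n hn
    have h2 : ‖t‖ ≤ (n : ℝ) + 1 := by
      have := Nat.le_ceil ‖t‖
      have h3 : ((⌈‖t‖⌉₊ : ℕ) : ℝ) ≤ n := by exact_mod_cast hn
      linarith
    unfold cf
    rw [if_pos h2]
  refine Tendsto.congr' (h1.mono fun _ h => h.symm) ?_
  have h2 : Tendsto (fun n : ℕ => ‖t‖ / ((n : ℝ) + 1)) atTop (𝓝 0) :=
    Tendsto.div_atTop tendsto_const_nhds (tendsto_natCast_atTop_atTop.atTop_add tendsto_const_nhds)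
  have h3 : Tendsto (fun n : ℕ => Real.exp (‖t‖ / ((n : ℝ) + 1)) - 1) atTop (𝓝 (Real.exp 0 - 1)) :=
    ((Real.continuous_exp.tendsto 0).comp h2).sub tendsto_const_nhds
  have h4 := ENNReal.tendsto_ofReal h3
  simpa using h4

/-- the slices -/
noncomputable def Fs {d : ℕ} (E : X d → ℝ≥0∞) (N : ℝ) (v : X d → ℝ≥0∞) (s t x : X d) : ℝ≥0∞ :=
  E t * (ENNReal.ofReal |wr N s (x - t) - wr N s x| * v (x - t))

theorem Fs_meas {d : ℕ} {E : X d → ℝ≥0∞} (hE : Measurable E) (N : ℝ) {v : X d → ℝ≥0∞}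
    (hv : Measurable v) (s : X d) : Measurable (Function.uncurry (Fs E N v s)) := by
  have h1 : Continuous fun p : X d × X d => |wr N s (p.2 - p.1) - wr N s p.2| := by
    unfold wr
    fun_prop
  exact (hE.comp measurable_fst).mul ((ENNReal.measurable_ofReal.comp h1.measurable).mul
    (hv.comp (measurable_snd.sub measurable_fst)))

theorem Fs_shift {d : ℕ} (E : X d → ℝ≥0∞) (N : ℝ) (v : X d → ℝ≥0∞) (s t : X d) :
    n2 (Fs E N v s t) =
      n2 (fun x => E t * (ENNReal.ofReal |wr N s x - wr N s (x + t)| * v x)) := by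
  rw [← n2_trans (Fs E N v s t) t]
  congr 1
  funext x
  unfold Fs
  rw [add_sub_cancel_right]

/-- the majorant -/
noncomputable def G {d : ℕ} (E : X d → ℝ≥0∞) (N : ℝ) (v : X d → ℝ≥0∞) (s t : X d) : ℝ≥0∞ :=
  E t * (if ‖t‖ ≤ N then ENNReal.ofReal (Real.exp (‖t‖ / N) - 1) * A N v s
    else A N v s + A N v (s - t))

theorem G_meas {d : ℕ} {E : X d → ℝ≥0∞} (hE : Measurable E) (N : ℝ) {v : X d → ℝ≥0∞}
    (hv : Measurable v) : Measurable (fun p : X d × X d => G E N v p.1 p.2) := by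
  have hA := A_meas N hv
  unfold G
  refine (hE.comp measurable_snd).mul (Measurable.ite ?_ ?_ ?_)
  · exact (isClosed_le (continuous_norm.comp continuous_snd) continuous_const).measurableSet
  · refine Measurable.mul ?_ (hA.comp measurable_fst)
    apply ENNReal.measurable_ofReal.comp
    apply Continuous.measurable
    fun_prop
  · exact (hA.comp measurable_fst).add (hA.comp (measurable_fst.sub measurable_snd))

theorem Fs_le {d : ℕ} {E : X d → ℝ≥0∞} {N : ℝ} (hN : 0 < N) {v : X d → ℝ≥0∞}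
    (hv : Measurable v) (s t : X d) : n2 (Fs E N v s t) ≤ G E N v s t := by
  rw [Fs_shift]
  have hm1 : Measurable fun x => ENNReal.ofReal |wr N s x - wr N s (x + t)| * v x := by
    have h1 : Continuous fun x : X d => |wr N s x - wr N s (x + t)| := by
      unfold wr
      fun_prop
    exact (ENNReal.measurable_ofReal.comp h1.measurable).mul hv
  rw [n2_smul _ hm1]
  unfold G
  refine mul_le_mul_right ?_ (E t)
  split_ifs with h
  · unfold A
    rw [← n2_smul _ (wtv_meas N hv s)]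
    refine n2_mono fun x => ?_
    rw [← mul_assoc]
    refine mul_le_mul_left ?_ (v x)
    unfold wt
    rw [← ENNReal.ofReal_mul (by
      have := Real.one_le_exp (x := ‖t‖ / N) (by positivity)
      linarith)]
    exact ENNReal.ofReal_le_ofReal (diff_one hN s x t)
  · unfold A
    refine le_trans (n2_mono fun x => ?_) (n2_add (wtv_meas N hv s) (wtv_meas N hv (s - t)))
    rw [← add_mul]
    refine mul_le_mul_left ?_ (v x)
    unfold wt
    rw [← ENNReal.ofReal_add (wr_pos N s x).le (wr_pos N (s - t) x).le]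
    exact ENNReal.ofReal_le_ofReal (diff_two s x t)

theorem main {d : ℕ} (hMK : S_MK) {E : X d → ℝ≥0∞} (hE : Measurable E) {N : ℝ} (hN : 0 < N)
    {v : X d → ℝ≥0∞} (hv : Measurable v) :
    ∫⁻ s, n2 (fun x => ∫⁻ y, E (x - y) * (ENNReal.ofReal |wr N s y - wr N s x| * v y)) ≤
      (∫⁻ t, E t * cf N t) * am N v := by
  have hA := A_meas N hv
  have h1 : ∀ s : X d, n2 (fun x => ∫⁻ y, E (x - y) * (ENNReal.ofReal |wr N s y - wr N s x| * v y)) ≤
      ∫⁻ t, G E N v s t := by
    intro s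
    have h2 : (fun x => ∫⁻ y, E (x - y) * (ENNReal.ofReal |wr N s y - wr N s x| * v y)) =
        fun x => ∫⁻ t, Fs E N v s t x := by
      funext x
      rw [← lintegral_sub_left_eq_self (fun t => Fs E N v s t x) x]
      refine lintegral_congr fun y => ?_
      unfold Fs
      rw [sub_sub_cancel]
    rw [h2]
    exact (hMK d (Fs E N v s) (Fs_meas hE N hv s)).trans (lintegral_mono fun t => Fs_le hN hv s t)
  refine (lintegral_mono h1).trans ?_
  have hc : ∫⁻ t, E t * cf N t * am N v = (∫⁻ t, E t * cf N t) * am N v :=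
    lintegral_mul_const (am N v) (hE.mul (cf_meas N))
  rw [lintegral_lintegral_swap (G_meas hE N hv).aemeasurable, ← hc]
  refine lintegral_mono fun t => ?_
  have hGt : Measurable fun s => (if ‖t‖ ≤ N then ENNReal.ofReal (Real.exp (‖t‖ / N) - 1) * A N v s
      else A N v s + A N v (s - t)) := by
    split_ifs
    · exact measurable_const.mul hA
    · exact hA.add (hA.comp (measurable_id.sub measurable_const))
  unfold G
  rw [lintegral_const_mul _ hGt, mul_assoc]
  refine mul_le_mul_right ?_ (E t)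
  have ham : am N v = ∫⁻ s, A N v s := rfl
  unfold cf
  split_ifs with h
  · rw [lintegral_const_mul _ hA, ham]
  · rw [lintegral_add_left hA, lintegral_sub_right_eq_self (fun s => A N v s) t, ham, two_mul]

end PkgCOM2

theorem pCOM2 (hMK : S_MK) : S_COM2 := by
  intro d E hE hEi ε hε
  have h0 : ∀ᵐ t, E t < ∞ := ae_lt_top hE hEi
  have h1 : Tendsto (fun n : ℕ => ∫⁻ t, E t * PkgCOM2.cf ((n : ℝ) + 1) t) atTop
      (𝓝 (∫⁻ _ : X d, 0)) := by
    refine tendsto_lintegral_of_dominated_convergence (fun t => E t * 2)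
      (fun n => hE.mul (PkgCOM2.cf_meas _)) (fun n => ?_) ?_ ?_
    · exact ae_of_all _ fun t => mul_le_mul_right (PkgCOM2.cf_le (by positivity) t) (E t)
    · rw [lintegral_mul_const _ hE]
      exact ENNReal.mul_ne_top hEi (by norm_num)
    · filter_upwards [h0] with t ht
      have h2 := ENNReal.Tendsto.const_mul (PkgCOM2.cf_lim t) (Or.inr ht.ne)
      simpa using h2
  rw [lintegral_zero] at h1
  obtain ⟨n, hn⟩ := ((tendsto_order.1 h1).2 ε (pos_iff_ne_zero.2 hε)).exists
  refine ⟨(n : ℝ) + 1, by positivity, fun v hv => ?_⟩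
  exact (PkgCOM2.main hMK hE (by positivity) hv).trans (mul_le_mul_left hn.le _)

end Pool.Agent.T2H92.RS
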