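import Pool.Agent.T2H92.RS.Stm

set_option autoImplicit false

namespace Pool.Agent.T2H92.RS

open MeasureTheory Filter Topology Set
open scoped ENNReal NNReal

namespace PkgREG

lemma mo_meas {d : ℕ} (f : L1 d) : Measurable (mo f) :=
  (Lp.stronglyMeasurable f).measurable.enorm

lemma lint_mo {d : ℕ} (f : L1 d) : ∫⁻ x, mo f x = ‖f‖ₑ := by
  rw [Lp.enorm_def, eLpNorm_one_eq_lintegral_enorm]
  rfl

/-- `G_0 = 0`, `G_(n+1) = g + k * G_n` -/
noncomputable def G {d : ℕ} (g k : X d → ℝ≥0∞) : ℕ → X d → ℝ≥0∞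
  | 0 => fun _ => 0
  | n + 1 => fun x => g x + cv k (G g k n) x

/-- `r_0 = v`, `r_(n+1) = k * r_n` -/
noncomputable def rr {d : ℕ} (v k : X d → ℝ≥0∞) : ℕ → X d → ℝ≥0∞
  | 0 => v
  | n + 1 => cv k (rr v k n)

lemma G_meas {d : ℕ} (B : Bas d) {g k : X d → ℝ≥0∞} (hg : Measurable g) (hk : Measurable k) :
    ∀ n, Measurable (G g k n)
  | 0 => measurable_const
  | n + 1 => hg.add (B.cv_meas _ _ hk (G_meas B hg hk n))

lemma rr_meas {d : ℕ} (B : Bas d) {v k : X d → ℝ≥0∞} (hv : Measurable v) (hk : Measurable k) :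
    ∀ n, Measurable (rr v k n)
  | 0 => hv
  | n + 1 => B.cv_meas _ _ hk (rr_meas B hv hk n)

lemma G_mono {d : ℕ} (B : Bas d) {g k : X d → ℝ≥0∞} :
    ∀ n x, G g k n x ≤ G g k (n + 1) x
  | 0, x => by simp [G]
  | n + 1, x => by
    show g x + cv k (G g k n) x ≤ g x + cv k (G g k (n + 1)) x
    gcongr
    exact B.cv_mono _ _ _ _ (ae_of_all _ fun _ => le_rfl) (ae_of_all _ fun y => G_mono B n y) x

lemma G_am {d : ℕ} (B : Bas d) (hAMC : S_AMC) {g k : X d → ℝ≥0∞} (hg : Measurable g)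
    (hk : Measurable k) (hk1 : ∫⁻ x, k x ≤ 2⁻¹) (N : ℝ) :
    ∀ n, am N (G g k n) ≤ 2 * am N g
  | 0 => by
    have : am N (G g k 0) = 0 := by
      have h := B.am_smul N 0 (fun _ => 0) measurable_const
      simpa [G] using h
    rw [this]; simp
  | n + 1 => by
    have h1 : am N (G g k (n + 1)) ≤ am N g + am N (cv k (G g k n)) :=
      B.am_add N g (cv k (G g k n)) hg (B.cv_meas _ _ hk (G_meas B hg hk n))
    have h2 := hAMC d N k (G g k n) hk (G_meas B hg hk n)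
    have ih := G_am B hAMC hg hk hk1 N n
    calc am N (G g k (n + 1)) ≤ am N g + am N (cv k (G g k n)) := h1
      _ ≤ am N g + 2⁻¹ * (2 * am N g) := by
        gcongr
        exact h2.trans (mul_le_mul' hk1 ih)
      _ = 2 * am N g := by
        rw [← mul_assoc, ENNReal.inv_mul_cancel (by norm_num) (by norm_num), one_mul, two_mul]

lemma rr_int {d : ℕ} (B : Bas d) {v k : X d → ℝ≥0∞} (hv : Measurable v) (hk : Measurable k) :
    ∀ n, ∫⁻ x, rr v k n x = (∫⁻ x, k x) ^ n * ∫⁻ x, v x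
  | 0 => by simp [rr]
  | n + 1 => by
    show ∫⁻ x, cv k (rr v k n) x = _
    rw [B.cv_int _ _ hk (rr_meas B hv hk n), rr_int B hv hk n, pow_succ']
    ring

lemma le_Gr {d : ℕ} (B : Bas d) {g v k : X d → ℝ≥0∞} (hg : Measurable g) (hv : Measurable v)
    (hk : Measurable k) (h : ∀ᵐ x, v x ≤ g x + cv k v x) :
    ∀ n, ∀ᵐ x, v x ≤ G g k n x + rr v k n x
  | 0 => ae_of_all _ fun x => by simp [G, rr]
  | n + 1 => by
    have ih := le_Gr B hg hv hk h n
    filter_upwards [h] with x hx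
    have h1 : cv k v x ≤ cv k (fun y => G g k n y + rr v k n y) x :=
      B.cv_mono _ _ _ _ (ae_of_all _ fun _ => le_rfl) ih x
    rw [B.cv_add _ _ _ hk (G_meas B hg hk n)] at h1
    show v x ≤ g x + cv k (G g k n) x + cv k (rr v k n) x
    rw [add_assoc]
    exact hx.trans (by gcongr)

lemma t1aux (w S : ℝ≥0∞) (hw : w ≠ ∞) (f : ℕ → ℝ≥0∞) (h : Tendsto f atTop (𝓝 S)) :
    Tendsto (fun n => (w * f n) ^ 2) atTop (𝓝 ((w * S) ^ 2)) :=
  ((ENNReal.continuous_pow 2).tendsto _).comp (ENNReal.Tendsto.const_mul h (Or.inr hw))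

lemma t2aux {α : Type} [MeasurableSpace α] (μ : Measure α) (w : α → ℝ≥0∞) (hw : ∀ x, w x ≠ ∞) (hwm : Measurable w)
    (F : ℕ → α → ℝ≥0∞) (hF : ∀ n, Measurable (F n)) (hm : ∀ x, Monotone fun n => F n x) :
    Tendsto (fun n => (∫⁻ x, (w x * F n x) ^ 2 ∂μ) ^ (1 / 2 : ℝ)) atTop
      (𝓝 ((∫⁻ x, (w x * ⨆ n, F n x) ^ 2 ∂μ) ^ (1 / 2 : ℝ))) := by
  have h0 : Tendsto (fun n => ∫⁻ x, (w x * F n x) ^ 2 ∂μ) atTop
      (𝓝 (∫⁻ x, (w x * ⨆ n, F n x) ^ 2 ∂μ)) := by
    refine lintegral_tendsto_of_tendsto_of_monotone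
      (fun n => ((hwm.mul (hF n)).pow_const 2).aemeasurable) (ae_of_all _ ?_) (ae_of_all _ ?_)
    · intro x n m hnm
      exact pow_le_pow_left' (mul_le_mul' le_rfl (hm x hnm)) 2
    · intro x
      exact t1aux _ _ (hw x) _ (tendsto_atTop_iSup (hm x))
  exact ((ENNReal.continuous_rpow_const (y := (1 / 2 : ℝ))).tendsto _).comp h0

lemma wt_m {d : ℕ} (N : ℝ) (s : X d) : Measurable fun x : X d => wt N s x := by
  unfold wt wr
  have h : Continuous fun x : X d => Real.exp (-(‖x - s‖ / N)) := by fun_prop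
  exact h.measurable.ennreal_ofReal

lemma am_iSup {d : ℕ} (B : Bas d) (N : ℝ) (F : ℕ → X d → ℝ≥0∞) (hF : ∀ n, Measurable (F n))
    (hm : ∀ n x, F n x ≤ F (n + 1) x) (c : ℝ≥0∞) (hc : ∀ n, am N (F n) ≤ c) :
    am N (fun x => ⨆ n, F n x) ≤ c := by
  have mono : ∀ x, Monotone fun n => F n x := fun x => monotone_nat_of_le_succ fun n => hm n x
  have t2 : ∀ s : X d, Tendsto (fun n => n2 (fun x => wt N s x * F n x)) atTop
      (𝓝 (n2 (fun x => wt N s x * ⨆ n, F n x))) := fun s =>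
    t2aux volume (fun x : X d => wt N s x) (fun x => ENNReal.ofReal_ne_top) (wt_m N s) F hF mono
  have t3 : Tendsto (fun n => am N (F n)) atTop (𝓝 (am N (fun x => ⨆ n, F n x))) := by
    unfold am
    refine lintegral_tendsto_of_tendsto_of_monotone
      (fun n => (B.am_meas N (F n) (hF n)).aemeasurable) (ae_of_all _ ?_) (ae_of_all _ t2)
    intro s n m hnm
    exact B.n2_mono _ _ (ae_of_all _ fun x => mul_le_mul' le_rfl (mono x hnm))
  exact le_of_tendsto' t3 hc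

end PkgREG

open PkgREG in
theorem pREG (hBAS : S_BAS) (hAMC : S_AMC) (hTRU : S_TRU) : S_REG := by
  intro d R E hE hEi hD N hN z hz v hP
  have B := hBAS d
  set a : ℝ≥0∞ := ‖z‖ₑ with ha
  have ha0 : a ≠ 0 := by simpa [ha] using hz
  have hat : a ≠ ∞ := by simp [ha]
  have hmv : Measurable (mo v) := mo_meas v
  set P : L1 d := z • v - R v with hPdef
  have hmP : Measurable (mo P) := mo_meas P
  obtain ⟨E', E'', hE', hE'', hsum, hamE', hintE''⟩ :=
    hTRU d E hE hEi N hN (a / 2) (by simp [ha0])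
  -- the basic inequality
  have h1 : ∀ᵐ x, a * mo v x ≤ mo P x + cv E (mo v) x := by
    filter_upwards [hD v, Lp.coeFn_sub (z • v) (R v), Lp.coeFn_smul z v] with x h1 h2 h3
    have h4 : z • v x = P x + R v x := by
      have : P x = z • v x - R v x := by
        rw [hPdef, h2, Pi.sub_apply, h3, Pi.smul_apply]
      rw [this]; ring
    calc a * mo v x = ‖z • v x‖ₑ := by rw [enorm_smul]; rfl
      _ = ‖P x + R v x‖ₑ := by rw [h4]
      _ ≤ ‖P x‖ₑ + ‖R v x‖ₑ := enorm_add_le _ _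
      _ ≤ mo P x + cv E (mo v) x := by
        gcongr
        · exact le_rfl
        · exact h1
  have hcvE : ∀ x, cv E (mo v) x = cv E' (mo v) x + cv E'' (mo v) x := by
    intro x
    have e : E = fun y => E' y + E'' y := funext hsum
    rw [B.cv_comm E (mo v) hE hmv, B.cv_comm E' (mo v) hE' hmv, B.cv_comm E'' (mo v) hE'' hmv,
      ← B.cv_add (mo v) E' E'' hmv hE', ← e]
  set g : X d → ℝ≥0∞ := fun x => a⁻¹ * (mo P x + cv E' (mo v) x) with hg
  set k : X d → ℝ≥0∞ := fun x => a⁻¹ * E'' x with hk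
  have hgm : Measurable g := (hmP.add (B.cv_meas _ _ hE' hmv)).const_mul _
  have hkm : Measurable k := hE''.const_mul _
  have hk1 : ∫⁻ x, k x ≤ 2⁻¹ := by
    rw [hk, lintegral_const_mul _ hE'']
    calc a⁻¹ * ∫⁻ x, E'' x ≤ a⁻¹ * (a / 2) := by gcongr
      _ = 2⁻¹ := by
        rw [div_eq_mul_inv, ← mul_assoc, ENNReal.inv_mul_cancel ha0 hat, one_mul]
  have hcvk : ∀ x, cv k (mo v) x = a⁻¹ * cv E'' (mo v) x := by
    intro x
    rw [B.cv_comm k (mo v) hkm hmv, B.cv_comm E'' (mo v) hE'' hmv]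
    exact B.cv_smul a⁻¹ (mo v) E'' hmv hE'' x
  have h2 : ∀ᵐ x, mo v x ≤ g x + cv k (mo v) x := by
    filter_upwards [h1] with x hx
    calc mo v x = a⁻¹ * (a * mo v x) := by
          rw [← mul_assoc, ENNReal.inv_mul_cancel ha0 hat, one_mul]
      _ ≤ a⁻¹ * (mo P x + cv E (mo v) x) := by gcongr
      _ = g x + cv k (mo v) x := by
          rw [hcvE, hcvk, hg]
          ring
  -- am N g is finite
  have hamg : am N g ≠ ∞ := by
    have hs : am N g = a⁻¹ * am N (fun x => mo P x + cv E' (mo v) x) :=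
      B.am_smul N a⁻¹ _ (hmP.add (B.cv_meas _ _ hE' hmv))
    rw [hs]
    refine ENNReal.mul_ne_top (by simp [ha0]) ?_
    refine ne_top_of_le_ne_top ?_ (B.am_add N _ _ hmP (B.cv_meas _ _ hE' hmv))
    refine ENNReal.add_ne_top.2 ⟨hP, ?_⟩
    rw [B.cv_comm E' (mo v) hE' hmv]
    refine ne_top_of_le_ne_top ?_ (hAMC d N (mo v) E' hmv hE')
    refine ENNReal.mul_ne_top ?_ hamE'
    rw [lint_mo]
    exact enorm_ne_top
  -- mo v ≤ sup G_n
  have hGsup : ∀ᵐ x, mo v x ≤ ⨆ n, G g k n x := by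
    have hmG : Measurable fun x => ⨆ n, G g k n x := Measurable.iSup fun n => G_meas B hgm hkm n
    have h3 : ∀ n, ∫⁻ x, (mo v x - ⨆ n, G g k n x) ≤ 2⁻¹ ^ n * ‖v‖ₑ := by
      intro n
      calc ∫⁻ x, (mo v x - ⨆ n, G g k n x) ≤ ∫⁻ x, rr (mo v) k n x := by
            refine lintegral_mono_ae ?_
            filter_upwards [le_Gr B hgm hmv hkm h2 n] with x hx
            refine tsub_le_iff_left.2 (hx.trans ?_)
            gcongr
            exact le_iSup (fun n => G g k n x) n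
        _ = (∫⁻ x, k x) ^ n * ∫⁻ x, mo v x := rr_int B hmv hkm n
        _ ≤ 2⁻¹ ^ n * ‖v‖ₑ := by
            rw [lint_mo]
            gcongr
    have h4 : ∫⁻ x, (mo v x - ⨆ n, G g k n x) = 0 := by
      have ht : Tendsto (fun n : ℕ => (2⁻¹ : ℝ≥0∞) ^ n * ‖v‖ₑ) atTop (𝓝 (0 * ‖v‖ₑ)) :=
        ENNReal.Tendsto.mul_const
          (ENNReal.tendsto_pow_atTop_nhds_zero_of_lt_one (by norm_num))
          (Or.inr enorm_ne_top)
      rw [zero_mul] at ht
      exact le_antisymm (ge_of_tendsto' ht h3) (by simp)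
    have h5 := (lintegral_eq_zero_iff (hmv.sub hmG)).1 h4
    filter_upwards [h5] with x hx
    exact tsub_eq_zero_iff_le.1 hx
  have h5 : am N (mo v) ≤ am N (fun x => ⨆ n, G g k n x) := B.am_mono N _ _ hGsup
  have h6 : am N (fun x => ⨆ n, G g k n x) ≤ 2 * am N g :=
    am_iSup B N (G g k) (fun n => G_meas B hgm hkm n) (G_mono B) _
      (fun n => G_am B hAMC hgm hkm hk1 N n)
  exact ne_top_of_le_ne_top (ENNReal.mul_ne_top (by norm_num) hamg) (h5.trans h6)

end Pool.Agent.T2H92.RS
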