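import Pool.Agent.T2H92.RS.Stm

/-!
# Package REI: resolvent identity for the densities
-/

set_option autoImplicit false

namespace Pool.Agent.T2H92.RS

open MeasureTheory Filter Topology Set
open scoped ENNReal NNReal

namespace PkgREI

variable {d : ℕ}

theorem mo_meas (f : L1 d) : Measurable (mo f) := by
  unfold mo
  exact (Lp.stronglyMeasurable f).enorm

theorem en_meas {E : X d → ℝ} (hE : Measurable E) : Measurable (en E) := by
  unfold en
  exact hE.ennreal_ofReal

/-- the convolution of a nonnegative density and a nonnegative element -/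
theorem key {E : X d → ℝ} (hE : Measurable E) (hE0 : ∀ᵐ x, 0 ≤ E x) (p : L1 d) (φ : X d → ℝ)
    (hφ0 : ∀ x, 0 ≤ φ x) (hp : p =ᵐ[volume] fun x => (φ x : ℂ)) (x : X d) :
    ∫ y, (E (x - y) : ℂ) * p y = ((cv (en E) (mo p) x).toReal : ℂ) := by
  have h1 : ∀ᵐ y, 0 ≤ E (x - y) :=
    (quasiMeasurePreserving_sub_left (volume : Measure (X d)) x).ae hE0
  have h2 : ∫ y, (E (x - y) : ℂ) * p y = ∫ y, ((E (x - y) * ‖p y‖ : ℝ) : ℂ) := by
    apply integral_congr_ae
    filter_upwards [hp] with y hy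
    rw [hy]
    push_cast
    rw [Complex.norm_real, Real.norm_of_nonneg (hφ0 y)]
  rw [h2, integral_complex_ofReal]
  congr 1
  rw [integral_eq_lintegral_of_nonneg_ae]
  · congr 1
    unfold cv en mo
    apply lintegral_congr_ae
    filter_upwards [h1] with y hy
    rw [ENNReal.ofReal_mul hy, ofReal_norm]
  · filter_upwards [h1] with y hy
    exact mul_nonneg hy (norm_nonneg _)
  · have hm : Measurable fun y : X d => E (x - y) := hE.comp (measurable_const.sub measurable_id)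
    exact (hm.mul (Lp.stronglyMeasurable p).norm.measurable).aestronglyMeasurable

theorem int_en {E : X d → ℝ} (hE : Integrable E) : ∫⁻ x, en E x ≠ ∞ := by
  unfold en
  have h := hE.hasFiniteIntegral
  refine ne_of_lt (lt_of_le_of_lt (lintegral_mono fun x => ?_) h)
  rw [← ofReal_norm]
  exact ENNReal.ofReal_le_ofReal (le_abs_self _)

theorem int_mo (f : L1 d) : ∫⁻ x, mo f x ≠ ∞ := by
  unfold mo
  exact (L1.integrable_coeFn f).hasFiniteIntegral.ne

end PkgREI

open PkgREI in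
theorem pREI (hBAS : S_BAS) : S_REI := by
  intro d M a b Ra Rb Ea Eb hab hRa hRb hEam hEbm hEai hEbi hEa0 hEb0 hA hB f
  have hbas := hBAS d
  have hmf : Measurable (mo f) := mo_meas f
  -- the element `|f|`
  have hgint : Integrable (fun x => ((‖f x‖ : ℝ) : ℂ)) := (L1.integrable_coeFn f).norm.ofReal
  obtain ⟨g, hg⟩ : ∃ g : L1 d, g =ᵐ[volume] fun x => ((‖f x‖ : ℝ) : ℂ) :=
    ⟨hgint.toL1 _, hgint.coeFn_toL1⟩
  have hmg : ∀ᵐ x, mo g x = mo f x := by
    filter_upwards [hg] with x hx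
    unfold mo
    rw [hx, ← ofReal_norm, Complex.norm_real, norm_norm, ofReal_norm]
  have hcveq : ∀ (k u v : X d → ℝ≥0∞), (∀ᵐ x, u x = v x) → ∀ x, cv k u x = cv k v x := by
    intro k u v huv x
    refine le_antisymm (hbas.cv_mono k k u v (Filter.Eventually.of_forall fun _ => le_rfl)
      (huv.mono fun _ h => h.le) x) (hbas.cv_mono k k v u
        (Filter.Eventually.of_forall fun _ => le_rfl) (huv.mono fun _ h => h.ge) x)
  -- resolvent identity
  have hres : Ra g = Rb g + ((b - a : ℝ) : ℂ) • Rb (Ra g) := by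
    have h1 := hRb.2 (Ra g) _ (hRa.1 g)
    have h2 : ((b : ℝ) : ℂ) • Ra g - (((a : ℝ) : ℂ) • Ra g - g) =
        g + ((b - a : ℝ) : ℂ) • Ra g := by
      rw [Complex.ofReal_sub, sub_smul]
      abel
    rw [h2, map_add, map_smul] at h1
    exact h1.symm
  -- values
  have kA := fun x => key hEam hEa0 g (fun x => ‖f x‖) (fun x => norm_nonneg _) hg x
  have kB := fun x => key hEbm hEb0 g (fun x => ‖f x‖) (fun x => norm_nonneg _) hg x
  have vA : Ra g =ᵐ[volume] fun x => (((cv (en Ea) (mo g) x).toReal : ℝ) : ℂ) := by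
    filter_upwards [hA g] with x hx
    rw [hx, kA]
  have kD := fun x => key hEbm hEb0 (Ra g) (fun x => (cv (en Ea) (mo g) x).toReal)
    (fun x => ENNReal.toReal_nonneg) vA x
  -- finiteness
  have mEa := en_meas hEam
  have mEb := en_meas hEbm
  have fA : ∀ᵐ x, cv (en Ea) (mo f) x < ∞ := by
    apply ae_lt_top (hbas.cv_meas _ _ mEa hmf)
    rw [hbas.cv_int _ _ mEa hmf]
    exact ENNReal.mul_ne_top (int_en hEai) (int_mo f)
  have fB : ∀ᵐ x, cv (en Eb) (mo f) x < ∞ := by
    apply ae_lt_top (hbas.cv_meas _ _ mEb hmf)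
    rw [hbas.cv_int _ _ mEb hmf]
    exact ENNReal.mul_ne_top (int_en hEbi) (int_mo f)
  have mA := hbas.cv_meas _ _ mEa hmf
  have fD : ∀ᵐ x, cv (en Eb) (cv (en Ea) (mo f)) x < ∞ := by
    apply ae_lt_top (hbas.cv_meas _ _ mEb mA)
    rw [hbas.cv_int _ _ mEb mA, hbas.cv_int _ _ mEa hmf]
    exact ENNReal.mul_ne_top (int_en hEbi) (ENNReal.mul_ne_top (int_en hEai) (int_mo f))
  have eA : ∀ x, cv (en Ea) (mo g) x = cv (en Ea) (mo f) x := hcveq _ _ _ hmg
  have eB : ∀ x, cv (en Eb) (mo g) x = cv (en Eb) (mo f) x := hcveq _ _ _ hmg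
  have eD : ∀ x, cv (en Eb) (mo (Ra g)) x = cv (en Eb) (cv (en Ea) (mo f)) x := by
    apply hcveq
    filter_upwards [vA, fA] with x hx hx2
    unfold mo
    rw [hx, ← ofReal_norm, Complex.norm_real, Real.norm_of_nonneg ENNReal.toReal_nonneg,
      eA, ENNReal.ofReal_toReal hx2.ne]
    rfl
  have hadd : (Rb g + ((b - a : ℝ) : ℂ) • Rb (Ra g) : L1 d) =ᵐ[volume]
      fun x => Rb g x + ((b - a : ℝ) : ℂ) * Rb (Ra g) x := by
    filter_upwards [Lp.coeFn_add (Rb g) (((b - a : ℝ) : ℂ) • Rb (Ra g)),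
      Lp.coeFn_smul ((b - a : ℝ) : ℂ) (Rb (Ra g))] with x h1 h2
    rw [h1, Pi.add_apply, h2, Pi.smul_apply, smul_eq_mul]
  rw [← hres] at hadd
  filter_upwards [hadd, vA, hB g, hB (Ra g), fA, fB, fD] with x h1 h2 h3 h4 h5 h6 h7
  rw [h2, h3, h4, kB, kD, eA, eB, eD] at h1
  have h8 : (cv (en Ea) (mo f) x).toReal = (cv (en Eb) (mo f) x).toReal +
      (b - a) * (cv (en Eb) (cv (en Ea) (mo f)) x).toReal := by
    exact_mod_cast h1
  have h9 := congrArg ENNReal.ofReal h8
  rw [ENNReal.ofReal_toReal h5.ne, ENNReal.ofReal_add ENNReal.toReal_nonneg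
    (mul_nonneg (by linarith) ENNReal.toReal_nonneg), ENNReal.ofReal_mul (by linarith),
    ENNReal.ofReal_toReal h6.ne, ENNReal.ofReal_toReal h7.ne] at h9
  exact h9

end Pool.Agent.T2H92.RS
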