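import Pool.Agent.T2H92.RS.Stm

/-! # RS: package RGN -/

set_option autoImplicit false

namespace Pool.Agent.T2H92.RS

open MeasureTheory Filter Topology Set
open scoped ENNReal NNReal

theorem pRGN : S_RGN := by
  intro d S lam R hR hQ z hz
  by_contra him
  apply hz
  have him' : z.im ≠ 0 := him
  have hlz : (lam : ℂ) - z ≠ 0 := by
    intro h
    apply him'
    have : z = (lam : ℂ) := (sub_eq_zero.mp h).symm
    rw [this, Complex.ofReal_im]
  set ζ : ℂ := ((lam : ℂ) - z)⁻¹ with hζ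
  have hζ0 : ζ ≠ 0 := inv_ne_zero hlz
  have hζim : ζ.im ≠ 0 := by
    intro h
    have h1 : (ζ.re : ℂ) = ζ := by
      apply Complex.ext
      · simp
      · simp [h]
    have h2 : (lam : ℂ) - z = ((ζ.re)⁻¹ : ℝ) := by
      have : (lam : ℂ) - z = ζ⁻¹ := by rw [hζ, inv_inv]
      rw [this, ← h1]
      push_cast
      simp
    apply him'
    have h3 : z = (lam : ℂ) - ((ζ.re)⁻¹ : ℝ) := by rw [← h2]; ring
    rw [h3, Complex.sub_im, Complex.ofReal_im, Complex.ofReal_im, sub_zero]
  obtain ⟨Q, hQ1, hQ2⟩ := hQ ζ hζim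
  have hmul : ((lam : ℂ) - z) * ζ = 1 := mul_inv_cancel₀ hlz
  refine ⟨ζ • (R ∘L Q), fun g => ?_, fun f h hfh => ?_⟩
  · -- `y = ζ Q g`
    set y : L1 d := ζ • Q g with hy
    have e0 : (ζ • (R ∘L Q)) g = R y := by
      rw [hy, map_smul]; rfl
    rw [e0]
    have h1 := hR.1 y
    have h2 : ζ • y - R y = ζ • g := by
      rw [hy, map_smul, ← smul_sub, hQ2]
    have h3 : (lam : ℂ) • R y - y = z • R y - g := by
      have h4 : y - ((lam : ℂ) - z) • R y = g := by
        have h5 := congrArg (fun u => ((lam : ℂ) - z) • u) h2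
        simp only [smul_sub, smul_smul, hmul, one_smul] at h5
        exact h5
      rw [← h4, sub_smul]; abel
    rwa [h3] at h1
  · set p : L1 d := (lam : ℂ) • f - h with hp
    have h1 : R p = f := hR.2 f h hfh
    have h2 : z • f - h = ((lam : ℂ) - z) • (ζ • p - R p) := by
      rw [smul_sub, smul_smul, hmul, one_smul, h1, hp, sub_smul]; abel
    have e0 : (ζ • (R ∘L Q)) (z • f - h) = ζ • R (Q (z • f - h)) := rfl
    rw [e0, h2, map_smul, hQ1, map_smul, smul_smul, mul_comm, hmul, one_smul, h1]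

end Pool.Agent.T2H92.RS
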