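import Pool.Agent.T2H92.RS.Stm

/-! # Package RM1 -/

set_option autoImplicit false

namespace Pool.Agent.T2H92.RS

open MeasureTheory Filter Topology Set
open scoped ENNReal NNReal

namespace PkgRM1

variable {d : ℕ} {m : ℝ → Measure (X d)}

theorem fin (hm : ConvSG m) {t : ℝ} (ht : 0 ≤ t) : IsFiniteMeasure (m t) :=
  ⟨lt_of_le_of_lt (hm.mass t ht) ENNReal.one_lt_top⟩

theorem real_le (hm : ConvSG m) {t : ℝ} (ht : 0 ≤ t) : (m t).real univ ≤ 1 := by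
  unfold Measure.real
  exact ENNReal.toReal_mono ENNReal.one_ne_top (hm.mass t ht)

theorem abs_leM (hm : ConvSG m) {t : ℝ} (ht : 0 ≤ t) (Ψ : X d → ℝ) (C : ℝ) (hC0 : 0 ≤ C)
    (hC : ∀ x, |Ψ x| ≤ C) : |∫ x, Ψ x ∂(m t)| ≤ C := by
  haveI := fin hm ht
  have h := norm_integral_le_of_norm_le_const (μ := m t) (f := Ψ) (C := C)
    (Filter.Eventually.of_forall fun x => by rw [Real.norm_eq_abs]; exact hC x)
  rw [Real.norm_eq_abs] at h
  refine h.trans ?_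
  calc C * (m t).real univ ≤ C * 1 := mul_le_mul_of_nonneg_left (real_le hm ht) hC0
    _ = C := mul_one C

theorem intble (hm : ConvSG m) {t : ℝ} (ht : 0 ≤ t) (Ψ : X d → ℝ) (hΨ : Continuous Ψ) (C : ℝ)
    (hC : ∀ x, |Ψ x| ≤ C) : Integrable Ψ (m t) := by
  haveI := fin hm ht
  refine (integrable_const C).mono' hΨ.aestronglyMeasurable ?_
  exact Filter.Eventually.of_forall fun x => by rw [Real.norm_eq_abs]; exact hC x

theorem exp_int (μ : ℝ) (hμ : 0 < μ) : IntegrableOn (fun t : ℝ => Real.exp (-μ * t)) (Ioi 0) :=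
  integrableOn_exp_mul_Ioi (by linarith) 0

theorem exp_val (μ : ℝ) (hμ : 0 < μ) : ∫ t in Ioi (0 : ℝ), Real.exp (-μ * t) = 1 / μ := by
  rw [integral_exp_mul_Ioi (by linarith) 0]
  simp

theorem int_t (hVC : S_VC) (hm : ConvSG m) (μ : ℝ) (hμ : 0 < μ) (Ψ : X d → ℝ) (hΨ : Continuous Ψ)
    (h0 : Tendsto Ψ (cocompact (X d)) (𝓝 0)) (C : ℝ) (hC0 : 0 ≤ C) (hC : ∀ x, |Ψ x| ≤ C) :
    IntegrableOn (fun t : ℝ => Real.exp (-μ * t) * ∫ x, Ψ x ∂(m t)) (Ioi 0) := by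
  have hc : ContinuousOn (fun t : ℝ => Real.exp (-μ * t) * ∫ x, Ψ x ∂(m t)) (Ioi 0) := by
    refine ContinuousOn.mul (by fun_prop) ?_
    exact (hVC d m hm Ψ hΨ h0).mono Ioi_subset_Ici_self
  refine ((exp_int μ hμ).mul_const C).mono' (hc.aestronglyMeasurable measurableSet_Ioi) ?_
  refine (ae_restrict_mem measurableSet_Ioi).mono fun t ht => ?_
  rw [Real.norm_eq_abs, abs_mul, abs_of_pos (Real.exp_pos _)]
  exact mul_le_mul_of_nonneg_left (abs_leM hm (le_of_lt ht) Ψ C hC0 hC) (Real.exp_pos _).le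

theorem bnd_t (hVC : S_VC) (hm : ConvSG m) (μ : ℝ) (hμ : 0 < μ) (Ψ : X d → ℝ) (hΨ : Continuous Ψ)
    (h0 : Tendsto Ψ (cocompact (X d)) (𝓝 0)) (C : ℝ) (hC0 : 0 ≤ C) (hC : ∀ x, |Ψ x| ≤ C) :
    |∫ t in Ioi (0 : ℝ), Real.exp (-μ * t) * ∫ x, Ψ x ∂(m t)| ≤ C / μ := by
  have h1 : |∫ t in Ioi (0 : ℝ), Real.exp (-μ * t) * ∫ x, Ψ x ∂(m t)|
      ≤ ∫ t in Ioi (0 : ℝ), Real.exp (-μ * t) * C := by
    rw [← Real.norm_eq_abs]
    refine norm_integral_le_of_norm_le ((exp_int μ hμ).mul_const C) ?_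
    refine (ae_restrict_mem measurableSet_Ioi).mono fun t ht => ?_
    rw [Real.norm_eq_abs, abs_mul, abs_of_pos (Real.exp_pos _)]
    exact mul_le_mul_of_nonneg_left (abs_leM hm (le_of_lt ht) Ψ C hC0 hC) (Real.exp_pos _).le
  refine h1.trans (le_of_eq ?_)
  rw [integral_mul_const, exp_val μ hμ]
  ring

/-- soft threshold -/
theorem approx (Φ : X d → ℝ) (hΦ : Continuous Φ) (h0 : Tendsto Φ (cocompact (X d)) (𝓝 0))
    (ε : ℝ) (hε : 0 < ε) : ∃ φ : X d → ℝ, Continuous φ ∧ HasCompactSupport φ ∧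
      ∀ x, |Φ x - φ x| ≤ ε := by
  have h1 : {x | |Φ x| < ε} ∈ cocompact (X d) := by
    have := h0.eventually (Metric.ball_mem_nhds (0 : ℝ) hε)
    refine Filter.mem_of_superset this ?_
    intro x hx
    simpa [Real.norm_eq_abs] using hx
  rw [mem_cocompact] at h1
  obtain ⟨K, hK, hK'⟩ := h1
  refine ⟨fun x => Φ x - max (-ε) (min ε (Φ x)), ?_, ?_, ?_⟩
  · exact hΦ.sub (continuous_const.max (continuous_const.min hΦ))
  · refine HasCompactSupport.intro hK fun x hx => ?_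
    have h2 : |Φ x| < ε := hK' hx
    rw [abs_lt] at h2
    rw [min_eq_right h2.2.le, max_eq_right h2.1.le, sub_self]
  · intro x
    simp only [sub_sub_cancel]
    rw [abs_le]
    constructor
    · exact le_max_left _ _
    · exact max_le (by linarith) (min_le_left _ _)

theorem bdd (Φ : X d → ℝ) (hΦ : Continuous Φ) (h0 : Tendsto Φ (cocompact (X d)) (𝓝 0)) :
    ∃ C, 0 ≤ C ∧ ∀ x, |Φ x| ≤ C := by
  have h1 : {x | |Φ x| < 1} ∈ cocompact (X d) := by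
    have := h0.eventually (Metric.ball_mem_nhds (0 : ℝ) one_pos)
    refine Filter.mem_of_superset this ?_
    intro x hx
    simpa [Real.norm_eq_abs] using hx
  rw [mem_cocompact] at h1
  obtain ⟨K, hK, hK'⟩ := h1
  obtain ⟨C, hC⟩ := hK.exists_bound_of_continuousOn hΦ.continuousOn
  refine ⟨max C 1, le_trans zero_le_one (le_max_right _ _), fun x => ?_⟩
  by_cases hx : x ∈ K
  · exact (hC x hx).trans (le_max_left _ _)
  · exact (le_of_lt (hK' hx)).trans (le_max_right _ _)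

end PkgRM1

open PkgRM1 in
theorem pRM1 (hVC : S_VC) : S_RM1 := by
  intro d m μ E hm hμ hE Φ hΦ h0
  obtain ⟨hEi, hE2⟩ := hE
  obtain ⟨C, hC0, hC⟩ := bdd Φ hΦ h0
  refine eq_of_abs_sub_eq_zero ?_
  have hA : 0 ≤ ∫ x, |E x| := integral_nonneg fun x => abs_nonneg _
  refine le_antisymm (le_of_forall_pos_le_add fun δ hδ => ?_) (abs_nonneg _)
  rw [zero_add]
  have hD : 0 < 1 / μ + (∫ x, |E x|) + 1 := by positivity
  obtain ⟨ε, hε, hεδ⟩ : ∃ ε : ℝ, 0 < ε ∧ ε * (1 / μ + (∫ x, |E x|) + 1) ≤ δ :=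
    ⟨δ / (1 / μ + (∫ x, |E x|) + 1), div_pos hδ hD, le_of_eq (div_mul_cancel₀ _ hD.ne')⟩
  obtain ⟨φ, hφ, hφc, hφε⟩ := approx Φ hΦ h0 ε hε
  have hφ0 : Tendsto φ (cocompact (X d)) (𝓝 0) := hφc.is_zero_at_infty
  have hΨ0 : Tendsto (fun x => Φ x - φ x) (cocompact (X d)) (𝓝 0) := by
    simpa using h0.sub hφ0
  have hφb : ∀ x, |φ x| ≤ C + ε := fun x => by
    have := abs_sub_abs_le_abs_sub (φ x) (Φ x)
    rw [abs_sub_comm] at this
    linarith [hφε x, hC x]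
  have e1 : (∫ t in Ioi (0 : ℝ), Real.exp (-μ * t) * ∫ x, Φ x ∂(m t))
      - ∫ t in Ioi (0 : ℝ), Real.exp (-μ * t) * ∫ x, φ x ∂(m t)
      = ∫ t in Ioi (0 : ℝ), Real.exp (-μ * t) * ∫ x, (Φ x - φ x) ∂(m t) := by
    rw [← integral_sub (int_t hVC hm μ hμ Φ hΦ h0 C hC0 hC)
      (int_t hVC hm μ hμ φ hφ hφ0 (C + ε) (by linarith) hφb)]
    refine setIntegral_congr_fun measurableSet_Ioi fun t ht => ?_
    change Real.exp (-μ * t) * ∫ x, Φ x ∂(m t) - Real.exp (-μ * t) * ∫ x, φ x ∂(m t)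
      = Real.exp (-μ * t) * ∫ x, (Φ x - φ x) ∂(m t)
    rw [integral_sub (intble hm (le_of_lt ht) Φ hΦ C hC)
      (intble hm (le_of_lt ht) φ hφ (C + ε) hφb), mul_sub]
  have e2 : (∫ x, Φ x * E x) - ∫ x, φ x * E x = ∫ x, (Φ x - φ x) * E x := by
    rw [← integral_sub]
    · refine integral_congr_ae (Filter.Eventually.of_forall fun x => ?_)
      change Φ x * E x - φ x * E x = (Φ x - φ x) * E x
      ring
    · exact hEi.bdd_mul hΦ.aestronglyMeasurable (Filter.Eventually.of_forall fun x => by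
        rw [Real.norm_eq_abs]; exact hC x)
    · exact hEi.bdd_mul hφ.aestronglyMeasurable (Filter.Eventually.of_forall fun x => by
        rw [Real.norm_eq_abs]; exact hφb x)
  have b1 := bnd_t hVC hm μ hμ (fun x => Φ x - φ x) (hΦ.sub hφ) hΨ0 ε hε.le hφε
  have b2 : |∫ x, (Φ x - φ x) * E x| ≤ ε * ∫ x, |E x| := by
    rw [← Real.norm_eq_abs, ← integral_const_mul]
    refine norm_integral_le_of_norm_le (hEi.abs.const_mul ε) ?_
    refine Filter.Eventually.of_forall fun x => ?_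
    rw [Real.norm_eq_abs, abs_mul]
    exact mul_le_mul_of_nonneg_right (hφε x) (abs_nonneg _)
  have e3 := hE2 φ hφ hφc
  have e4 : (∫ t in Ioi (0 : ℝ), Real.exp (-μ * t) * ∫ x, Φ x ∂(m t)) - ∫ x, Φ x * E x
      = (∫ t in Ioi (0 : ℝ), Real.exp (-μ * t) * ∫ x, (Φ x - φ x) ∂(m t))
        - ∫ x, (Φ x - φ x) * E x := by
    rw [← e1, ← e2, e3]
    ring
  rw [e4]
  calc |(∫ t in Ioi (0 : ℝ), Real.exp (-μ * t) * ∫ x, (Φ x - φ x) ∂(m t))
        - ∫ x, (Φ x - φ x) * E x|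
      ≤ |∫ t in Ioi (0 : ℝ), Real.exp (-μ * t) * ∫ x, (Φ x - φ x) ∂(m t)|
        + |∫ x, (Φ x - φ x) * E x| := abs_sub _ _
    _ ≤ ε / μ + ε * ∫ x, |E x| := add_le_add b1 b2
    _ ≤ ε * (1 / μ + (∫ x, |E x|) + 1) := by
        have : ε / μ = ε * (1 / μ) := by ring
        rw [this]
        nlinarith
    _ ≤ δ := hεδ

end Pool.Agent.T2H92.RS
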