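import Pool.Agent.T2H92.RS.Stm

/-! # RS, package RM2: the resolvent of the convolution semigroup is a convolution -/

set_option autoImplicit false

namespace Pool.Agent.T2H92.RS

open MeasureTheory Filter Topology Set
open scoped ENNReal NNReal

namespace PkgRM2

/-- the function `w ↦ ∫ φ (w + y) f y dy` -/
noncomputable def Ph {d : ℕ} (φ : X d → ℝ) (f : L1 d) (w : X d) : ℂ := ∫ y, (φ (w + y) : ℂ) * f y

lemma cog (d : ℕ) : (cocompact (X d)).IsCountablyGenerated := by
  rw [← Metric.cobounded_eq_cocompact, ← comap_norm_atTop]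
  infer_instance

lemma int1 {d : ℕ} (φ : X d → ℝ) (hc : Continuous φ) (C : ℝ) (hC : ∀ x, ‖φ x‖ ≤ C) (f : L1 d) (w : X d) :
    Integrable (fun y => (φ (w + y) : ℂ) * f y) := by
  refine (L1.integrable_coeFn f).bdd_mul (c := C) ?_ ?_
  · exact (Complex.continuous_ofReal.comp (hc.comp (by fun_prop))).aestronglyMeasurable
  · refine Eventually.of_forall fun y => ?_
    rw [Complex.norm_real]
    exact hC _

lemma Ph_cont {d : ℕ} (φ : X d → ℝ) (hc : Continuous φ) (C : ℝ) (hC : ∀ x, ‖φ x‖ ≤ C) (f : L1 d) :
    Continuous (Ph φ f) := by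
  unfold Ph
  refine continuous_of_dominated (bound := fun y => C * ‖f y‖) (fun w => (int1 φ hc C hC f w).1) ?_
    ((L1.integrable_coeFn f).norm.const_mul C) ?_
  · intro w
    refine Eventually.of_forall fun y => ?_
    rw [norm_mul, Complex.norm_real]
    gcongr
    exact hC _
  · refine Eventually.of_forall fun y => ?_
    exact (Complex.continuous_ofReal.comp (hc.comp (by fun_prop))).mul continuous_const

lemma Ph_bdd {d : ℕ} (φ : X d → ℝ) (hc : Continuous φ) (C : ℝ) (hC : ∀ x, ‖φ x‖ ≤ C) (f : L1 d) (w : X d) :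
    ‖Ph φ f w‖ ≤ C * ‖f‖ := by
  unfold Ph
  rw [L1.norm_eq_integral_norm, ← integral_const_mul]
  refine norm_integral_le_of_norm_le ((L1.integrable_coeFn f).norm.const_mul C) ?_
  refine Eventually.of_forall fun y => ?_
  rw [norm_mul, Complex.norm_real]
  gcongr
  exact hC _

lemma Ph_zero {d : ℕ} (φ : X d → ℝ) (hc : Continuous φ) (hs : HasCompactSupport φ) (C : ℝ) (hC : ∀ x, ‖φ x‖ ≤ C)
    (f : L1 d) : Tendsto (Ph φ f) (cocompact (X d)) (𝓝 0) := by
  haveI := cog d
  have h0 : (0 : ℂ) = ∫ y : X d, (0 : ℂ) := by simp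
  rw [h0]
  unfold Ph
  refine tendsto_integral_filter_of_dominated_convergence (fun y => C * ‖f y‖)
    (Eventually.of_forall fun w => (int1 φ hc C hC f w).1) ?_ ((L1.integrable_coeFn f).norm.const_mul C) ?_
  · refine Eventually.of_forall fun w => Eventually.of_forall fun y => ?_
    rw [norm_mul, Complex.norm_real]
    gcongr
    exact hC _
  · refine Eventually.of_forall fun y => ?_
    have h1 : Tendsto (fun w : X d => w + y) (cocompact (X d)) (cocompact (X d)) :=
      (Homeomorph.addRight y).isClosedEmbedding.tendsto_cocompact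
    have h2 : Tendsto (fun w : X d => φ (w + y)) (cocompact (X d)) (𝓝 0) := hs.is_zero_at_infty.comp h1
    have h3 : Tendsto (fun w : X d => (φ (w + y) : ℂ)) (cocompact (X d)) (𝓝 ((0 : ℝ) : ℂ)) :=
      (Complex.continuous_ofReal.tendsto 0).comp h2
    have h4 := h3.mul_const (f y)
    simpa using h4

/-- pairing of the convolution with a finite measure -/
lemma pair_meas {d : ℕ} (φ : X d → ℝ) (hc : Continuous φ) (C : ℝ) (hC : ∀ x, ‖φ x‖ ≤ C) (f : L1 d)
    (ν : Measure (X d)) [IsFiniteMeasure ν] :
    ∫ x, (φ x : ℂ) * ∫ y, f (x - y) ∂ν = ∫ w, Ph φ f w ∂ν := by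
  have hsm : StronglyMeasurable (fun p : X d × X d => f (p.1 - p.2)) :=
    (Lp.stronglyMeasurable f).comp_measurable (measurable_fst.sub measurable_snd)
  have hi : Integrable (fun p : X d × X d => f (p.1 - p.2)) ((volume : Measure (X d)).prod ν) := by
    rw [integrable_prod_iff' hsm.aestronglyMeasurable]
    constructor
    · refine Eventually.of_forall fun y => ?_
      exact (L1.integrable_coeFn f).comp_sub_right y
    · have : (fun y : X d => ∫ x : X d, ‖f (x - y)‖) = fun _ => ∫ x : X d, ‖f x‖ := by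
        funext y
        exact integral_sub_right_eq_self (fun x => ‖f x‖) y
      simp only [this]
      exact integrable_const _
  have hi2 : Integrable (Function.uncurry fun (x y : X d) => (φ x : ℂ) * f (x - y))
      ((volume : Measure (X d)).prod ν) := by
    refine hi.bdd_mul (f := fun p : X d × X d => (φ p.1 : ℂ)) (c := C) ?_ ?_
    · exact (Complex.continuous_ofReal.comp (hc.comp continuous_fst)).aestronglyMeasurable
    · refine Eventually.of_forall fun p => ?_
      rw [Complex.norm_real]
      exact hC _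
  have e1 : ∫ x, (φ x : ℂ) * ∫ y, f (x - y) ∂ν = ∫ x, ∫ y, (φ x : ℂ) * f (x - y) ∂ν := by
    congr 1
    funext x
    rw [integral_const_mul]
  rw [e1, integral_integral_swap hi2]
  congr 1
  funext w
  unfold Ph
  rw [← integral_sub_right_eq_self (fun x => (φ (w + x) : ℂ) * f x) w]
  congr 1
  funext x
  congr 3
  abel

/-- pairing of the convolution with an integrable density -/
lemma pair_dens {d : ℕ} (φ : X d → ℝ) (hc : Continuous φ) (C : ℝ) (hC : ∀ x, ‖φ x‖ ≤ C) (f : L1 d)
    (E : X d → ℝ) (hE : Integrable E) :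
    ∫ x, (φ x : ℂ) * ∫ y, (E (x - y) : ℂ) * f y = ∫ w, Ph φ f w * (E w : ℂ) := by
  have hEc : Integrable (fun x => (E x : ℂ)) := hE.ofReal
  have hi : Integrable (fun p : X d × X d => f p.2 * (E (p.1 - p.2) : ℂ))
      ((volume : Measure (X d)).prod volume) := by
    have := Integrable.convolution_integrand (ContinuousLinearMap.mul ℂ ℂ) (L1.integrable_coeFn f) hEc
    simpa using this
  have hi2 : Integrable (Function.uncurry fun (x y : X d) => (φ x : ℂ) * ((E (x - y) : ℂ) * f y))
      ((volume : Measure (X d)).prod volume) := by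
    have h1 := hi.bdd_mul (f := fun p : X d × X d => (φ p.1 : ℂ)) (c := C)
      ((Complex.continuous_ofReal.comp (hc.comp continuous_fst)).aestronglyMeasurable)
      (Eventually.of_forall fun p => by rw [Complex.norm_real]; exact hC _)
    refine h1.congr (Eventually.of_forall fun p => ?_)
    simp only [Function.uncurry]
    ring
  have e1 : ∫ x, (φ x : ℂ) * ∫ y, (E (x - y) : ℂ) * f y =
      ∫ x, ∫ y, (φ x : ℂ) * ((E (x - y) : ℂ) * f y) := by
    congr 1
    funext x
    rw [integral_const_mul]
  rw [e1, integral_integral_swap hi2]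
  have hi3 : Integrable (Function.uncurry fun (y z : X d) => (φ (z + y) : ℂ) * ((E z : ℂ) * f y))
      ((volume : Measure (X d)).prod volume) := by
    have h0 := (L1.integrable_coeFn f).mul_prod hEc
    have h1 := h0.bdd_mul (f := fun p : X d × X d => (φ (p.2 + p.1) : ℂ)) (c := C)
      ((Complex.continuous_ofReal.comp (hc.comp (by fun_prop))).aestronglyMeasurable)
      (Eventually.of_forall fun p => by rw [Complex.norm_real]; exact hC _)
    refine h1.congr (Eventually.of_forall fun p => ?_)
    simp only [Function.uncurry]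
    ring
  have e2 : ∫ y : X d, ∫ x : X d, (φ x : ℂ) * ((E (x - y) : ℂ) * f y) =
      ∫ y : X d, ∫ z : X d, (φ (z + y) : ℂ) * ((E z : ℂ) * f y) := by
    congr 1
    funext y
    rw [← integral_sub_right_eq_self (fun z => (φ (z + y) : ℂ) * ((E z : ℂ) * f y)) y]
    congr 1
    funext x
    rw [sub_add_cancel]
  rw [e2, integral_integral_swap hi3]
  congr 1
  funext z
  unfold Ph
  rw [← integral_mul_const]
  congr 1
  funext y
  ring

/-- the functional `h ↦ ∫ φ h` -/
noncomputable def La {d : ℕ} (φ : X d → ℝ) (hc : Continuous φ) (C : ℝ) (hC : ∀ x, ‖φ x‖ ≤ C) : L1 d →L[ℂ] ℂ :=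
  LinearMap.mkContinuous
    { toFun := fun h => ∫ x, (φ x : ℂ) * h x
      map_add' := by
        intro h k
        have hi : ∀ h : L1 d, Integrable (fun x => (φ x : ℂ) * h x) := fun h => by
          simpa using int1 φ hc C hC h 0
        rw [← integral_add (hi h) (hi k)]
        refine integral_congr_ae ?_
        filter_upwards [Lp.coeFn_add h k] with x hx
        rw [hx, Pi.add_apply, mul_add]
      map_smul' := by
        intro a h
        rw [RingHom.id_apply, smul_eq_mul, ← integral_const_mul]
        refine integral_congr_ae ?_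
        filter_upwards [Lp.coeFn_smul a h] with x hx
        rw [hx, Pi.smul_apply, smul_eq_mul]
        ring } C (by
    intro h
    have h1 := Ph_bdd φ hc C hC h 0
    unfold Ph at h1
    simpa using h1)

lemma La_apply {d : ℕ} (φ : X d → ℝ) (hc : Continuous φ) (C : ℝ) (hC : ∀ x, ‖φ x‖ ≤ C) (h : L1 d) :
    La φ hc C hC h = ∫ x, (φ x : ℂ) * h x := rfl

end PkgRM2

open PkgRM2 in
theorem pRM2 (hRM1 : S_RM1) : S_RM2 := by
  intro d m M μ E R hm hM hμ hE hint hR f
  have hEi : Integrable E := hE.1
  have hEc : Integrable (fun x => (E x : ℂ)) := hEi.ofReal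
  have hconvI : Integrable (fun x => ∫ y, (E (x - y) : ℂ) * f y) := by
    have h1 := Integrable.integrable_convolution (ContinuousLinearMap.mul ℂ ℂ) (L1.integrable_coeFn f) hEc
    refine h1.congr (Eventually.of_forall fun x => ?_)
    simp only [convolution_def, ContinuousLinearMap.mul_apply']
    congr 1
    funext y
    ring
  refine ae_eq_of_integral_contDiff_smul_eq (L1.integrable_coeFn (R f)).locallyIntegrable
    hconvI.locallyIntegrable ?_
  intro φ hφ hφs
  have hc : Continuous φ := hφ.continuous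
  obtain ⟨C, hC⟩ := hφs.exists_bound_of_continuous hc
  simp only [Complex.real_smul]
  rw [pair_dens φ hc C hC f E hEi]
  -- the left side
  have hfin : ∀ t, 0 ≤ t → IsFiniteMeasure (m t) := fun t ht =>
    ⟨lt_of_le_of_lt (hm.mass t ht) ENNReal.one_lt_top⟩
  have hLt : ∀ t, 0 ≤ t → La φ hc C hC (M t f) = ∫ w, Ph φ f w ∂(m t) := by
    intro t ht
    haveI := hfin t ht
    rw [La_apply, ← pair_meas φ hc C hC f (m t)]
    refine integral_congr_ae ?_
    filter_upwards [hM t ht f] with x hx
    rw [hx]
  have hA : Integrable (fun t : ℝ => La φ hc C hC (Real.exp (-μ * t) • M t f)) (volume.restrict (Ioi 0)) :=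
    (La φ hc C hC).integrable_comp (hint f)
  have hAeq : ∀ t ∈ Ioi (0 : ℝ), La φ hc C hC (Real.exp (-μ * t) • M t f) =
      (Real.exp (-μ * t) : ℂ) * ∫ w, Ph φ f w ∂(m t) := by
    intro t ht
    have e1 : Real.exp (-μ * t) • M t f = ((Real.exp (-μ * t) : ℝ) : ℂ) • M t f :=
      (Complex.coe_smul (Real.exp (-μ * t)) (M t f)).symm
    rw [e1, map_smul, hLt t (le_of_lt ht), smul_eq_mul]
  have hleft : ∫ x, (φ x : ℂ) * R f x = ∫ t in Ioi (0 : ℝ), (Real.exp (-μ * t) : ℂ) * ∫ w, Ph φ f w ∂(m t) := by
    rw [← La_apply φ hc C hC (R f), hR f, ← ContinuousLinearMap.integral_comp_comm _ (hint f)]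
    exact setIntegral_congr_fun measurableSet_Ioi hAeq
  have hB : Integrable (fun t : ℝ => (Real.exp (-μ * t) : ℂ) * ∫ w, Ph φ f w ∂(m t)) (volume.restrict (Ioi 0)) := by
    refine hA.congr ?_
    filter_upwards [ae_restrict_mem measurableSet_Ioi] with t ht
    exact hAeq t ht
  rw [hleft]
  have hPc := Ph_cont φ hc C hC f
  have hPz := Ph_zero φ hc hφs C hC f
  have hre := hRM1 d m μ E hm hμ hE (fun w => (Ph φ f w).re) (Complex.continuous_re.comp hPc)
    (by
      have := (Complex.continuous_re.tendsto 0).comp hPz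
      rw [Complex.zero_re] at this
      exact this)
  have him := hRM1 d m μ E hm hμ hE (fun w => (Ph φ f w).im) (Complex.continuous_im.comp hPc)
    (by
      have := (Complex.continuous_im.tendsto 0).comp hPz
      rw [Complex.zero_im] at this
      exact this)
  have hPi : ∀ t, 0 ≤ t → Integrable (Ph φ f) (m t) := by
    intro t ht
    haveI := hfin t ht
    exact (integrable_const (C * ‖f‖)).mono' hPc.aestronglyMeasurable
      (Eventually.of_forall fun w => Ph_bdd φ hc C hC f w)
  have hPE : Integrable (fun w => Ph φ f w * (E w : ℂ)) :=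
    hEc.bdd_mul hPc.aestronglyMeasurable (Eventually.of_forall fun w => Ph_bdd φ hc C hC f w)
  apply Complex.ext
  · have h1 := integral_re hB
    have h2 := integral_re hPE
    simp only [RCLike.re_eq_complex_re] at h1 h2
    rw [← h1, ← h2]
    have e1 : ∫ t in Ioi (0 : ℝ), ((Real.exp (-μ * t) : ℂ) * ∫ w, Ph φ f w ∂(m t)).re =
        ∫ t in Ioi (0 : ℝ), Real.exp (-μ * t) * ∫ w, (Ph φ f w).re ∂(m t) := by
      refine setIntegral_congr_fun measurableSet_Ioi fun t ht => ?_
      have h3 := integral_re (hPi t (le_of_lt ht))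
      simp only [RCLike.re_eq_complex_re] at h3
      simp only [h3, Complex.re_ofReal_mul]
    rw [e1, hre]
    congr 1
    funext w
    simp [Complex.mul_re]
  · have h1 := integral_im hB
    have h2 := integral_im hPE
    simp only [RCLike.im_eq_complex_im] at h1 h2
    rw [← h1, ← h2]
    have e1 : ∫ t in Ioi (0 : ℝ), ((Real.exp (-μ * t) : ℂ) * ∫ w, Ph φ f w ∂(m t)).im =
        ∫ t in Ioi (0 : ℝ), Real.exp (-μ * t) * ∫ w, (Ph φ f w).im ∂(m t) := by
      refine setIntegral_congr_fun measurableSet_Ioi fun t ht => ?_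
      have h3 := integral_im (hPi t (le_of_lt ht))
      simp only [RCLike.im_eq_complex_im] at h3
      simp only [h3, Complex.im_ofReal_mul]
    rw [e1, him]
    congr 1
    funext w
    simp [Complex.mul_im]

end Pool.Agent.T2H92.RS
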