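import Pool.Agent.T2H92.RS.Stm

/-!
# Package RM3: the density is nonnegative, even, and has integral at most `1 / μ`
-/

set_option autoImplicit false

namespace Pool.Agent.T2H92.RS

open MeasureTheory Filter Topology Set
open scoped ENNReal NNReal

namespace PkgRM3

/-- cut-off functions -/
noncomputable def cut {d : ℕ} (k : ℕ) (x : X d) : ℝ := max 0 (min 1 ((k : ℝ) + 1 - ‖x‖))

theorem cut_cont {d : ℕ} (k : ℕ) : Continuous (cut (d := d) k) := by
  unfold cut
  fun_prop

theorem cut_nonneg {d : ℕ} (k : ℕ) (x : X d) : 0 ≤ cut k x := le_max_left _ _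

theorem cut_le {d : ℕ} (k : ℕ) (x : X d) : cut k x ≤ 1 := max_le zero_le_one (min_le_left _ _)

theorem cut_supp {d : ℕ} (k : ℕ) : HasCompactSupport (cut (d := d) k) := by
  apply HasCompactSupport.intro (isCompact_closedBall (0 : X d) ((k : ℝ) + 1))
  intro x hx
  rw [Metric.mem_closedBall, dist_zero_right, not_le] at hx
  unfold cut
  apply max_eq_left
  exact (min_le_right _ _).trans (by linarith)

theorem cut_lim {d : ℕ} (x : X d) : Tendsto (fun k : ℕ => cut k x) atTop (𝓝 1) := by
  apply tendsto_const_nhds.congr'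
  filter_upwards [eventually_ge_atTop ⌈‖x‖⌉₊] with k hk
  have h1 : ‖x‖ ≤ k := (Nat.le_ceil _).trans (by exact_mod_cast hk)
  unfold cut
  rw [min_eq_left (by linarith), max_eq_right zero_le_one]

theorem fin_m {d : ℕ} {m : ℝ → Measure (X d)} (hm : ConvSG m) {t : ℝ} (ht : 0 ≤ t) :
    IsFiniteMeasure (m t) := ⟨lt_of_le_of_lt (hm.mass t ht) ENNReal.one_lt_top⟩

theorem int_le_one {d : ℕ} {m : ℝ → Measure (X d)} (hm : ConvSG m) {t : ℝ} (ht : 0 ≤ t)
    {φ : X d → ℝ} (hφ1 : ∀ x, φ x ≤ 1) (hφ0 : ∀ x, 0 ≤ φ x) (hφc : Continuous φ) :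
    ∫ x, φ x ∂(m t) ≤ 1 := by
  have := fin_m hm ht
  have h1 : ∫ x, φ x ∂(m t) ≤ ∫ _x, (1 : ℝ) ∂(m t) := by
    apply integral_mono_of_nonneg (Filter.Eventually.of_forall hφ0) (integrable_const 1)
      (Filter.Eventually.of_forall hφ1)
  rw [integral_const, smul_eq_mul, mul_one] at h1
  have h2 : (m t).real univ ≤ 1 := by
    unfold Measure.real
    exact ENNReal.toReal_le_of_le_ofReal zero_le_one (by simpa using hm.mass t ht)
  linarith

end PkgRM3

open PkgRM3 in
theorem pRM3 (_hVC : S_VC) : S_RM3 := by
  intro d m μ E hm hμ hE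
  obtain ⟨hEi, hEd⟩ := hE
  refine ⟨?_, ?_, ?_⟩
  · -- nonnegative
    let φ : ℕ → ContDiffBump (0 : X d) := fun k =>
      ⟨1 / ((k : ℝ) + 1), 2 / ((k : ℝ) + 1), by positivity, by
        apply div_lt_div_of_pos_right (by norm_num) (by positivity)⟩
    have h1 : Tendsto (fun k => (φ k).rOut) atTop (𝓝 0) := by
      have : Tendsto (fun k : ℕ => (2 : ℝ) * (1 / ((k : ℝ) + 1))) atTop (𝓝 (2 * 0)) :=
        tendsto_one_div_add_atTop_nhds_zero_nat.const_mul 2
      rw [mul_zero] at this
      refine this.congr ?_
      intro k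
      show (2 : ℝ) * (1 / ((k : ℝ) + 1)) = 2 / ((k : ℝ) + 1)
      ring
    have h2 : ∀ᶠ k in atTop, (φ k).rOut ≤ 2 * (φ k).rIn := by
      apply Filter.Eventually.of_forall
      intro k
      show 2 / ((k : ℝ) + 1) ≤ 2 * (1 / ((k : ℝ) + 1))
      rw [mul_one_div]
    have h3 := ContDiffBump.ae_convolution_tendsto_right_of_locallyIntegrable
      (μ := (volume : Measure (X d))) h1 h2 hEi.locallyIntegrable
    filter_upwards [h3] with x hx
    apply ge_of_tendsto hx
    apply Filter.Eventually.of_forall
    intro k
    have h4 : MeasureTheory.convolution ((φ k).normed volume) E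
          (ContinuousLinearMap.lsmul ℝ ℝ) volume x
        = ∫ y, (φ k).normed volume (x - y) * E y := by
      rw [MeasureTheory.convolution_def]
      rw [← integral_sub_left_eq_self (fun t => ((ContinuousLinearMap.lsmul ℝ ℝ)
        ((φ k).normed volume t)) (E (x - t))) volume x]
      apply integral_congr_ae
      apply Filter.Eventually.of_forall
      intro y
      simp
    rw [h4, ← hEd (fun y => (φ k).normed volume (x - y))]
    · apply setIntegral_nonneg measurableSet_Ioi
      intro t _
      apply mul_nonneg (Real.exp_pos _).le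
      apply integral_nonneg
      intro y
      exact (φ k).nonneg_normed _
    · exact ((φ k).continuous_normed).comp (continuous_const.sub continuous_id)
    · have hcs : HasCompactSupport ((φ k).normed (volume : Measure (X d))) :=
        (φ k).hasCompactSupport_normed
      exact hcs.comp_homeomorph (Homeomorph.subLeft x)
  · -- even
    apply ae_eq_of_integral_contDiff_smul_eq hEi.comp_neg.locallyIntegrable hEi.locallyIntegrable
    intro g hg hgs
    simp only [smul_eq_mul]
    have h1 : ∫ x, g x * E (-x) = ∫ x, g (-x) * E x := by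
      rw [← integral_neg_eq_self (fun x => g x * E (-x)) volume]
      simp only [neg_neg]
    rw [h1, ← hEd g hg.continuous hgs, ← hEd (fun x => g (-x)) (hg.continuous.comp continuous_neg)
      (hgs.comp_homeomorph (Homeomorph.neg (X d)))]
    apply setIntegral_congr_fun measurableSet_Ioi
    intro t ht
    simp only
    congr 1
    have h2 := hm.symm t (le_of_lt ht)
    have h3 : ∫ x, g x ∂(m t) = ∫ x, g x ∂((m t).map (fun x => -x)) := by rw [h2]
    rw [h3, integral_map measurable_neg.aemeasurable]
    exact hg.continuous.aestronglyMeasurable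
  · -- mass
    have h1 : Tendsto (fun k : ℕ => ∫ x, cut k x * E x) atTop (𝓝 (∫ x, 1 * E x)) := by
      apply tendsto_integral_of_dominated_convergence (fun x => ‖E x‖)
      · intro k
        exact (cut_cont k).aestronglyMeasurable.mul hEi.aestronglyMeasurable
      · exact hEi.norm
      · intro k
        apply Filter.Eventually.of_forall
        intro x
        rw [norm_mul, Real.norm_of_nonneg (cut_nonneg k x)]
        exact mul_le_of_le_one_left (norm_nonneg _) (cut_le k x)
      · apply Filter.Eventually.of_forall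
        intro x
        exact (cut_lim x).mul_const (E x)
    simp only [one_mul] at h1
    apply le_of_tendsto h1
    apply Filter.Eventually.of_forall
    intro k
    rw [← hEd (cut k) (cut_cont k) (cut_supp k)]
    have h2 : IntegrableOn (fun t : ℝ => Real.exp (-μ * t)) (Ioi 0) :=
      exp_neg_integrableOn_Ioi 0 hμ
    have h3 : ∫ t in Ioi (0 : ℝ), Real.exp (-μ * t) = 1 / μ := by
      have := integral_exp_mul_Ioi (a := -μ) (by linarith) 0
      rw [this]
      simp
    by_cases hint : IntegrableOn (fun t : ℝ => Real.exp (-μ * t) * ∫ x, cut k x ∂(m t)) (Ioi 0)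
    · rw [← h3]
      apply setIntegral_mono_on hint h2 measurableSet_Ioi
      intro t ht
      apply mul_le_of_le_one_right (Real.exp_pos _).le
      exact int_le_one hm (le_of_lt ht) (cut_le k) (cut_nonneg k) (cut_cont k)
    · rw [integral_undef hint]
      positivity

end Pool.Agent.T2H92.RS
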