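import Pool.Agent.T2H92.RS.Stm

set_option autoImplicit false

/-! RS package SPC (helper69) -/

namespace Pool.Agent.T2H92.RS

open MeasureTheory Filter Topology Set
open scoped ENNReal NNReal

theorem pSPC : S_SPC := by
  intro B _ _ _ R hR
  -- the spectrum is real
  have key : ∀ z ∈ spectrum ℂ R, z.im = 0 := by
    intro z₀ hz₀
    by_contra hne
    obtain ⟨s, hs, hs1, hs0⟩ : ∃ s : ℝ, s * s = 1 ∧ |s| = 1 ∧ 0 < s * z₀.im := by
      rcases lt_or_gt_of_ne hne with h | h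
      · exact ⟨-1, by norm_num, by norm_num, by linarith⟩
      · exact ⟨1, by norm_num, by norm_num, by linarith⟩
    obtain ⟨z₁, hz₁, hmax⟩ := (spectrum.isCompact (𝕜 := ℂ) R).exists_isMaxOn ⟨z₀, hz₀⟩
      (f := fun w : ℂ => s * w.im) (by fun_prop)
    have h1 : 0 < s * z₁.im := lt_of_lt_of_le hs0 (hmax hz₀)
    have h1' : z₁.im ≠ 0 := by
      intro h
      rw [h, mul_zero] at h1
      exact lt_irrefl _ h1
    obtain ⟨C₀, hC₀⟩ := hR z₁ h1'
    obtain ⟨C, hC0, hC⟩ : ∃ C : ℝ, 0 < C ∧ ∀ u, ‖u‖ ≤ C * ‖z₁ • u - R u‖ := by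
      refine ⟨max C₀ 1, lt_max_of_lt_right one_pos, fun u => (hC₀ u).trans ?_⟩
      exact mul_le_mul_of_nonneg_right (le_max_left _ _) (norm_nonneg _)
    obtain ⟨δ, hδ⟩ : ∃ δ : ℝ, δ = 1 / (4 * C) := ⟨_, rfl⟩
    have hδ0 : 0 < δ := by rw [hδ]; positivity
    have hCδ : C * δ = 1 / 4 := by rw [hδ]; field_simp
    obtain ⟨e, he⟩ : ∃ e : ℂ, e = ((s * δ : ℝ) : ℂ) * Complex.I := ⟨_, rfl⟩
    have he1 : ‖e‖ = δ := by
      rw [he, norm_mul, Complex.norm_I, mul_one, Complex.norm_real, Real.norm_eq_abs, abs_mul, hs1,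
        one_mul, abs_of_pos hδ0]
    have he2 : e.im = s * δ := by rw [he]; simp
    have hz2 : z₁ + e ∉ spectrum ℂ R := by
      intro h
      have h2 : s * (z₁ + e).im ≤ s * z₁.im := hmax h
      rw [Complex.add_im, he2, mul_add, ← mul_assoc, hs, one_mul] at h2
      linarith
    rw [spectrum.notMem_iff] at hz2
    obtain ⟨U, hU⟩ := hz2
    have hUu : ∀ u, (U : B →L[ℂ] B) u = (z₁ + e) • u - R u := by
      intro u
      rw [hU, ContinuousLinearMap.sub_apply, Algebra.algebraMap_eq_smul_one]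
      simp
    have hnorm : ‖((U⁻¹ : (B →L[ℂ] B)ˣ) : B →L[ℂ] B)‖ ≤ 4 * C / 3 := by
      refine ContinuousLinearMap.opNorm_le_bound _ (by positivity) fun v => ?_
      obtain ⟨u, hu⟩ : ∃ u, u = ((U⁻¹ : (B →L[ℂ] B)ˣ) : B →L[ℂ] B) v := ⟨_, rfl⟩
      rw [← hu]
      have h2 : (U : B →L[ℂ] B) u = v := by
        rw [hu, ← ContinuousLinearMap.mul_apply, Units.mul_inv]
        rfl
      rw [hUu, add_smul] at h2
      have h3 : z₁ • u - R u = v - e • u := by rw [← h2]; abel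
      have h4 := hC u
      rw [h3] at h4
      have h5 : ‖v - e • u‖ ≤ ‖v‖ + δ * ‖u‖ := by
        refine (norm_sub_le _ _).trans ?_
        rw [norm_smul, he1]
      have h6 : ‖u‖ ≤ C * (‖v‖ + δ * ‖u‖) := h4.trans (mul_le_mul_of_nonneg_left h5 hC0.le)
      have h7 : C * (‖v‖ + δ * ‖u‖) = C * ‖v‖ + 1 / 4 * ‖u‖ := by rw [← hCδ]; ring
      rw [h7] at h6
      linarith
    obtain ⟨x, hx⟩ : ∃ x : B →L[ℂ] B, x = e • ((U⁻¹ : (B →L[ℂ] B)ˣ) : B →L[ℂ] B) := ⟨_, rfl⟩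
    have hx1 : ‖x‖ < 1 := by
      rw [hx, norm_smul, he1]
      calc δ * ‖((U⁻¹ : (B →L[ℂ] B)ˣ) : B →L[ℂ] B)‖ ≤ δ * (4 * C / 3) :=
            mul_le_mul_of_nonneg_left hnorm hδ0.le
        _ = 4 / 3 * (C * δ) := by ring
        _ < 1 := by rw [hCδ]; norm_num
    have hunit : IsUnit ((algebraMap ℂ (B →L[ℂ] B)) z₁ - R) := by
      have h2 : (algebraMap ℂ (B →L[ℂ] B)) z₁ - R = (U : B →L[ℂ] B) * (1 - x) := by
        rw [mul_sub, mul_one, hx, mul_smul_comm, Units.mul_inv, hU, map_add,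
          Algebra.algebraMap_eq_smul_one, Algebra.algebraMap_eq_smul_one]
        abel
      rw [h2]
      exact U.isUnit.mul (isUnit_one_sub_of_norm_lt_one hx1)
    exact (spectrum.mem_iff.1 hz₁) hunit
  intro z hz
  have h : z ∉ spectrum ℂ R := fun h => hz (key z h)
  rw [spectrum.notMem_iff] at h
  obtain ⟨U, hU⟩ := h
  have hUu : ∀ u, (U : B →L[ℂ] B) u = z • u - R u := by
    intro u
    rw [hU, ContinuousLinearMap.sub_apply, Algebra.algebraMap_eq_smul_one]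
    simp
  refine ⟨((U⁻¹ : (B →L[ℂ] B)ˣ) : B →L[ℂ] B), fun u => ?_, fun u => ?_⟩
  · rw [← hUu, ← ContinuousLinearMap.mul_apply, Units.inv_mul]
    rfl
  · rw [← hUu, ← ContinuousLinearMap.mul_apply, Units.mul_inv]
    rfl

end Pool.Agent.T2H92.RS
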