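import Pool.Agent.T2H92.RS.Stm
import Pool.Agent.T2H92.RS.REG

/-! # RS: package SRC -/

set_option autoImplicit false

namespace Pool.Agent.T2H92.RS

open MeasureTheory Filter Topology Set
open scoped ENNReal NNReal

namespace PkgSRC

open PkgREG

/-- a function dominated by a sum of two convolutions is a sum -/
lemma split {d : ℕ} (B : Bas d) {R : L1 d →L[ℂ] L1 d} {E E' E'' : X d → ℝ≥0∞}
    (hE' : Measurable E') (hE'' : Measurable E'') (hEE : ∀ x, E x = E' x + E'' x)
    (hEi : ∫⁻ x, E x ≠ ∞) (hD : Dom R E) (g : L1 d) :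
    ∃ p q : L1 d, R g = p + q ∧ (∀ᵐ x, mo p x ≤ cv E' (mo g) x) ∧
      ∀ᵐ x, mo q x ≤ cv E'' (mo g) x := by
  set a := cv E' (mo g) with ha
  set b := cv E'' (mo g) with hb
  have hg := mo_meas g
  have ham : Measurable a := B.cv_meas _ _ hE' hg
  have hbm : Measurable b := B.cv_meas _ _ hE'' hg
  have hE : Measurable E := by
    have : E = fun x => E' x + E'' x := funext hEE
    rw [this]
    exact hE'.add hE''
  have hab : ∀ x, cv E (mo g) x = a x + b x := by
    intro x
    rw [ha, hb]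
    unfold cv
    have h0 : Measurable fun y => E' (x - y) * mo g y :=
      (hE'.comp (measurable_const.sub measurable_id)).mul hg
    rw [← lintegral_add_left h0]
    refine lintegral_congr fun y => ?_
    rw [hEE, add_mul]
  have hfin : ∀ᵐ x, cv E (mo g) x < ∞ := by
    apply ae_lt_top (B.cv_meas _ _ hE hg)
    rw [B.cv_int _ _ hE hg, lint_mo]
    exact ENNReal.mul_ne_top hEi enorm_ne_top
  set ρ : X d → ℝ := fun x => (a x).toReal / ((a x).toReal + (b x).toReal) with hρ
  have hρm : Measurable ρ := ham.ennreal_toReal.div (ham.ennreal_toReal.add hbm.ennreal_toReal)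
  have hρ0 : ∀ x, 0 ≤ ρ x := fun x => by positivity
  have hρ1 : ∀ x, ρ x ≤ 1 := by
    intro x
    rw [hρ]
    apply div_le_one_of_le₀
    · have : 0 ≤ (b x).toReal := ENNReal.toReal_nonneg
      linarith
    · positivity
  have hmem : MemLp (fun x => (ρ x : ℂ) * R g x) 1 (volume : Measure (X d)) := by
    refine (Lp.memLp (R g)).of_le ?_ ?_
    · exact (Complex.measurable_ofReal.comp hρm).aestronglyMeasurable.mul
        (Lp.aestronglyMeasurable (R g))
    · refine Eventually.of_forall fun x => ?_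
      rw [norm_mul, Complex.norm_real, Real.norm_of_nonneg (hρ0 x)]
      calc ρ x * ‖R g x‖ ≤ 1 * ‖R g x‖ := mul_le_mul_of_nonneg_right (hρ1 x) (norm_nonneg _)
        _ = ‖R g x‖ := one_mul _
  set p : L1 d := hmem.toLp _ with hp
  have hpx : p =ᵐ[volume] fun x => (ρ x : ℂ) * R g x := hmem.coeFn_toLp
  have hreal : ∀ᵐ x, ‖R g x‖ ≤ (a x).toReal + (b x).toReal ∧ a x ≠ ∞ ∧ b x ≠ ∞ := by
    filter_upwards [hD g, hfin] with x h1 h2
    rw [hab] at h1 h2
    have ha' : a x ≠ ∞ := ne_top_of_le_ne_top h2.ne le_self_add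
    have hb' : b x ≠ ∞ := ne_top_of_le_ne_top h2.ne le_add_self
    refine ⟨?_, ha', hb'⟩
    have := ENNReal.toReal_mono h2.ne h1
    rwa [ENNReal.toReal_add ha' hb', mo, toReal_enorm] at this
  refine ⟨p, R g - p, by abel, ?_, ?_⟩
  · filter_upwards [hpx, hreal] with x h1 h2
    obtain ⟨h2, h3, h4⟩ := h2
    rw [mo, h1, ← ofReal_norm, ← ENNReal.ofReal_toReal h3]
    apply ENNReal.ofReal_le_ofReal
    rw [norm_mul, Complex.norm_real, Real.norm_of_nonneg (hρ0 x)]
    have hA : 0 ≤ (a x).toReal := ENNReal.toReal_nonneg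
    have hB : 0 ≤ (b x).toReal := ENNReal.toReal_nonneg
    rcases eq_or_lt_of_le (add_nonneg hA hB) with h5 | h5
    · have : ‖R g x‖ = 0 := le_antisymm (by rw [h5]; exact h2) (norm_nonneg _)
      rw [this, mul_zero]
      exact hA
    · calc ρ x * ‖R g x‖ ≤ ρ x * ((a x).toReal + (b x).toReal) :=
            mul_le_mul_of_nonneg_left h2 (hρ0 x)
        _ = (a x).toReal := div_mul_cancel₀ _ h5.ne'
  · filter_upwards [hpx, hreal, Lp.coeFn_sub (R g) p] with x h1 h2 h6
    obtain ⟨h2, h3, h4⟩ := h2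
    rw [mo, h6, Pi.sub_apply, h1, ← ofReal_norm, ← ENNReal.ofReal_toReal h4]
    apply ENNReal.ofReal_le_ofReal
    have e : R g x - (ρ x : ℂ) * R g x = ((1 - ρ x : ℝ) : ℂ) * R g x := by push_cast; ring
    rw [e, norm_mul, Complex.norm_real, Real.norm_of_nonneg (by linarith [hρ1 x])]
    have hA : 0 ≤ (a x).toReal := ENNReal.toReal_nonneg
    have hB : 0 ≤ (b x).toReal := ENNReal.toReal_nonneg
    rcases eq_or_lt_of_le (add_nonneg hA hB) with h5 | h5
    · have : ‖R g x‖ = 0 := le_antisymm (by rw [h5]; exact h2) (norm_nonneg _)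
      rw [this, mul_zero]
      exact hB
    · calc (1 - ρ x) * ‖R g x‖ ≤ (1 - ρ x) * ((a x).toReal + (b x).toReal) :=
            mul_le_mul_of_nonneg_left h2 (by linarith [hρ1 x])
        _ = (a x).toReal + (b x).toReal - ρ x * ((a x).toReal + (b x).toReal) := by ring
        _ = (a x).toReal + (b x).toReal - (a x).toReal := by rw [hρ, div_mul_cancel₀ _ h5.ne']
        _ = (b x).toReal := by ring

/-- an almost everywhere convergent subsequence -/
lemma exists_sub {d : ℕ} {u : ℕ → L1 d} {v : L1 d} (h : Tendsto u atTop (𝓝 v)) :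
    ∃ ns : ℕ → ℕ, StrictMono ns ∧ ∀ᵐ x, Tendsto (fun i => u (ns i) x) atTop (𝓝 (v x)) := by
  have h1 := tendstoInMeasure_of_tendsto_Lp h
  exact h1.exists_seq_tendsto_ae

end PkgSRC

open PkgREG PkgSRC in
theorem pSRC (hBAS : S_BAS) (hAMC : S_AMC) (hTRU : S_TRU) : S_SRC := by
  intro d R E hE hEi hD N hN z hz
  have B := hBAS d
  set a : ℝ := ‖z‖ with ha
  have ha0 : 0 < a := norm_pos_iff.mpr hz
  obtain ⟨E', E'', hE', hE'', hEE, hamE, hE''i⟩ := hTRU d E hE hEi N hN (ENNReal.ofReal (a / 2))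
    (by rw [Ne, ENNReal.ofReal_eq_zero, not_le]; positivity)
  choose P Q hPQ hP hQ using split B hE' hE'' hEE hEi hD
  -- the bounds for one step
  have hQn : ∀ g, ‖Q g‖ ≤ a / 2 * ‖g‖ := by
    intro g
    have h1 : ‖Q g‖ₑ ≤ ENNReal.ofReal (a / 2) * ‖g‖ₑ := by
      rw [← lint_mo, ← lint_mo g]
      calc ∫⁻ x, mo (Q g) x ≤ ∫⁻ x, cv E'' (mo g) x := lintegral_mono_ae (hQ g)
        _ = (∫⁻ x, E'' x) * ∫⁻ x, mo g x := B.cv_int _ _ hE'' (mo_meas g)
        _ ≤ ENNReal.ofReal (a / 2) * ∫⁻ x, mo g x := mul_le_mul_left hE''i _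
    have h2 := ENNReal.toReal_mono (ENNReal.mul_ne_top ENNReal.ofReal_ne_top enorm_ne_top) h1
    rwa [ENNReal.toReal_mul, toReal_enorm, toReal_enorm, ENNReal.toReal_ofReal (by positivity)] at h2
  have hPa : ∀ g, am N (mo (P g)) ≤ ‖g‖ₑ * am N E' := by
    intro g
    refine (B.am_mono N _ _ (hP g)).trans ?_
    rw [B.cv_comm E' (mo g) hE' (mo_meas g), ← lint_mo g]
    exact hAMC d N (mo g) E' (mo_meas g) hE'
  set C : ℝ≥0∞ := ENNReal.ofReal (2 / a) * (1 + am N E') with hC
  have hCt : C ≠ ∞ := ENNReal.mul_ne_top ENNReal.ofReal_ne_top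
    (ENNReal.add_ne_top.mpr ⟨ENNReal.one_ne_top, hamE⟩)
  refine ⟨C, hCt, fun f => ?_⟩
  -- the orbit
  set F : ℕ → L1 d := fun k => Q^[k] f with hF
  have hF0 : F 0 = f := rfl
  have hFs : ∀ k, F (k + 1) = Q (F k) := fun k => Function.iterate_succ_apply' Q k f
  have hFn : ∀ k, ‖F k‖ ≤ (a / 2) ^ k * ‖f‖ := by
    intro k
    induction k with
    | zero => simp [hF0]
    | succ k ih =>
      rw [hFs, pow_succ']
      calc ‖Q (F k)‖ ≤ a / 2 * ‖F k‖ := hQn _
        _ ≤ a / 2 * ((a / 2) ^ k * ‖f‖) := mul_le_mul_of_nonneg_left ih (by positivity)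
        _ = a / 2 * (a / 2) ^ k * ‖f‖ := by ring
  have hterm : ∀ k, ‖(z⁻¹) ^ (k + 1) • F k‖ ≤ (1 / a * ‖f‖) * (1 / 2) ^ k := by
    intro k
    rw [norm_smul, norm_pow, norm_inv, ← ha]
    calc a⁻¹ ^ (k + 1) * ‖F k‖ ≤ a⁻¹ ^ (k + 1) * ((a / 2) ^ k * ‖f‖) :=
          mul_le_mul_of_nonneg_left (hFn k) (by positivity)
      _ = (1 / a * ‖f‖) * (1 / 2) ^ k := by
          rw [div_pow, pow_succ, inv_pow, one_div_pow]
          field_simp
  have hgeo : Summable fun k : ℕ => (1 / a * ‖f‖) * (1 / 2 : ℝ) ^ k :=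
    (summable_geometric_of_lt_one (by norm_num) (by norm_num)).mul_left _
  have hsum : Summable fun k => (z⁻¹) ^ (k + 1) • F k := Summable.of_norm_bounded hgeo hterm
  set w : L1 d := ∑' k, (z⁻¹) ^ (k + 1) • F k with hw
  have hwn : ‖w‖ ≤ 2 / a * ‖f‖ := by
    have h1 : ‖w‖ ≤ ∑' k : ℕ, (1 / a * ‖f‖) * (1 / 2 : ℝ) ^ k :=
      tsum_of_norm_bounded hgeo.hasSum hterm
    rw [tsum_mul_left, tsum_geometric_two] at h1
    calc ‖w‖ ≤ 1 / a * ‖f‖ * 2 := h1
      _ = 2 / a * ‖f‖ := by ring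
  refine ⟨w, ?_, ?_⟩
  · have h1 : ‖w‖ₑ ≤ ENNReal.ofReal (2 / a) * ‖f‖ₑ := by
      rw [← ofReal_norm, ← ofReal_norm, ← ENNReal.ofReal_mul (by positivity)]
      exact ENNReal.ofReal_le_ofReal hwn
    refine h1.trans (mul_le_mul_left ?_ _)
    rw [hC, mul_add, mul_one]
    exact le_self_add
  -- partial sums
  set W : ℕ → L1 d := fun n => ∑ k ∈ Finset.range n, (z⁻¹) ^ (k + 1) • F k with hW
  set S : ℕ → L1 d := fun n => ∑ k ∈ Finset.range n, (z⁻¹) ^ (k + 1) • P (F k) with hS
  have htel : ∀ n, S n = f - (z • W n - R (W n)) - (z⁻¹) ^ n • F n := by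
    intro n
    induction n with
    | zero => simp [hS, hW, hF0]
    | succ n ih =>
      have e1 : S (n + 1) = S n + (z⁻¹) ^ (n + 1) • P (F n) := Finset.sum_range_succ _ _
      have e2 : W (n + 1) = W n + (z⁻¹) ^ (n + 1) • F n := Finset.sum_range_succ _ _
      have e3 : P (F n) = R (F n) - F (n + 1) := by
        rw [hPQ (F n), hFs]; abel
      have e4 : z • (z⁻¹) ^ (n + 1) • F n = (z⁻¹) ^ n • F n := by
        rw [smul_smul]
        congr 1
        rw [pow_succ']
        rw [← mul_assoc, mul_inv_cancel₀ hz, one_mul]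
      have e5 : R (W n + (z⁻¹) ^ (n + 1) • F n) = R (W n) + (z⁻¹) ^ (n + 1) • R (F n) := by
        rw [ContinuousLinearMap.map_add, ContinuousLinearMap.map_smul]
      rw [e1, ih, e2, e5, e3, smul_add, e4, smul_sub]
      abel
  have hWlim : Tendsto W atTop (𝓝 w) := hsum.hasSum.tendsto_sum_nat
  have hzlim : Tendsto (fun n => (z⁻¹) ^ n • F n) atTop (𝓝 0) := by
    rw [tendsto_zero_iff_norm_tendsto_zero]
    have h1 : Tendsto (fun n : ℕ => (1 / 2 : ℝ) ^ n * ‖f‖) atTop (𝓝 0) := by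
      have := (tendsto_pow_atTop_nhds_zero_of_lt_one (r := (1 / 2 : ℝ)) (by norm_num)
        (by norm_num)).mul_const ‖f‖
      simpa using this
    refine squeeze_zero (fun n => norm_nonneg _) (fun n => ?_) h1
    rw [norm_smul, norm_pow, norm_inv, ← ha]
    calc a⁻¹ ^ n * ‖F n‖ ≤ a⁻¹ ^ n * ((a / 2) ^ n * ‖f‖) :=
          mul_le_mul_of_nonneg_left (hFn n) (by positivity)
      _ = (1 / 2) ^ n * ‖f‖ := by
          rw [div_pow, inv_pow, one_div_pow]
          field_simp
  have hSlim : Tendsto S atTop (𝓝 (f - (z • w - R w))) := by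
    have h1 : Tendsto (fun n => f - (z • W n - R (W n)) - (z⁻¹) ^ n • F n) atTop
        (𝓝 (f - (z • w - R w) - 0)) :=
      (tendsto_const_nhds.sub ((hWlim.const_smul z).sub ((R.continuous.tendsto w).comp hWlim))).sub
        hzlim
    rw [sub_zero] at h1
    exact h1.congr fun n => (htel n).symm
  obtain ⟨ns, _, hns⟩ := exists_sub hSlim
  -- the majorant
  set G' : ℕ → X d → ℝ≥0∞ := fun n x => ∑ k ∈ Finset.range n,
    ENNReal.ofReal (a⁻¹ ^ (k + 1)) * mo (P (F k)) x with hG'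
  have hG'm : ∀ n, Measurable (G' n) := by
    intro n
    apply Finset.measurable_fun_sum
    intro k _
    exact (mo_meas _).const_mul _
  have hG'mono : ∀ n x, G' n x ≤ G' (n + 1) x := by
    intro n x
    simp only [hG', Finset.sum_range_succ]
    exact le_self_add
  have hG'mono' : ∀ x, Monotone fun n => G' n x := fun x => monotone_nat_of_le_succ fun n => hG'mono n x
  have hG'am : ∀ n, am N (G' n) ≤ ∑ k ∈ Finset.range n,
      ENNReal.ofReal (a⁻¹ ^ (k + 1)) * (‖F k‖ₑ * am N E') := by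
    intro n
    induction n with
    | zero =>
      have h1 := B.am_smul N 0 (fun _ => 0) measurable_const
      simp only [hG', Finset.range_zero, Finset.sum_empty]
      simpa using h1
    | succ n ih =>
      have e1 : G' (n + 1) = fun x => G' n x +
          ENNReal.ofReal (a⁻¹ ^ (n + 1)) * mo (P (F n)) x := by
        funext x
        simp only [hG', Finset.sum_range_succ]
      rw [e1, Finset.sum_range_succ]
      refine (B.am_add N _ _ (hG'm n) ((mo_meas _).const_mul _)).trans (add_le_add ih ?_)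
      rw [B.am_smul N _ _ (mo_meas _)]
      exact mul_le_mul_right (hPa _) _
  have hG'am2 : ∀ n, am N (G' n) ≤ ENNReal.ofReal (2 / a) * ‖f‖ₑ * am N E' := by
    intro n
    refine (hG'am n).trans ?_
    have h1 : ∀ k, ENNReal.ofReal (a⁻¹ ^ (k + 1)) * (‖F k‖ₑ * am N E') ≤
        ENNReal.ofReal ((1 / a * ‖f‖) * (1 / 2) ^ k) * am N E' := by
      intro k
      rw [← mul_assoc]
      refine mul_le_mul_left ?_ _
      rw [← ofReal_norm, ← ENNReal.ofReal_mul (by positivity)]
      apply ENNReal.ofReal_le_ofReal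
      have := hterm k
      rwa [norm_smul, norm_pow, norm_inv, ← ha] at this
    refine (Finset.sum_le_sum fun k _ => h1 k).trans ?_
    rw [← Finset.sum_mul]
    refine mul_le_mul_left ?_ _
    rw [← ENNReal.ofReal_sum_of_nonneg (fun k _ => by positivity), ← ofReal_norm,
      ← ENNReal.ofReal_mul (by positivity)]
    apply ENNReal.ofReal_le_ofReal
    have h2 := hgeo.sum_le_tsum (Finset.range n) (fun k _ => by positivity)
    rw [tsum_mul_left, tsum_geometric_two] at h2
    calc _ ≤ 1 / a * ‖f‖ * 2 := h2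
      _ = 2 / a * ‖f‖ := by ring
  have hdom : ∀ᵐ x, mo (f - (z • w - R w)) x ≤ ⨆ n, G' n x := by
    have hpart : ∀ᵐ x, ∀ n, ‖S n x‖ₑ ≤ G' n x := by
      rw [ae_all_iff]
      intro n
      induction n with
      | zero =>
        have h1 : S 0 = 0 := Finset.sum_range_zero _
        rw [h1]
        filter_upwards [Lp.coeFn_zero ℂ 1 (volume : Measure (X d))] with x hx
        rw [hx, Pi.zero_apply, enorm_zero]
        exact zero_le
      | succ n ih =>
        have e1 : S (n + 1) = S n + (z⁻¹) ^ (n + 1) • P (F n) := Finset.sum_range_succ _ _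
        rw [e1]
        filter_upwards [ih, Lp.coeFn_add (S n) ((z⁻¹) ^ (n + 1) • P (F n)),
          Lp.coeFn_smul ((z⁻¹) ^ (n + 1)) (P (F n))] with x h1 h2 h3
        rw [h2, Pi.add_apply, h3, Pi.smul_apply]
        simp only [hG', Finset.sum_range_succ]
        refine (enorm_add_le _ _).trans (add_le_add h1 ?_)
        rw [smul_eq_mul, enorm_mul]
        refine le_of_eq ?_
        congr 1
        rw [← ofReal_norm, norm_pow, norm_inv]
    filter_upwards [hns, hpart] with x h1 h2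
    have h3 : Tendsto (fun i => ‖S (ns i) x‖ₑ) atTop
        (𝓝 ‖(f - (z • w - R w) : L1 d) x‖ₑ) := h1.enorm
    refine le_of_tendsto h3 (Eventually.of_forall fun i => ?_)
    exact (h2 (ns i)).trans (le_iSup (fun n => G' n x) (ns i))
  refine (B.am_mono N _ _ hdom).trans ?_
  refine (am_iSup B N G' hG'm hG'mono _ hG'am2).trans ?_
  rw [hC]
  calc ENNReal.ofReal (2 / a) * ‖f‖ₑ * am N E' = ENNReal.ofReal (2 / a) * am N E' * ‖f‖ₑ := by ring
    _ ≤ ENNReal.ofReal (2 / a) * (1 + am N E') * ‖f‖ₑ :=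
        mul_le_mul_left (mul_le_mul_right le_add_self _) _

end Pool.Agent.T2H92.RS
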