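import Pool.Agent.T2H92.RS.Stm
import Pool.Agent.T2H92.RS.MK
import Pool.Agent.T2H92.RS.L2B

/-! # RS: package SYN -/

set_option autoImplicit false

namespace Pool.Agent.T2H92.RS

open MeasureTheory Filter Topology Set
open scoped ENNReal NNReal

namespace PkgSYN

variable {d : ℕ}

lemma int_mul {u v : L1 d} (hu : n2 (mo u) ≠ ∞) (hv : n2 (mo v) ≠ ∞) :
    Integrable fun x => u x * (starRingEnd ℂ) (v x) := by
  refine ⟨?_, ?_⟩
  · exact ((Lp.stronglyMeasurable u).mul
      (Complex.continuous_conj.comp_stronglyMeasurable (Lp.stronglyMeasurable v))).aestronglyMeasurable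
  · rw [hasFiniteIntegral_iff_enorm]
    have h1 : ∫⁻ x, ‖u x * (starRingEnd ℂ) (v x)‖ₑ = ∫⁻ x, mo u x * mo v x := by
      refine lintegral_congr fun x => ?_
      rw [enorm_mul]
      unfold mo
      congr 1
      rw [← ofReal_norm, ← ofReal_norm, RCLike.norm_conj]
    rw [h1]
    exact lt_of_le_of_lt (PkgMK.cs _ _ (PkgL2B.mo_meas u) (PkgL2B.mo_meas v))
      (ENNReal.mul_lt_top hu.lt_top hv.lt_top)

lemma n2_ne {g : X d → ℝ≥0∞} : n2 g ≠ ∞ ↔ ∫⁻ x, g x ^ 2 ≠ ∞ := by
  rw [← PkgMK.n2_sq g]
  constructor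
  · intro h
    exact ENNReal.pow_ne_top h
  · intro h h'
    rw [h'] at h
    exact h (by simp)

end PkgSYN

open PkgSYN in
theorem pSYN (hYNG : S_YNG) : S_SYN := by
  intro d f F q W E hW hWb hE hEi hEs hf hF hq hFq
  obtain ⟨C, hC⟩ := hWb
  have hC0 : 0 ≤ C := (abs_nonneg _).trans (hC 0)
  -- `q` is in `L²`
  have hq2 : n2 (mo q) ≠ ∞ := by
    rw [n2_ne] at hf hF ⊢
    have h1 : ∫⁻ x, mo q x ^ 2 ≤ ∫⁻ x, (2 * mo f x ^ 2 + 2 * ENNReal.ofReal C ^ 2 * mo F x ^ 2) := by
      apply lintegral_mono_ae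
      filter_upwards [hq] with x hx
      have h2 : mo q x ≤ mo f x + ENNReal.ofReal C * mo F x := by
        rw [mo, hx]
        refine (enorm_add_le _ _).trans (add_le_add le_rfl ?_)
        rw [enorm_mul]
        apply mul_le_mul_left
        rw [← ofReal_norm, Complex.norm_real, Real.norm_eq_abs]
        exact ENNReal.ofReal_le_ofReal (hC x)
      calc mo q x ^ 2 ≤ (mo f x + ENNReal.ofReal C * mo F x) ^ 2 := by gcongr
        _ ≤ 2 * mo f x ^ 2 + 2 * (ENNReal.ofReal C * mo F x) ^ 2 := by
            have h3 := ENNReal.rpow_add_le_mul_rpow_add_rpow (mo f x)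
              (ENNReal.ofReal C * mo F x) (p := 2) (by norm_num)
            have e2 : (2 : ℝ≥0∞) ^ ((2 : ℝ) - 1) = 2 := by norm_num
            rw [e2] at h3
            have e3 : ∀ a : ℝ≥0∞, a ^ (2 : ℝ) = a ^ 2 := fun a => by
              rw [← ENNReal.rpow_natCast]; norm_num
            rw [e3, e3, e3, mul_add] at h3
            exact h3
        _ = 2 * mo f x ^ 2 + 2 * ENNReal.ofReal C ^ 2 * mo F x ^ 2 := by ring
    refine ne_top_of_le_ne_top ?_ h1
    rw [lintegral_add_left (((PkgL2B.mo_meas f).pow_const 2).const_mul 2),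
      lintegral_const_mul _ ((PkgL2B.mo_meas f).pow_const 2),
      lintegral_const_mul _ ((PkgL2B.mo_meas F).pow_const 2)]
    refine ENNReal.add_ne_top.mpr ⟨ENNReal.mul_ne_top (by norm_num) hf,
      ENNReal.mul_ne_top (ENNReal.mul_ne_top (by norm_num) (ENNReal.pow_ne_top ENNReal.ofReal_ne_top)) hF⟩
  have i1 := int_mul hF hf
  have i2 := int_mul hF hq2
  -- the product kernel
  set K : X d × X d → ℂ := fun p => ((E (p.1 - p.2) : ℝ) : ℂ) * q p.2 * (starRingEnd ℂ) (q p.1) with hK
  have hqm := (Lp.stronglyMeasurable q).measurable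
  have hEm : Measurable fun p : X d × X d => E (p.1 - p.2) :=
    hE.comp (measurable_fst.sub measurable_snd)
  have hKm : Measurable K :=
    ((Complex.measurable_ofReal.comp hEm).mul (hqm.comp measurable_snd)).mul
      (Complex.continuous_conj.measurable.comp (hqm.comp measurable_fst))
  have hEe : Measurable fun x => ‖E x‖ₑ := hE.enorm
  have hKi : Integrable K (volume.prod volume) := by
    refine ⟨hKm.aestronglyMeasurable, ?_⟩
    rw [hasFiniteIntegral_iff_enorm, lintegral_prod _ hKm.enorm.aemeasurable]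
    have h1 : ∀ x : X d, ∫⁻ y, ‖K (x, y)‖ₑ = mo q x * cv (fun x => ‖E x‖ₑ) (mo q) x := by
      intro x
      unfold cv
      rw [← lintegral_const_mul]
      · refine lintegral_congr fun y => ?_
        rw [hK]
        simp only
        rw [enorm_mul, enorm_mul, mul_comm]
        congr 1
        · unfold mo
          rw [← ofReal_norm, ← ofReal_norm, RCLike.norm_conj]
        · congr 1
          rw [← ofReal_norm, ← ofReal_norm, Complex.norm_real]
      · exact (hEe.comp (measurable_const.sub measurable_id)).mul (PkgL2B.mo_meas q)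
    simp only [h1]
    have hcvm : Measurable (cv (fun x => ‖E x‖ₑ) (mo q)) := by
      unfold cv
      have : Measurable fun p : X d × X d => ‖E (p.1 - p.2)‖ₑ * mo q p.2 :=
        (hEe.comp (measurable_fst.sub measurable_snd)).mul ((PkgL2B.mo_meas q).comp measurable_snd)
      exact this.lintegral_prod_right'
    refine lt_of_le_of_lt (PkgMK.cs _ _ (PkgL2B.mo_meas q) hcvm) ?_
    refine ENNReal.mul_lt_top hq2.lt_top (lt_of_le_of_lt (hYNG d _ _ hEe (PkgL2B.mo_meas q)) ?_)
    exact ENNReal.mul_lt_top (by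
      have := hEi.2
      rwa [hasFiniteIntegral_iff_enorm] at this) hq2.lt_top
  -- `∫ F conj q` is real
  have e1 : ∫ x, F x * (starRingEnd ℂ) (q x) = ∫ p, K p ∂(volume.prod volume) := by
    rw [integral_prod _ hKi]
    apply integral_congr_ae
    filter_upwards [hFq] with x hx
    rw [hx, ← integral_mul_const]
  have hsymm : ∀ᵐ p ∂((volume : Measure (X d)).prod (volume : Measure (X d))),
      E (p.2 - p.1) = E (p.1 - p.2) := by
    have hms : MeasurableSet {p : X d × X d | ¬ E (p.2 - p.1) = E (p.1 - p.2)} :=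
      (measurableSet_eq_fun (hE.comp (measurable_snd.sub measurable_fst)) hEm).compl
    rw [ae_iff, Measure.measure_prod_null hms]
    refine Eventually.of_forall fun x => ?_
    have h1 : ∀ᵐ y : X d, E (-(x - y)) = E (x - y) :=
      (quasiMeasurePreserving_sub_left volume x).ae hEs
    rw [ae_iff] at h1
    simp only [Pi.zero_apply]
    rw [← h1]
    congr 1
    ext y
    simp
  have hreal : (∫ p, K p ∂((volume : Measure (X d)).prod (volume : Measure (X d)))).im = 0 := by
    rw [← Complex.conj_eq_iff_im, ← integral_conj,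
      ← integral_prod_swap (fun p => (starRingEnd ℂ) (K p))]
    apply integral_congr_ae
    filter_upwards [hsymm] with p hp
    rw [hK]
    simp only [Prod.fst_swap, Prod.snd_swap, map_mul, Complex.conj_conj, Complex.conj_ofReal]
    rw [hp]
    ring
  -- conclusion
  have e2 : ∫ x, F x * (starRingEnd ℂ) (q x) =
      (∫ x, F x * (starRingEnd ℂ) (f x)) + ((∫ x, W x * ‖F x‖ ^ 2 : ℝ) : ℂ) := by
    have h1 : (fun x => F x * (starRingEnd ℂ) (q x)) =ᵐ[volume] fun x =>
        F x * (starRingEnd ℂ) (f x) + ((W x * ‖F x‖ ^ 2 : ℝ) : ℂ) := by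
      filter_upwards [hq] with x hx
      rw [hx, map_add, map_mul, Complex.conj_ofReal, mul_add]
      congr 1
      push_cast
      rw [← Complex.mul_conj']
      ring
    have i3 : Integrable fun x => ((W x * ‖F x‖ ^ 2 : ℝ) : ℂ) := by
      refine (i2.sub i1).congr ?_
      filter_upwards [h1] with x hx
      rw [Pi.sub_apply, hx]; ring
    rw [integral_congr_ae h1, integral_add i1 i3, integral_complex_ofReal]
  have e3 : (∫ x, F x * (starRingEnd ℂ) (f x)) =
      (∫ p, K p ∂(volume.prod volume)) - ((∫ x, W x * ‖F x‖ ^ 2 : ℝ) : ℂ) := by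
    rw [← e1, e2]; ring
  rw [e3, Complex.sub_im, hreal, Complex.ofReal_im, sub_zero]

end Pool.Agent.T2H92.RS
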