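import Pool.Agent.T2H92.RS.Stm

/-! # RS: package TSG -/

set_option autoImplicit false

namespace Pool.Agent.T2H92.RS

open MeasureTheory Filter Topology Set
open scoped ENNReal NNReal

theorem pTSG : S_TSG := by
  intro d Tn T c hC hb hlim hreg
  have hbT : ∀ t, 0 ≤ t → ‖T t‖ ≤ Real.exp (c * t) := by
    intro t ht
    refine ContinuousLinearMap.opNorm_le_bound _ (Real.exp_pos _).le fun f => ?_
    refine le_of_tendsto (hlim t ht f).norm (Eventually.of_forall fun n => ?_)
    exact ((Tn n t).le_opNorm f).trans (mul_le_mul_of_nonneg_right (hb n t ht) (norm_nonneg _))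
  refine ⟨⟨?_, ?_, hreg⟩, hbT⟩
  · ext1 f
    have h1 := hlim 0 le_rfl f
    have h2 : ∀ n, Tn n 0 f = f := fun n => by rw [(hC n).zero]; rfl
    simp only [h2] at h1
    exact (tendsto_nhds_unique h1 tendsto_const_nhds)
  · intro s t hs ht
    ext1 f
    have h1 := hlim (s + t) (add_nonneg hs ht) f
    have h2 : ∀ n, Tn n (s + t) f = Tn n s (Tn n t f) := fun n => by
      rw [(hC n).add s t hs ht]; rfl
    simp only [h2] at h1
    have h3 : Tendsto (fun n => Tn n s (Tn n t f)) atTop (𝓝 (T s (T t f))) := by
      have h4 := hlim s hs (T t f)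
      have h5 : Tendsto (fun n => Tn n s (Tn n t f) - Tn n s (T t f)) atTop (𝓝 0) := by
        rw [tendsto_zero_iff_norm_tendsto_zero]
        have h6 : Tendsto (fun n => Real.exp (c * s) * ‖Tn n t f - T t f‖) atTop (𝓝 0) := by
          have h7 : Tendsto (fun n => ‖Tn n t f - T t f‖) atTop (𝓝 0) := by
            rw [← tendsto_zero_iff_norm_tendsto_zero]
            have := (hlim t ht f).sub_const (T t f)
            rwa [sub_self] at this
          simpa using h7.const_mul (Real.exp (c * s))
        refine squeeze_zero (fun n => norm_nonneg _) (fun n => ?_) h6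
        rw [← map_sub]
        exact ((Tn n s).le_opNorm _).trans
          (mul_le_mul_of_nonneg_right (hb n s hs) (norm_nonneg _))
      have h8 := h5.add h4
      simpa using h8
    exact tendsto_nhds_unique h1 h3

end Pool.Agent.T2H92.RS
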