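import Pool.Agent.T2H92.RS.Stm

/-! # Package VC: continuity of `t ↦ ∫ Φ dm_t` -/

set_option autoImplicit false

namespace Pool.Agent.T2H92.RS

open MeasureTheory Filter Topology Set
open scoped ENNReal NNReal

namespace PkgVC

variable {d : ℕ} {m : ℝ → Measure (X d)}

theorem fin (hm : ConvSG m) {t : ℝ} (ht : 0 ≤ t) : IsFiniteMeasure (m t) :=
  ⟨lt_of_le_of_lt (hm.mass t ht) ENNReal.one_lt_top⟩

theorem inner (hm : ConvSG m) {h : ℝ} (hh : 0 ≤ h) (Φ : X d → ℝ) (hc : Continuous Φ)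
    (C : ℝ) (hC : ∀ x, |Φ x| ≤ C) (ε r : ℝ) (hε : 0 ≤ ε)
    (hr : ∀ x y, ‖y‖ < r → |Φ (x + y) - Φ x| ≤ ε) (x : X d) :
    |∫ y, Φ (x + y) ∂(m h) - Φ x| ≤ ε + 2 * C * (1 - (m h).real (Metric.ball 0 r)) := by
  have := fin hm hh
  have hC0 : 0 ≤ C := le_trans (abs_nonneg _) (hC x)
  set B : Set (X d) := Metric.ball 0 r with hB
  have hBm : MeasurableSet B := Metric.isOpen_ball.measurableSet
  have hi : Integrable (fun y => Φ (x + y)) (m h) :=
    Integrable.of_bound (by fun_prop : Continuous fun y => Φ (x + y)).aestronglyMeasurable C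
      (Eventually.of_forall fun y => by simpa using hC _)
  have h1 : ∫ y, Φ (x + y) ∂(m h) - Φ x =
      ∫ y, (Φ (x + y) - Φ x) ∂(m h) + ((m h).real univ - 1) * Φ x := by
    rw [integral_sub hi (integrable_const _), integral_const, smul_eq_mul]
    ring
  have h2 : |∫ y, (Φ (x + y) - Φ x) ∂(m h)| ≤ ε * (m h).real B + 2 * C * (m h).real Bᶜ := by
    have h3 : |∫ y, (Φ (x + y) - Φ x) ∂(m h)| ≤ ∫ y, |Φ (x + y) - Φ x| ∂(m h) :=
      abs_integral_le_integral_abs
    have hi2 : Integrable (fun y => |Φ (x + y) - Φ x|) (m h) := (hi.sub (integrable_const _)).abs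
    have h4 : ∫ y, |Φ (x + y) - Φ x| ∂(m h) ≤
        ∫ y, (B.indicator (fun _ => ε) y + Bᶜ.indicator (fun _ => 2 * C) y) ∂(m h) := by
      apply integral_mono hi2
      · exact ((integrable_const ε).indicator hBm).add ((integrable_const (2 * C)).indicator hBm.compl)
      · intro y
        by_cases hy : y ∈ B
        · have : |Φ (x + y) - Φ x| ≤ ε := hr x y (by simpa [hB] using hy)
          simpa [hy] using this
        · have h5 : |Φ (x + y) - Φ x| ≤ 2 * C := by
            have := abs_sub (Φ (x + y)) (Φ x)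
            have := hC (x + y)
            have := hC x
            linarith
          simpa [hy] using h5
    have h5 : ∫ y, (B.indicator (fun _ => ε) y + Bᶜ.indicator (fun _ => 2 * C) y) ∂(m h) =
        ε * (m h).real B + 2 * C * (m h).real Bᶜ := by
      rw [integral_add ((integrable_const ε).indicator hBm)
        ((integrable_const (2 * C)).indicator hBm.compl), integral_indicator_const _ hBm,
        integral_indicator_const _ hBm.compl, smul_eq_mul, smul_eq_mul]
      ring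
    linarith
  have hu : (m h).real univ ≤ 1 := by
    have := hm.mass h hh
    rw [Measure.real]
    exact ENNReal.toReal_mono ENNReal.one_ne_top this |>.trans (by simp)
  have hcomp : (m h).real Bᶜ = (m h).real univ - (m h).real B := measureReal_compl hBm
  have hB1 : 0 ≤ (m h).real B := measureReal_nonneg
  have hB2 : (m h).real B ≤ (m h).real univ := measureReal_mono (subset_univ _)
  rw [h1]
  have h6 : |((m h).real univ - 1) * Φ x| ≤ (1 - (m h).real univ) * C := by
    rw [abs_mul, abs_sub_comm, abs_of_nonneg (by linarith : (0 : ℝ) ≤ 1 - (m h).real univ)]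
    exact mul_le_mul_of_nonneg_left (hC x) (by linarith)
  have h7 := abs_add_le (∫ y, (Φ (x + y) - Φ x) ∂(m h)) (((m h).real univ - 1) * Φ x)
  rw [hcomp] at h2
  nlinarith [mul_nonneg hε (by linarith : (0 : ℝ) ≤ 1 - (m h).real B),
    mul_nonneg hC0 (by linarith : (0 : ℝ) ≤ 1 - (m h).real univ)]

theorem key (hm : ConvSG m) {t h : ℝ} (ht : 0 ≤ t) (hh : 0 ≤ h) (Φ : X d → ℝ) (hc : Continuous Φ)
    (C : ℝ) (hC : ∀ x, |Φ x| ≤ C) (ε r : ℝ) (hε : 0 ≤ ε)
    (hr : ∀ x y, ‖y‖ < r → |Φ (x + y) - Φ x| ≤ ε) :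
    |∫ x, Φ x ∂(m (t + h)) - ∫ x, Φ x ∂(m t)| ≤
      ε + 2 * C * (1 - (m h).real (Metric.ball 0 r)) := by
  have := fin hm hh
  have := fin hm ht
  have hC0 : 0 ≤ C := le_trans (abs_nonneg _) (hC 0)
  have hi : Integrable (fun p : X d × X d => Φ (p.1 + p.2)) ((m t).prod (m h)) :=
    Integrable.of_bound (by fun_prop : Continuous fun p : X d × X d => Φ (p.1 + p.2)).aestronglyMeasurable C
      (Eventually.of_forall fun y => by simpa using hC _)
  have h1 : ∫ x, Φ x ∂(m (t + h)) = ∫ x, (∫ y, Φ (x + y) ∂(m h)) ∂(m t) := by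
    rw [← hm.conv t h ht hh, integral_map (by fun_prop) hc.aestronglyMeasurable, integral_prod _ hi]
  have h2 : Integrable (fun x => ∫ y, Φ (x + y) ∂(m h)) (m t) := hi.integral_prod_left
  have h3 : Integrable Φ (m t) :=
    Integrable.of_bound hc.aestronglyMeasurable C (Eventually.of_forall fun y => by simpa using hC _)
  rw [h1, ← integral_sub h2 h3]
  set K := ε + 2 * C * (1 - (m h).real (Metric.ball 0 r)) with hK
  have hu : (m t).real univ ≤ 1 := by
    have := hm.mass t ht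
    rw [Measure.real]
    exact ENNReal.toReal_mono ENNReal.one_ne_top this |>.trans (by simp)
  have h4 : ‖∫ x, ((∫ y, Φ (x + y) ∂(m h)) - Φ x) ∂(m t)‖ ≤ K * (m t).real univ :=
    norm_integral_le_of_norm_le_const (Eventually.of_forall fun x => by
      rw [Real.norm_eq_abs]
      exact inner hm hh Φ hc C hC ε r hε hr x)
  have hK0 : 0 ≤ K := le_trans (abs_nonneg _) (inner hm hh Φ hc C hC ε r hε hr 0)
  rw [Real.norm_eq_abs] at h4
  nlinarith [mul_nonneg hK0 (by linarith : (0 : ℝ) ≤ 1 - (m t).real univ)]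

end PkgVC

open PkgVC in
theorem pVC (hMS2 : S_MS2) : S_VC := by
  intro d m hm Φ hc h0
  -- bounded and uniformly continuous
  let g : ZeroAtInftyContinuousMap (X d) ℝ := ⟨⟨Φ, hc⟩, h0⟩
  have huc : UniformContinuous Φ := ZeroAtInftyContinuousMap.uniformContinuous g
  obtain ⟨C, hC⟩ : ∃ C, ∀ x, |Φ x| ≤ C := by
    exact ⟨‖g.toBCF‖, fun x => g.toBCF.norm_coe_le_norm x⟩
  have hC0 : 0 ≤ C := le_trans (abs_nonneg _) (hC 0)
  -- modulus of continuity
  have hmod : ∀ η : ℝ, 0 < η → ∃ δ : ℝ, 0 < δ ∧ ∀ t h : ℝ, 0 ≤ t → 0 < h → h < δ →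
      |∫ x, Φ x ∂(m (t + h)) - ∫ x, Φ x ∂(m t)| < η := by
    intro η hη
    obtain ⟨r, hr0, hr⟩ := Metric.uniformContinuous_iff.1 huc (η / 4) (by positivity)
    have hr' : ∀ x y : X d, ‖y‖ < r → |Φ (x + y) - Φ x| ≤ η / 4 := by
      intro x y hy
      have := hr (a := x + y) (b := x) (by simpa [dist_eq_norm] using hy)
      rw [Real.dist_eq] at this
      exact this.le
    have h1 : Tendsto (fun t => (m t).real (Metric.ball 0 r)) (𝓝[>] 0) (𝓝 1) := by
      have := (ENNReal.tendsto_toReal ENNReal.one_ne_top).comp (hMS2 d m hm r hr0)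
      simpa [Measure.real, Function.comp_def] using this
    have h2 : Tendsto (fun t => η / 4 + 2 * C * (1 - (m t).real (Metric.ball 0 r))) (𝓝[>] 0)
        (𝓝 (η / 4 + 2 * C * (1 - 1))) :=
      (((tendsto_const_nhds).sub h1).const_mul _).const_add _
    have h3 : ∀ᶠ t in 𝓝[>] (0 : ℝ), η / 4 + 2 * C * (1 - (m t).real (Metric.ball 0 r)) < η :=
      h2.eventually_lt_const (by simp; linarith)
    obtain ⟨δ, hδ, hδ'⟩ := mem_nhdsGT_iff_exists_Ioo_subset.1 h3
    refine ⟨δ, hδ, fun t h ht hh hhδ => ?_⟩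
    exact lt_of_le_of_lt (key hm ht hh.le Φ hc C hC (η / 4) r (by positivity) hr')
      (hδ' ⟨hh, hhδ⟩)
  intro t₀ ht₀
  rw [mem_Ici] at ht₀
  rw [Metric.continuousWithinAt_iff]
  intro η hη
  obtain ⟨δ, hδ, hδ'⟩ := hmod η hη
  refine ⟨δ, hδ, fun t ht htt => ?_⟩
  rw [mem_Ici] at ht
  rw [Real.dist_eq] at htt ⊢
  rcases lt_trichotomy t t₀ with hlt | heq | hgt
  · have h1 := hδ' t (t₀ - t) ht (by linarith) (by rw [abs_lt] at htt; linarith)
    rw [abs_sub_comm]
    simpa using h1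
  · subst heq
    simpa using hη
  · have h1 := hδ' t₀ (t - t₀) ht₀ (by linarith) (by rw [abs_lt] at htt; linarith)
    simpa using h1

end Pool.Agent.T2H92.RS
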