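import Pool.Agent.T2H92.RS.Stm

/-! # RS: package YNG -/

set_option autoImplicit false

namespace Pool.Agent.T2H92.RS

open MeasureTheory Filter Topology Set
open scoped ENNReal NNReal

theorem pYNG (hBAS : S_BAS) (hMK : S_MK) : S_YNG := by
  intro d k g hk hg
  have B := hBAS d
  rw [B.cv_comm k g hk hg]
  have hF : Measurable (Function.uncurry fun t x : X d => g (x - t) * k t) :=
    (hg.comp (measurable_snd.sub measurable_fst)).mul (hk.comp measurable_fst)
  have h1 := hMK d (fun t x => g (x - t) * k t) hF
  have h2 : ∀ t : X d, n2 (fun x => g (x - t) * k t) = k t * n2 g := by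
    intro t
    have e1 : (fun x => g (x - t) * k t) = fun x => k t * g (x - t) := by
      funext x; rw [mul_comm]
    rw [e1, B.n2_smul (k t) (fun x => g (x - t)) (hg.comp (measurable_id.sub_const t))]
    congr 1
    unfold n2
    congr 1
    exact lintegral_sub_right_eq_self (fun x => g x ^ 2) t
  have h3 : ∫⁻ t, n2 (fun x => g (x - t) * k t) = (∫⁻ x, k x) * n2 g := by
    simp only [h2]
    rw [lintegral_mul_const _ hk]
  rw [h3] at h1
  exact h1

end Pool.Agent.T2H92.RS
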