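import Pool.Agent.T2H92.RS.Stm

/-! # RS: the a priori bound -/

set_option autoImplicit false

namespace Pool.Agent.T2H92.RS

open MeasureTheory Filter Topology Set
open scoped ENNReal NNReal

def S_APR : Prop := ∀ (d : ℕ) (R : L1 d →L[ℂ] L1 d) (E : X d → ℝ≥0∞), Measurable E → ∫⁻ x, E x ≠ ∞ →
  Dom R E → Sym R → ∀ z : ℂ, z.im ≠ 0 → ∃ C : ℝ, ∀ u : L1 d, ‖u‖ ≤ C * ‖z • u - R u‖

namespace PkgAPR

lemma meas_mo {d : ℕ} (f : L1 d) : Measurable (mo f) := by
  unfold mo
  exact (Lp.stronglyMeasurable f).measurable.enorm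

lemma enorm_eq {d : ℕ} (f : L1 d) : ‖f‖ₑ = ∫⁻ x, mo f x := by
  rw [Lp.enorm_def, eLpNorm_one_eq_lintegral_enorm]
  rfl

lemma wr_pos {d : ℕ} (N : ℝ) (s x : X d) : 0 < wr N s x := Real.exp_pos _

lemma wr_le {d : ℕ} {N : ℝ} (hN : 0 < N) (s x : X d) : wr N s x ≤ 1 := by
  unfold wr
  rw [Real.exp_le_one_iff]
  have : 0 ≤ ‖x - s‖ / N := by positivity
  linarith

lemma wr_cont {d : ℕ} (N : ℝ) (s : X d) : Continuous (wr N s) := by
  unfold wr
  fun_prop

lemma enorm_wr {d : ℕ} (N : ℝ) (s x : X d) : ‖(wr N s x : ℂ)‖ₑ = wt N s x := by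
  rw [wt, ← ofReal_norm, Complex.norm_real, Real.norm_of_nonneg (wr_pos N s x).le]

/-- the product with the weight, as an element of `L¹` -/
lemma exists_mul {d : ℕ} {N : ℝ} (hN : 0 < N) (s : X d) (v : L1 d) :
    ∃ w : L1 d, w =ᵐ[volume] fun x => (wr N s x : ℂ) * v x := by
  have h : MemLp (fun x => (wr N s x : ℂ) * v x) 1 (volume : Measure (X d)) := by
    refine (Lp.memLp v).of_le ?_ ?_
    · exact ((Complex.continuous_ofReal.comp (wr_cont N s)).aestronglyMeasurable).mul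
        (Lp.aestronglyMeasurable v)
    · refine Eventually.of_forall fun x => ?_
      rw [norm_mul, Complex.norm_real, Real.norm_of_nonneg (wr_pos N s x).le]
      calc wr N s x * ‖v x‖ ≤ 1 * ‖v x‖ :=
            mul_le_mul_of_nonneg_right (wr_le hN s x) (norm_nonneg _)
        _ = ‖v x‖ := one_mul _
  exact ⟨h.toLp _, h.coeFn_toLp⟩

end PkgAPR

open PkgAPR in
theorem pAPR (hBAS : S_BAS) (hAML : S_AML) (hCOM1 : S_COM1) (hCOM2 : S_COM2) (hL2B : S_L2B)
    (hREG : S_REG) (hSRC : S_SRC) : S_APR := by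
  intro d R E hE hEi hD hS z hz
  have B := hBAS d
  have hz0 : z ≠ 0 := by
    rintro rfl
    exact hz rfl
  set ι : ℝ≥0∞ := ENNReal.ofReal |z.im| with hι
  have hι0 : ι ≠ 0 := by
    rw [hι, Ne, ENNReal.ofReal_eq_zero, not_le]
    exact abs_pos.mpr hz
  have hιt : ι ≠ ∞ := ENNReal.ofReal_ne_top
  have hι2 : ι / 2 ≠ 0 := ENNReal.div_ne_zero.mpr ⟨hι0, by norm_num⟩
  have hι2t : ι / 2 ≠ ∞ := ENNReal.div_ne_top hιt (by norm_num)
  obtain ⟨N, hN, hcom⟩ := hCOM2 d E hE hEi (ι / 2) hι2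
  obtain ⟨C1, hC1, hsrc⟩ := hSRC d R E hE hEi hD N hN z hz0
  obtain ⟨C2, hC2, haml⟩ := hAML d N hN
  set C : ℝ≥0∞ := C2 * (C1 / (ι / 2)) + C1 with hC
  have hCt : C ≠ ∞ :=
    ENNReal.add_ne_top.mpr ⟨ENNReal.mul_ne_top hC2 (ENNReal.div_ne_top hC1 hι2), hC1⟩
  refine ⟨C.toReal, fun u => ?_⟩
  set f : L1 d := z • u - R u with hf
  obtain ⟨w, hw1, hw2⟩ := hsrc f
  set v : L1 d := u - w with hv
  set P : L1 d := f - (z • w - R w) with hP
  have hvP : z • v - R v = P := by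
    rw [hP, hf, hv, smul_sub, map_sub]; abel
  have hft : ‖f‖ₑ ≠ ∞ := enorm_ne_top
  have hPt : am N (mo P) ≠ ∞ := ne_top_of_le_ne_top (ENNReal.mul_ne_top hC1 hft) hw2
  have hvt : am N (mo v) ≠ ∞ := hREG d R E hE hEi hD N hN z hz0 v (by rwa [hvP])
  -- the localized bound
  have hmeasv := B.am_meas N (mo v) (meas_mo v)
  have hae : ∀ᵐ s : X d, n2 (fun x => wt N s x * mo v x) < ∞ := by
    apply ae_lt_top hmeasv
    exact hvt
  have hloc : ∀ᵐ s : X d, ι * n2 (fun x => wt N s x * mo v x) ≤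
      n2 (fun x => wt N s x * mo P x) +
        n2 (fun x => ∫⁻ y, E (x - y) * (ENNReal.ofReal |wr N s y - wr N s x| * mo v y)) := by
    filter_upwards [hae] with s hs
    obtain ⟨g, hg⟩ := exists_mul hN s v
    have hgm : ∀ᵐ x, mo g x = wt N s x * mo v x := by
      filter_upwards [hg] with x hx
      rw [mo, hx, enorm_mul, enorm_wr]
      rfl
    have hg2 : n2 (mo g) = n2 (fun x => wt N s x * mo v x) :=
      le_antisymm (B.n2_mono _ _ (hgm.mono fun x hx => hx.le))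
        (B.n2_mono _ _ (hgm.mono fun x hx => hx.ge))
    have h1 := hL2B d R E hE hEi hD hS z g (by rw [hg2]; exact hs.ne)
    rw [hg2] at h1
    refine h1.trans ?_
    have hc := hCOM1 d R E hE hEi hD N hN s v g hg
    have hP' : ∀ᵐ x, P x = z * v x - R v x := by
      rw [← hvP]
      filter_upwards [Lp.coeFn_sub (z • v) (R v), Lp.coeFn_smul z v] with x hx1 hx2
      rw [hx1, Pi.sub_apply, hx2, Pi.smul_apply, smul_eq_mul]
    have hle : ∀ᵐ x, mo (z • g - R g) x ≤ wt N s x * mo P x +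
        ∫⁻ y, E (x - y) * (ENNReal.ofReal |wr N s y - wr N s x| * mo v y) := by
      filter_upwards [hc, hg, hP', Lp.coeFn_sub (z • g) (R g), Lp.coeFn_smul z g]
        with x hx1 hx2 hx3 hx4 hx5
      have e : (z • g - R g : L1 d) x = (wr N s x : ℂ) * P x +
          ((wr N s x : ℂ) * R v x - R g x) := by
        rw [hx4, Pi.sub_apply, hx5, Pi.smul_apply, smul_eq_mul, hx2, hx3]; ring
      rw [mo, e]
      refine (enorm_add_le _ _).trans (add_le_add ?_ hx1)
      rw [enorm_mul, enorm_wr]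
      rfl
    refine (B.n2_mono _ _ hle).trans ?_
    apply B.n2_add
    · have h2 : Measurable (wt N s) := ENNReal.measurable_ofReal.comp (wr_cont N s).measurable
      exact h2.mul (meas_mo P)
    · have hmm : Measurable fun p : X d × X d =>
          E (p.1 - p.2) * (ENNReal.ofReal |wr N s p.2 - wr N s p.1| * mo v p.2) := by
        have a1 : Measurable fun p : X d × X d => E (p.1 - p.2) :=
          hE.comp (measurable_fst.sub measurable_snd)
        have a2 : Measurable fun p : X d × X d => ENNReal.ofReal |wr N s p.2 - wr N s p.1| := by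
          apply ENNReal.measurable_ofReal.comp
          have b1 : Continuous fun p : X d × X d => |wr N s p.2 - wr N s p.1| :=
            (((wr_cont N s).comp continuous_snd).sub ((wr_cont N s).comp continuous_fst)).abs
          exact b1.measurable
        exact a1.mul (a2.mul ((meas_mo v).comp measurable_snd))
      exact hmm.lintegral_prod_right'
  have hint : ι * am N (mo v) ≤ am N (mo P) + ι / 2 * am N (mo v) := by
    calc ι * am N (mo v) = ∫⁻ s, ι * n2 (fun x => wt N s x * mo v x) := by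
          rw [am, lintegral_const_mul _ hmeasv]
      _ ≤ ∫⁻ s, (n2 (fun x => wt N s x * mo P x) +
            n2 (fun x => ∫⁻ y, E (x - y) * (ENNReal.ofReal |wr N s y - wr N s x| * mo v y))) :=
          lintegral_mono_ae hloc
      _ = am N (mo P) + ∫⁻ s, n2 (fun x => ∫⁻ y, E (x - y) *
            (ENNReal.ofReal |wr N s y - wr N s x| * mo v y)) := by
          rw [lintegral_add_left (B.am_meas N (mo P) (meas_mo P))]
          rfl
      _ ≤ am N (mo P) + ι / 2 * am N (mo v) := add_le_add le_rfl (hcom (mo v) (meas_mo v))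
  have hA : ι / 2 * am N (mo v) ≤ am N (mo P) := by
    have e : ι * am N (mo v) = ι / 2 * am N (mo v) + ι / 2 * am N (mo v) := by
      rw [← add_mul, ENNReal.add_halves]
    rw [e, add_comm (am N (mo P))] at hint
    exact (ENNReal.add_le_add_iff_left (ENNReal.mul_ne_top hι2t hvt)).mp hint
  have hA' : am N (mo v) ≤ C1 / (ι / 2) * ‖f‖ₑ := by
    have h1 : am N (mo v) ≤ (C1 * ‖f‖ₑ) / (ι / 2) := by
      rw [ENNReal.le_div_iff_mul_le (Or.inl hι2) (Or.inl hι2t), mul_comm]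
      exact hA.trans hw2
    rwa [ENNReal.mul_div_right_comm] at h1
  have hv1 : ‖v‖ₑ ≤ C2 * (C1 / (ι / 2)) * ‖f‖ₑ := by
    rw [enorm_eq v]
    refine (haml (mo v) (meas_mo v)).trans ?_
    rw [mul_assoc]
    exact mul_le_mul_right hA' _
  have hu : ‖u‖ₑ ≤ C * ‖f‖ₑ := by
    have e : u = v + w := by rw [hv]; abel
    calc ‖u‖ₑ = ‖v + w‖ₑ := by rw [← e]
      _ ≤ ‖v‖ₑ + ‖w‖ₑ := enorm_add_le _ _
      _ ≤ C2 * (C1 / (ι / 2)) * ‖f‖ₑ + C1 * ‖f‖ₑ := add_le_add hv1 hw1
      _ = C * ‖f‖ₑ := by rw [hC, add_mul]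
  have h3 := ENNReal.toReal_mono (ENNReal.mul_ne_top hCt hft) hu
  rwa [ENNReal.toReal_mul, toReal_enorm, toReal_enorm] at h3

end Pool.Agent.T2H92.RS
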