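import Pool.Agent.T2H92.RS.APR

/-! # RS: assembly -/

set_option autoImplicit false

namespace Pool.Agent.T2H92.RS

open MeasureTheory Filter Topology Set
open scoped ENNReal NNReal

/-- the final statement -/
def S_FIN : Prop := ∀ (d : ℕ) (m : ℝ → Measure (X d)), ConvSG m →
  (∀ μ : ℝ, 0 < μ → ∃ E : X d → ℝ, IsDens m μ E) → ∀ V : X d → ℝ, Measurable V → ∀ c : ℝ, (∀ x, -c ≤ V x) →
  ∀ (M : ℝ → L1 d →L[ℂ] L1 d) (Tn : ℕ → ℝ → L1 d →L[ℂ] L1 d) (T : ℝ → L1 d →L[ℂ] L1 d),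
    Absorption m V M Tn T → SpecGen T ⊆ {z | z.im = 0}

namespace PkgFIN

/-- a measurable density -/
lemma exists_dens {d : ℕ} {m : ℝ → Measure (X d)} {μ : ℝ} (h : ∃ E : X d → ℝ, IsDens m μ E) :
    ∃ E : X d → ℝ, Measurable E ∧ IsDens m μ E := by
  obtain ⟨E, hE, hφ⟩ := h
  have h1 := hE.aestronglyMeasurable
  refine ⟨h1.mk E, h1.stronglyMeasurable_mk.measurable, hE.congr h1.ae_eq_mk, fun φ hc hs => ?_⟩
  rw [hφ φ hc hs]
  apply integral_congr_ae
  filter_upwards [h1.ae_eq_mk] with x hx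
  rw [hx]

lemma en_meas {d : ℕ} {E : X d → ℝ} (hE : Measurable E) : Measurable (en E) :=
  ENNReal.measurable_ofReal.comp hE

lemma en_int {d : ℕ} {E : X d → ℝ} (hE : Integrable E) (h0 : ∀ᵐ x, 0 ≤ E x) :
    ∫⁻ x, en E x = ENNReal.ofReal (∫ x, E x) := by
  rw [ofReal_integral_eq_lintegral_ofReal hE h0]
  rfl

/-- the modulus of a convolution -/
lemma mo_conv {d : ℕ} {E : X d → ℝ} (h0 : ∀ᵐ x, 0 ≤ E x) {F q : L1 d}
    (h : F =ᵐ[volume] fun x => ∫ y, (E (x - y) : ℂ) * q y) :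
    ∀ᵐ x, mo F x ≤ cv (en E) (mo q) x := by
  filter_upwards [h] with x hx
  rw [mo, hx]
  refine (enorm_integral_le_lintegral_enorm _).trans ?_
  unfold cv
  have h1 : ∀ᵐ y : X d, 0 ≤ E (x - y) :=
    (quasiMeasurePreserving_sub_left volume x).ae h0
  apply lintegral_mono_ae
  filter_upwards [h1] with y hy
  rw [enorm_mul]
  apply mul_le_mul_left
  rw [← ofReal_norm, Complex.norm_real, Real.norm_of_nonneg hy]
  rfl

end PkgFIN

open PkgFIN PkgAPR in
theorem pFIN (hBAS : S_BAS) (hYNG : S_YNG) (hAPR : S_APR) (hSPC : S_SPC) (hRGN : S_RGN)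
    (hLAP : S_LAP) (hBND : S_BND) (hMS1 : S_MS1) (hMS3 : S_MS3) (hRM2 : S_RM2) (hRM3 : S_RM3)
    (hDIS : S_DIS) (hFIX : S_FIX) (hREI : S_REI) (hDMN : S_DMN) (hSYN : S_SYN) (hCLO : S_CLO)
    (hLIM : S_LIM) (hTSG : S_TSG) : S_FIN := by
  intro d m hm hdens V hV c₀ hc₀ M Tn T hA
  have B := hBAS d
  -- a positive constant
  set c : ℝ := max c₀ 0 + 1 with hc
  have hcpos : 0 < c := by
    have := le_max_right c₀ 0
    linarith
  have hcV : ∀ x, -c ≤ V x := by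
    intro x
    have h1 := hc₀ x
    have h2 := le_max_left c₀ 0
    linarith
  -- the semigroup `M`
  obtain ⟨hM1, hM0, hMadd⟩ := hMS1 d m M hm hA.conv
  have hMC : C0SG M := ⟨hM0, hMadd, hMS3 d m M hm hA.conv hM1⟩
  have hM1' : ∀ t, 0 ≤ t → ‖M t‖ ≤ Real.exp (0 * t) := by
    intro t ht
    rw [zero_mul, Real.exp_zero]
    exact hM1 t ht
  -- bounds for `Tn` and `T`
  have hTn : ∀ n t, 0 ≤ t → ‖Tn n t‖ ≤ Real.exp (c * t) := fun n =>
    hBND d (Tn n) c hcpos.le (hA.sgn n) fun lam hlam f g hfg =>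
      hDIS d m V M Tn T c hcpos.le hV hcV hA hM1 n lam hlam f g hfg
  obtain ⟨hTC, hT⟩ := hTSG d Tn T c hA.sgn hTn hA.lim hA.reg
  set lam : ℝ := c + 1 with hlam
  have hclam : c < lam := by linarith
  obtain ⟨R, hR1, hR2, hR3⟩ := hLAP d T c lam hTC hT hclam
  have hRn := fun n => hLAP d (Tn n) c lam (hA.sgn n) (hTn n) hclam
  choose Rn hRn1 hRn2 hRn3 using hRn
  -- the resolvents of `M`
  obtain ⟨Ea, hEam, hEa⟩ := exists_dens (hdens 1 one_pos)
  obtain ⟨hEa0, hEas, hEai⟩ := hRM3 d m 1 Ea hm one_pos hEa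
  obtain ⟨Ra, hRa1, hRa2, hRa3⟩ := hLAP d M 0 1 hMC hM1' one_pos
  have hRac := hRM2 d m M 1 Ea Ra hm hA.conv one_pos hEa hRa1 hRa2
  have hEaint : ∫⁻ x, en Ea x ≠ ∞ := by
    rw [en_int hEa.1 hEa0]
    exact ENNReal.ofReal_ne_top
  -- domination and symmetry of `Rn`
  have hboth : ∀ n, Dom (Rn n) (en Ea) ∧ Sym (Rn n) := by
    intro n
    have hbpos : 0 < lam + n := by
      have : (0 : ℝ) ≤ n := Nat.cast_nonneg n
      linarith
    obtain ⟨Eb, hEbm, hEb⟩ := exists_dens (hdens (lam + n) hbpos)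
    obtain ⟨hEb0, hEbs, hEbi⟩ := hRM3 d m (lam + n) Eb hm hbpos hEb
    obtain ⟨Rb, hRb1, hRb2, hRb3⟩ := hLAP d M 0 (lam + n) hMC hM1' hbpos
    have hRbc := hRM2 d m M (lam + n) Eb Rb hm hA.conv hbpos hEb hRb1 hRb2
    have hn0 : (0 : ℝ) ≤ n := Nat.cast_nonneg n
    have hab : (1 : ℝ) < lam + n := by linarith
    set κ : ℝ≥0∞ := ENNReal.ofReal (lam + n - 1) with hκ
    have hκ' : lam + n - 1 = n + c := by rw [hlam]; ring
    have hκb : κ * ∫⁻ x, en Eb x < 1 := by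
      rw [en_int hEb.1 hEb0, hκ, ← ENNReal.ofReal_mul (by linarith), ENNReal.ofReal_lt_one]
      calc (lam + n - 1) * ∫ x, Eb x ≤ (lam + n - 1) * (1 / (lam + n)) :=
            mul_le_mul_of_nonneg_left hEbi (by linarith)
        _ = (lam + n - 1) / (lam + n) := by ring
        _ < 1 := by rw [div_lt_one hbpos]; linarith
    have hrei := hREI d M 1 (lam + n) Ra Rb Ea Eb hab (by simpa using hRa3) hRb3 hEam hEbm hEa.1
      hEb.1 hEa0 hEb0 hRac hRbc
    have hfix := hFIX d m V M Tn T hA n lam (Rn n) Rb (hRn3 n) hRb3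
    have hW : ∀ x, |(n : ℝ) - min (V x) n| ≤ n + c := by
      intro x
      rw [abs_of_nonneg (by linarith [min_le_right (V x) (n : ℝ)])]
      have : -c ≤ min (V x) n := le_min (hcV x) (by linarith)
      linarith
    have hDom : Dom (Rn n) (en Ea) := by
      intro f
      obtain ⟨q, hq1, hq2⟩ := hfix f
      have hF := hRbc q
      rw [hq2] at hF
      refine hDMN d f (Rn n f) q (en Ea) (en Eb) κ (en_meas hEam) (en_meas hEbm) hκb
        (mo_conv hEb0 hF) ?_ (hrei f)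
      filter_upwards [hq1] with x hx
      rw [mo, hx]
      refine (enorm_add_le _ _).trans (add_le_add le_rfl ?_)
      rw [enorm_mul]
      apply mul_le_mul_left
      rw [← ofReal_norm, Complex.norm_real, Real.norm_eq_abs, hκ, hκ']
      exact ENNReal.ofReal_le_ofReal (hW x)
    refine ⟨hDom, fun f hf => ?_⟩
    obtain ⟨q, hq1, hq2⟩ := hfix f
    have hF := hRbc q
    rw [hq2] at hF
    have hF2 : n2 (mo (Rn n f)) ≠ ∞ := by
      refine ne_top_of_le_ne_top ?_ ((B.n2_mono _ _ (hDom f)).trans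
        (hYNG d (en Ea) (mo f) (en_meas hEam) (meas_mo f)))
      exact ENNReal.mul_ne_top hEaint hf
    exact hSYN d f (Rn n f) q (fun x => n - min (V x) n) Eb
      (measurable_const.sub (hV.min measurable_const)) ⟨n + c, hW⟩ hEbm hEb.1 hEbs hf hF2 hq1 hF
  -- the limit
  have hlim : ∀ f, Tendsto (fun n => Rn n f) atTop (𝓝 (R f)) := by
    intro f
    have h1 := hLIM d Tn T c lam hclam hA.sgn hTn hA.lim f
    rw [← hR2 f] at h1
    refine h1.congr fun n => ?_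
    rw [hRn2 n f]
  obtain ⟨hD, hS⟩ := hCLO d (en Ea) Rn R (en_meas hEam) hEaint (fun n => (hboth n).1)
    (fun n => (hboth n).2) hlim
  exact hRGN d T lam R hR3 (hSPC (L1 d) R (hAPR d R (en Ea) (en_meas hEam) hEaint hD hS))

end Pool.Agent.T2H92.RS
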