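import Pool.Agent.T2H92.RS.DefsR
import Pool.Agent.T2H92.RS.FINP

/-! # RS: from the library to the statement -/

set_option autoImplicit false

namespace Pool.Agent.T2H92.RS

open MeasureTheory Filter Topology Set

/-- the same operator -/
def cop {d : ℕ} (R : RSR.Op d) : L1 d →L[ℂ] L1 d := R

lemma cConvSG {d : ℕ} {m : ℝ → Measure (X d)} (h : RSR.ConvSG m) : ConvSG m :=
  ⟨h.mass, h.symm, h.zero, h.conv, h.vague⟩

lemma cC0SG {d : ℕ} {S : ℝ → RSR.Op d} (h : RSR.C0SG S) : C0SG (fun t => cop (S t)) := by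
  refine ⟨?_, ?_, ?_⟩
  · ext1 f
    exact h.zero f
  · intro s t hs ht
    ext1 f
    exact h.add s t hs ht f
  · intro f
    exact h.cont f

lemma cAbs {d : ℕ} {m : ℝ → Measure (X d)} {V : X d → ℝ} {M : ℝ → RSR.Op d}
    {Tn : ℕ → ℝ → RSR.Op d} {T : ℝ → RSR.Op d} (h : RSR.Absorption m V M Tn T) :
    Absorption m V (fun t => cop (M t)) (fun n t => cop (Tn n t)) (fun t => cop (T t)) := by
  refine ⟨?_, ?_, ?_, ?_, ?_⟩
  · intro t ht f
    exact h.conv t ht f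
  · intro n
    exact cC0SG (h.sgn n)
  · intro n f g
    exact h.genn n f g
  · intro t ht f
    exact h.lim t ht f
  · intro f
    exact h.reg f

lemma cSpec {d : ℕ} {T : ℝ → RSR.Op d} {z : ℂ} (h : z ∈ RSR.SpecGen T) :
    z ∈ SpecGen (fun t => cop (T t)) := by
  rintro ⟨R, hR1, hR2⟩
  exact h ⟨R, hR1, hR2⟩

theorem bridge (hF : S_FIN) (d : ℕ) (m : ℝ → Measure (RSR.Sp d)) (hm : RSR.ConvSG m)
    (hd : ∀ μ : ℝ, 0 < μ → ∃ E : RSR.Sp d → ℝ, RSR.IsDens m μ E) (V : RSR.Sp d → ℝ)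
    (hV : Measurable V) (c : ℝ) (hc : ∀ x, -c ≤ V x) (M : ℝ → RSR.Op d) (Tn : ℕ → ℝ → RSR.Op d)
    (T : ℝ → RSR.Op d) (hA : RSR.Absorption m V M Tn T) : RSR.SpecGen T ⊆ {z | z.im = 0} :=
  fun _ hz => hF d m (cConvSG hm) hd V hV c hc _ _ _ (cAbs hA) (cSpec hz)

end Pool.Agent.T2H92.RS
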