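import Mathlib

/-! # Real spectrum of absorption generators on `L¹(ℝ^d)`: definitions -/

set_option autoImplicit false

namespace Pool.Agent.T2H92.RS

open MeasureTheory Filter Topology Set
open scoped ENNReal NNReal

/-- the space `ℝ^d` -/
abbrev X (d : ℕ) := EuclideanSpace ℝ (Fin d)

/-- the complex space `L¹(ℝ^d)` -/
noncomputable abbrev L1 (d : ℕ) := Lp ℂ 1 (volume : Measure (X d))

/-! ## The objects of the problem -/

/-- A vaguely continuous convolution semigroup of symmetric measures of mass at most `1`. -/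
structure ConvSG {d : ℕ} (m : ℝ → Measure (X d)) : Prop where
  mass : ∀ t, 0 ≤ t → m t univ ≤ 1
  symm : ∀ t, 0 ≤ t → (m t).map (fun x => -x) = m t
  zero : m 0 = Measure.dirac 0
  conv : ∀ s t, 0 ≤ s → 0 ≤ t → ((m s).prod (m t)).map (fun p => p.1 + p.2) = m (s + t)
  vague : ∀ φ : X d → ℝ, Continuous φ → HasCompactSupport φ →
    Tendsto (fun t => ∫ x, φ x ∂(m t)) (𝓝[>] 0) (𝓝 (φ 0))

/-- `E` is an integrable density of the measure `∫_0^∞ e^{-μ t} m_t dt` (vague integral). -/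
def IsDens {d : ℕ} (m : ℝ → Measure (X d)) (μ : ℝ) (E : X d → ℝ) : Prop :=
  Integrable E ∧ ∀ φ : X d → ℝ, Continuous φ → HasCompactSupport φ →
    ∫ t in Ioi (0 : ℝ), Real.exp (-μ * t) * ∫ x, φ x ∂(m t) = ∫ x, φ x * E x

/-- `M t f = ∫ f(· - y) m_t(dy)` on `L¹` -/
def IsConvOp {d : ℕ} (m : ℝ → Measure (X d)) (M : ℝ → L1 d →L[ℂ] L1 d) : Prop :=
  ∀ t, 0 ≤ t → ∀ f : L1 d, M t f =ᵐ[volume] fun x => ∫ y, f (x - y) ∂(m t)

/-- `C₀`-semigroups on `L¹` (the values at `t < 0` are irrelevant) -/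
structure C0SG {d : ℕ} (S : ℝ → L1 d →L[ℂ] L1 d) : Prop where
  zero : S 0 = 1
  add : ∀ s t : ℝ, 0 ≤ s → 0 ≤ t → S (s + t) = S s * S t
  cont : ∀ f, Tendsto (fun t => S t f) (𝓝[>] 0) (𝓝 f)

/-- `f` is in the domain of the generator of `S` and `g` is its image. -/
def IsGen {d : ℕ} (S : ℝ → L1 d →L[ℂ] L1 d) (f g : L1 d) : Prop :=
  Tendsto (fun t : ℝ => ((t⁻¹ : ℝ) : ℂ) • (S t f - f)) (𝓝[>] 0) (𝓝 g)

/-- `T` is the absorption semigroup of the regular potential `V`: `M t` is convolution with `m t`, `Tn n` is the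
`C₀`-semigroup with generator `M - min(V, n)`, `T t f = lim Tn n t f`, and `T` is strongly continuous. -/
structure Absorption {d : ℕ} (m : ℝ → Measure (X d)) (V : X d → ℝ) (M : ℝ → L1 d →L[ℂ] L1 d)
    (Tn : ℕ → ℝ → L1 d →L[ℂ] L1 d) (T : ℝ → L1 d →L[ℂ] L1 d) : Prop where
  conv : IsConvOp m M
  sgn : ∀ n, C0SG (Tn n)
  genn : ∀ n f g, IsGen (Tn n) f g ↔
    ∃ h, IsGen M f h ∧ g =ᵐ[volume] fun x => h x - ((min (V x) n : ℝ) : ℂ) * f x
  lim : ∀ t, 0 ≤ t → ∀ f, Tendsto (fun n => Tn n t f) atTop (𝓝 (T t f))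
  reg : ∀ f, Tendsto (fun t => T t f) (𝓝[>] 0) (𝓝 f)

/-- `R` is the inverse of `z - A`, `A` the generator of `S` -/
def Resv {d : ℕ} (S : ℝ → L1 d →L[ℂ] L1 d) (z : ℂ) (R : L1 d →L[ℂ] L1 d) : Prop :=
  (∀ g, IsGen S (R g) (z • R g - g)) ∧ ∀ f h, IsGen S f h → R (z • f - h) = f

/-- the spectrum of the generator of `S` -/
def SpecGen {d : ℕ} (S : ℝ → L1 d →L[ℂ] L1 d) : Set ℂ := {z | ¬ ∃ R, Resv S z R}

/-! ## Auxiliary notions (functions with values in `[0, ∞]`) -/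

/-- convolution -/
noncomputable def cv {d : ℕ} (E g : X d → ℝ≥0∞) (x : X d) : ℝ≥0∞ := ∫⁻ y, E (x - y) * g y

/-- the modulus of an element of `L¹` -/
noncomputable def mo {d : ℕ} (f : L1 d) (x : X d) : ℝ≥0∞ := ‖f x‖ₑ

/-- `L²` norm -/
noncomputable def n2 {d : ℕ} (g : X d → ℝ≥0∞) : ℝ≥0∞ := (∫⁻ x, g x ^ 2) ^ (1 / 2 : ℝ)

/-- the weight `exp (-‖x - s‖ / N)` -/
noncomputable def wr {d : ℕ} (N : ℝ) (s x : X d) : ℝ := Real.exp (-(‖x - s‖ / N))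

/-- the same, with values in `[0, ∞]` -/
noncomputable def wt {d : ℕ} (N : ℝ) (s x : X d) : ℝ≥0∞ := ENNReal.ofReal (wr N s x)

/-- amalgam norm (`ℓ¹` of local `L²` norms) -/
noncomputable def am {d : ℕ} (N : ℝ) (v : X d → ℝ≥0∞) : ℝ≥0∞ := ∫⁻ s, n2 (fun x => wt N s x * v x)

/-- `|R f| ≤ E * |f|` for all `f ∈ L¹` -/
def Dom {d : ℕ} (R : L1 d →L[ℂ] L1 d) (E : X d → ℝ≥0∞) : Prop :=
  ∀ f : L1 d, ∀ᵐ x, mo (R f) x ≤ cv E (mo f) x

/-- the quadratic form of `R` is real on `L¹ ∩ L²` -/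
def Sym {d : ℕ} (R : L1 d →L[ℂ] L1 d) : Prop :=
  ∀ f : L1 d, n2 (mo f) ≠ ∞ → (∫ x, R f x * (starRingEnd ℂ) (f x)).im = 0

/-- density with values in `[0, ∞]` -/
noncomputable def en {d : ℕ} (E : X d → ℝ) (x : X d) : ℝ≥0∞ := ENNReal.ofReal (E x)

end Pool.Agent.T2H92.RS
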