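import Mathlib

/-! # Absorption semigroups on `L¹(ℝ^d)`: the definitions of the statement -/

set_option autoImplicit false

namespace Pool.Agent.T2H92.RSR

open MeasureTheory Filter Topology Set

/-- the space `ℝ^d` -/
abbrev Sp (d : ℕ) := EuclideanSpace ℝ (Fin d)

/-- Lebesgue measure on `ℝ^d` -/
noncomputable def vol (d : ℕ) : Measure (Sp d) := volume

/-- the complex space `L¹(ℝ^d)` -/
def L1 (d : ℕ) : Type := Lp ℂ 1 (vol d)

noncomputable instance instN (d : ℕ) : NormedAddCommGroup (L1 d) :=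
  Lp.instNormedAddCommGroup (E := ℂ) (p := 1) (μ := vol d)

noncomputable instance instS (d : ℕ) : NormedSpace ℂ (L1 d) :=
  Lp.instNormedSpace (𝕜 := ℂ) (E := ℂ) (p := 1) (μ := vol d)

/-- the element `f` of `L¹` as a function (a representative) -/
noncomputable def val {d : ℕ} (f : L1 d) : Sp d → ℂ := AEEqFun.cast f.1

/-- the bounded operators on `L¹(ℝ^d)` -/
def Op (d : ℕ) : Type := L1 d →L[ℂ] L1 d

/-- the value `R f` -/
noncomputable def ap {d : ℕ} (R : Op d) (f : L1 d) : L1 d := (show L1 d →L[ℂ] L1 d from R) f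

/-- A vaguely continuous convolution semigroup of symmetric measures of mass at most `1`. -/
structure ConvSG {d : ℕ} (m : ℝ → Measure (Sp d)) : Prop where
  mass : ∀ t, 0 ≤ t → m t univ ≤ 1
  symm : ∀ t, 0 ≤ t → (m t).map (fun x => -x) = m t
  zero : m 0 = Measure.dirac 0
  conv : ∀ s t, 0 ≤ s → 0 ≤ t → ((m s).prod (m t)).map (fun p => p.1 + p.2) = m (s + t)
  vague : ∀ φ : Sp d → ℝ, Continuous φ → HasCompactSupport φ →
    Tendsto (fun t => ∫ x, φ x ∂(m t)) (𝓝[>] 0) (𝓝 (φ 0))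

/-- `E` is an integrable density of the measure `∫_0^∞ e^{-μ t} m_t dt` (vague integral). -/
def IsDens {d : ℕ} (m : ℝ → Measure (Sp d)) (μ : ℝ) (E : Sp d → ℝ) : Prop :=
  Integrable E (vol d) ∧ ∀ φ : Sp d → ℝ, Continuous φ → HasCompactSupport φ →
    ∫ t in Ioi (0 : ℝ), Real.exp (-μ * t) * ∫ x, φ x ∂(m t) = ∫ x, φ x * E x ∂(vol d)

/-- `M t f = ∫ f(· - y) m_t(dy)` on `L¹` -/
def IsConvOp {d : ℕ} (m : ℝ → Measure (Sp d)) (M : ℝ → Op d) : Prop :=
  ∀ t, 0 ≤ t → ∀ f : L1 d, ∀ᵐ x ∂(vol d), val (ap (M t) f) x = ∫ y, val f (x - y) ∂(m t)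

/-- `C₀`-semigroups on `L¹` (the values at `t < 0` are irrelevant) -/
structure C0SG {d : ℕ} (S : ℝ → Op d) : Prop where
  zero : ∀ f, ap (S 0) f = f
  add : ∀ s t : ℝ, 0 ≤ s → 0 ≤ t → ∀ f, ap (S (s + t)) f = ap (S s) (ap (S t) f)
  cont : ∀ f, Tendsto (fun t => ap (S t) f) (𝓝[>] 0) (𝓝 f)

/-- `f` is in the domain of the generator of `S` and `g` is its image. -/
def IsGen {d : ℕ} (S : ℝ → Op d) (f g : L1 d) : Prop :=
  Tendsto (fun t : ℝ => ((t⁻¹ : ℝ) : ℂ) • (ap (S t) f - f)) (𝓝[>] 0) (𝓝 g)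

/-- `T` is the absorption semigroup of the regular potential `V`: `M t` is convolution with `m t`, `Tn n` is the
`C₀`-semigroup with generator `M - min(V, n)`, `T t f = lim Tn n t f`, and `T` is strongly continuous. -/
structure Absorption {d : ℕ} (m : ℝ → Measure (Sp d)) (V : Sp d → ℝ) (M : ℝ → Op d)
    (Tn : ℕ → ℝ → Op d) (T : ℝ → Op d) : Prop where
  conv : IsConvOp m M
  sgn : ∀ n, C0SG (Tn n)
  genn : ∀ n f g, IsGen (Tn n) f g ↔
    ∃ h, IsGen M f h ∧ ∀ᵐ x ∂(vol d), val g x = val h x - ((min (V x) n : ℝ) : ℂ) * val f x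
  lim : ∀ t, 0 ≤ t → ∀ f, Tendsto (fun n => ap (Tn n t) f) atTop (𝓝 (ap (T t) f))
  reg : ∀ f, Tendsto (fun t => ap (T t) f) (𝓝[>] 0) (𝓝 f)

/-- `R` is the inverse of `z - A`, `A` the generator of `S` -/
def Resv {d : ℕ} (S : ℝ → Op d) (z : ℂ) (R : Op d) : Prop :=
  (∀ g, IsGen S (ap R g) (z • ap R g - g)) ∧ ∀ f h, IsGen S f h → ap R (z • f - h) = f

/-- the spectrum of the generator of `S` -/
def SpecGen {d : ℕ} (S : ℝ → Op d) : Set ℂ := {z | ¬ ∃ R, Resv S z R}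

end Pool.Agent.T2H92.RSR
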