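import Pool.Agent.T2H92.RS.Stm
import Pool.Agent.GQ.Semi

/-! # RS: package LIM -/

set_option autoImplicit false

namespace Pool.Agent.T2H92.RS

open MeasureTheory Filter Topology Set
open scoped ENNReal NNReal

theorem pLIM : S_LIM := by
  intro d Tn T c lam hc hC hb hlim f
  apply tendsto_integral_of_dominated_convergence (fun t => Real.exp (-(lam - c) * t) * ‖f‖)
  · intro n
    have h1 : ContinuousOn (fun t : ℝ => Tn n t f) (Ici 0) :=
      GQ.C0Semigroup.continuousOn ⟨Tn n, (hC n).zero, (hC n).add, (hC n).cont⟩ f
    have h2 : ContinuousOn (fun t : ℝ => Real.exp (-lam * t) • Tn n t f) (Ioi 0) := by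
      have h3 : ContinuousOn (fun t : ℝ => Real.exp (-lam * t)) (Ioi 0) :=
        (Real.continuous_exp.comp (continuous_const.mul continuous_id)).continuousOn
      exact h3.smul (h1.mono Ioi_subset_Ici_self)
    exact h2.aestronglyMeasurable measurableSet_Ioi
  · have h1 := exp_neg_integrableOn_Ioi 0 (sub_pos.mpr hc)
    exact h1.mul_const ‖f‖
  · intro n
    filter_upwards [ae_restrict_mem measurableSet_Ioi] with t ht
    rw [norm_smul, Real.norm_of_nonneg (Real.exp_pos _).le]
    calc Real.exp (-lam * t) * ‖Tn n t f‖
        ≤ Real.exp (-lam * t) * (Real.exp (c * t) * ‖f‖) :=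
          mul_le_mul_of_nonneg_left (((Tn n t).le_opNorm f).trans
            (mul_le_mul_of_nonneg_right (hb n t (le_of_lt ht)) (norm_nonneg _)))
            (Real.exp_pos _).le
      _ = Real.exp (-(lam - c) * t) * ‖f‖ := by
          rw [← mul_assoc, ← Real.exp_add]
          congr 2
          ring
  · filter_upwards [ae_restrict_mem measurableSet_Ioi] with t ht
    exact (hlim t (le_of_lt ht) f).const_smul _

end Pool.Agent.T2H92.RS
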