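import Pool.Agent.T2H92.RS.Defs

/-!
# RS: the spectrum of absorption generators on `L¹(ℝ^d)` is real (MP_21eaa0_an, full answer)

Plan. `R = (λ - M_V)⁻¹` (real `λ`) satisfies `|R f| ≤ E * |f|` with `E ∈ L¹` (`Dom`) and has a real quadratic form on
`L¹ ∩ L²` (`Sym`). Core: such an operator has real spectrum on `L¹` (`COM1` ... `SPC`): for `z` not real one proves
`‖u‖₁ ≤ C ‖z u - R u‖₁`, by localising the `L²` bound with the weights `exp (-|x - s| / N)`, integrated over `s`, `N` large.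

Each package `XX` is the file `Pool/Agent/T2H92/RS/XX.lean` with `theorem pXX (hypotheses, if any) : S_XX` in the namespace
`Pool.Agent.T2H92.RS` (own lemmas in `Pool.Agent.T2H92.RS.PkgXX`).
-/

set_option autoImplicit false

namespace Pool.Agent.T2H92.RS

open MeasureTheory Filter Topology Set
open scoped ENNReal NNReal

/-! ## Part A: operators dominated by a convolution -/

/-- basic facts (all functions have values in `[0, ∞]`) -/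
structure Bas (d : ℕ) : Prop where
  wt_meas : ∀ N : ℝ, Measurable fun p : X d × X d => wt N p.1 p.2
  cv_meas : ∀ k g : X d → ℝ≥0∞, Measurable k → Measurable g → Measurable (cv k g)
  cv_comm : ∀ k g : X d → ℝ≥0∞, Measurable k → Measurable g → cv k g = cv g k
  cv_int : ∀ k g : X d → ℝ≥0∞, Measurable k → Measurable g → ∫⁻ x, cv k g x = (∫⁻ x, k x) * ∫⁻ x, g x
  cv_mono : ∀ k k' g g' : X d → ℝ≥0∞, (∀ᵐ x, k x ≤ k' x) → (∀ᵐ x, g x ≤ g' x) → ∀ x, cv k g x ≤ cv k' g' x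
  cv_add : ∀ k g g' : X d → ℝ≥0∞, Measurable k → Measurable g →
    ∀ x, cv k (fun y => g y + g' y) x = cv k g x + cv k g' x
  cv_smul : ∀ (a : ℝ≥0∞) (k g : X d → ℝ≥0∞), Measurable k → Measurable g →
    ∀ x, cv k (fun y => a * g y) x = a * cv k g x
  n2_mono : ∀ f g : X d → ℝ≥0∞, (∀ᵐ x, f x ≤ g x) → n2 f ≤ n2 g
  n2_add : ∀ f g : X d → ℝ≥0∞, Measurable f → Measurable g → n2 (fun x => f x + g x) ≤ n2 f + n2 g
  n2_smul : ∀ (a : ℝ≥0∞) (f : X d → ℝ≥0∞), Measurable f → n2 (fun x => a * f x) = a * n2 f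
  am_meas : ∀ (N : ℝ) (v : X d → ℝ≥0∞), Measurable v → Measurable fun s => n2 (fun x => wt N s x * v x)
  am_mono : ∀ (N : ℝ) (f g : X d → ℝ≥0∞), (∀ᵐ x, f x ≤ g x) → am N f ≤ am N g
  am_add : ∀ (N : ℝ) (f g : X d → ℝ≥0∞), Measurable f → Measurable g →
    am N (fun x => f x + g x) ≤ am N f + am N g
  am_smul : ∀ (N : ℝ) (a : ℝ≥0∞) (f : X d → ℝ≥0∞), Measurable f → am N (fun x => a * f x) = a * am N f

/-- **BAS** (40 min). All easy: Tonelli, translation and reflection invariance (`lintegral_sub_left_eq_self`,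
`Measurable.lintegral_prod_right'`), `n2` is the `L²` norm: `ENNReal.lintegral_Lp_add_le`. -/
def S_BAS : Prop := ∀ d : ℕ, Bas d

/-- **MK** (30 min). Minkowski's integral inequality in `L²`. Proof: `(∫ (∫ F_t(x) dt)² dx) = ∫∫ (∫ F_t F_s dx) dt ds ≤
∫∫ ‖F_t‖₂ ‖F_s‖₂` by Tonelli and Cauchy-Schwarz (`ENNReal.lintegral_mul_le_Lp_mul_Lq` with `p = q = 2`). -/
def S_MK : Prop := ∀ (d : ℕ) (F : X d → X d → ℝ≥0∞), Measurable (Function.uncurry F) →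
  n2 (fun x => ∫⁻ t, F t x) ≤ ∫⁻ t, n2 (F t)

/-- **YNG** (20 min). Young. `cv k g x = ∫ k t * g (x - t) dt` (`cv_comm`), MK with `F t x = k t * g (x - t)`, translation
invariance of `n2`. -/
def S_YNG : Prop := ∀ (d : ℕ) (k g : X d → ℝ≥0∞), Measurable k → Measurable g →
  n2 (cv k g) ≤ (∫⁻ x, k x) * n2 g

/-- **AMC** (30 min; hypotheses S_BAS, S_MK). `wt N s x * cv k g x = ∫ k t * (wt N s x * g (x - t)) dt`; MK; the `L²` norm of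
`x ↦ wt N s x * g (x - t)` is that of `x ↦ wt N (s - t) x * g x` (`wt N s (x + t) = wt N (s - t) x`); integrate over `s`, swap
(Tonelli), translation invariance in `s`. -/
def S_AMC : Prop := ∀ (d : ℕ) (N : ℝ) (k g : X d → ℝ≥0∞), Measurable k → Measurable g →
  am N (cv k g) ≤ (∫⁻ x, k x) * am N g

/-- **AML** (30 min). With `κ = ∫ wt N s x ^ 2 ds` (independent of `x`, `0 < κ < ∞`; `exp (-2|y|/N) ≤ C (1 + |y|)^(-d-1)`,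
`integrable_one_add_norm`): `κ ∫ v = ∫∫ wt² v dx ds ≤ ∫ n2 (wt N s) n2 (wt N s v) ds` by Cauchy-Schwarz, and `n2 (wt N s)` does
not depend on `s`. -/
def S_AML : Prop := ∀ (d : ℕ) (N : ℝ), 0 < N → ∃ C : ℝ≥0∞, C ≠ ∞ ∧ ∀ v : X d → ℝ≥0∞, Measurable v →
  ∫⁻ x, v x ≤ C * am N v

/-- **AMF** (25 min). For `|x| < ρ`: `wt N s x ≤ exp (ρ/N) exp (-|s|/N)`, and `∫ exp (-|s|/N) ds < ∞`. -/
def S_AMF : Prop := ∀ (d : ℕ) (N : ℝ), 0 < N → ∀ ρ Λ : ℝ,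
  am N (fun x : X d => (Metric.ball (0 : X d) ρ).indicator (fun _ => ENNReal.ofReal Λ) x) ≠ ∞

/-- **TRU** (25 min; hypotheses S_BAS, S_AMF). `E' = E` where `|x| < j` and `E x ≤ j`, `0` elsewhere, `j` large; `E'' = E - E'`
(indicator of the complement); `∫ E'' → 0` by dominated convergence (`E < ∞` a.e.). -/
def S_TRU : Prop := ∀ (d : ℕ) (E : X d → ℝ≥0∞), Measurable E → ∫⁻ x, E x ≠ ∞ → ∀ N : ℝ, 0 < N →
  ∀ ε : ℝ≥0∞, ε ≠ 0 → ∃ E' E'' : X d → ℝ≥0∞, Measurable E' ∧ Measurable E'' ∧ (∀ x, E x = E' x + E'' x) ∧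
    am N E' ≠ ∞ ∧ ∫⁻ x, E'' x ≤ ε

/-- **COM1** (45 min; hypothesis S_BAS). Commutator of `R` with the weight. Proof. `ψ = wr N s` has values in `(0, 1]`. For `q ≥ 1` and
`0 ≤ k ≤ q` let `c = k/q`, `A_k = {x | ⌊q ψ x⌋ = k}`, so `|ψ - c| ≤ 1/q` on `A_k`. Let `w_k ∈ L¹` be `(ψ - c) v`. `Dom` for `w_k`: a.e.
`|R w - c R v| = |R w_k| ≤ ∫ E(x-y) |ψ y - c| |v y| dy`. On `A_k` therefore
`|ψ x R v x - R w x| ≤ |ψ x - c| |R v x| + |R w_k x| ≤ (2/q) cv E |v| x + ∫ E(x-y) |ψ y - ψ x| |v y| dy`. This holds for a.e. `x` and all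
`q`, `k`; `cv E |v| < ∞` a.e. (`cv_int`); let `q → ∞`. -/
def S_COM1 : Prop := ∀ (d : ℕ) (R : L1 d →L[ℂ] L1 d) (E : X d → ℝ≥0∞), Measurable E → ∫⁻ x, E x ≠ ∞ → Dom R E →
  ∀ N : ℝ, 0 < N → ∀ (s : X d) (v w : L1 d), (w =ᵐ[volume] fun x => (wr N s x : ℂ) * v x) →
    ∀ᵐ x, ‖(wr N s x : ℂ) * R v x - R w x‖ₑ ≤
      ∫⁻ y, E (x - y) * (ENNReal.ofReal |wr N s y - wr N s x| * mo v y)

/-- **COM2** (60 min; hypothesis S_MK). Proof. Substituting `y = x - t` and with MK the `L²` norm for fixed `s` is at most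
`∫ E t * n2 (x ↦ |wr N s x - wr N s (x+t)| v x) dt` (after the translation `x → x + t`). As `||x+t-s| - |x-s|| ≤ |t|`,
`|wr N s x - wr N s (x+t)| ≤ (exp (|t|/N) - 1) wr N s x`; and it is `≤ wr N s x + wr N (s-t) x`. Integrating over `s`
(translation invariance): the left side is `≤ (∫ E t * min (exp (|t|/N) - 1) 2 dt) * am N v`, and the factor tends to `0` as
`N → ∞` (dominated convergence, `2 E` integrable, `E < ∞` a.e.). -/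
def S_COM2 : Prop := ∀ (d : ℕ) (E : X d → ℝ≥0∞), Measurable E → ∫⁻ x, E x ≠ ∞ → ∀ ε : ℝ≥0∞, ε ≠ 0 →
  ∃ N : ℝ, 0 < N ∧ ∀ v : X d → ℝ≥0∞, Measurable v →
    ∫⁻ s, n2 (fun x => ∫⁻ y, E (x - y) * (ENNReal.ofReal |wr N s y - wr N s x| * v y)) ≤ ε * am N v

/-- **L2B** (35 min; hypothesis S_YNG). `R f ∈ L²` by `Dom` and Young. `Im ⟨z f - R f, f⟩ = Im z ‖f‖₂²` by `Sym`, Cauchy-Schwarz,
divide by `‖f‖₂` (finite; trivial if `0`). -/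
def S_L2B : Prop := ∀ (d : ℕ) (R : L1 d →L[ℂ] L1 d) (E : X d → ℝ≥0∞), Measurable E → ∫⁻ x, E x ≠ ∞ → Dom R E →
  Sym R → ∀ (z : ℂ) (f : L1 d), n2 (mo f) ≠ ∞ → ENNReal.ofReal |z.im| * n2 (mo f) ≤ n2 (mo (z • f - R f))

/-- **REG** (60 min; hypotheses S_BAS, S_AMC, S_TRU). Proof. `P = z v - R v`, so a.e. `|v| ≤ |z|⁻¹ (|P| + E * |v|)`. TRU with
`ε = |z|/2`: `|v| ≤ g + k * |v|`, `g = |z|⁻¹ (|P| + E' * |v|)`, `k = |z|⁻¹ E''`, `∫ k ≤ 1/2`; `am N g < ∞` by AMC, as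
`E' * |v| = |v| * E'` has `am ≤ ‖v‖₁ am N E'`. Let `G = ∑_j g_j`, `g_0 = g`, `g_(j+1) = k * g_j`; `am N g_j ≤ 2^(-j) am N g` (AMC), so
`am N G ≤ 2 am N g < ∞` (countable subadditivity from `am_add` and monotone convergence). `G = g + k * G`, so
`|v| - G ≤ k * (|v| - G)` (truncated subtraction), `∫ (|v| - G) ≤ (1/2) ∫ (|v| - G)`, finite, so `|v| ≤ G` a.e. -/
def S_REG : Prop := ∀ (d : ℕ) (R : L1 d →L[ℂ] L1 d) (E : X d → ℝ≥0∞), Measurable E → ∫⁻ x, E x ≠ ∞ → Dom R E →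
  ∀ N : ℝ, 0 < N → ∀ z : ℂ, z ≠ 0 → ∀ v : L1 d, am N (mo (z • v - R v)) ≠ ∞ → am N (mo v) ≠ ∞

/-- **SRC** (60 min; hypotheses S_BAS, S_AMC, S_TRU). Proof. TRU with `ε = |z|/2`: `E = E' + E''`. Given `g ∈ L¹`, `R g` is
dominated by `E' * |g| + E'' * |g|`, so `R g = p + q` with `p, q ∈ L¹`, `|p| ≤ E' * |g|`, `|q| ≤ E'' * |g|` a.e. (multiply `R g` by the
ratios; `‖q‖₁ ≤ (|z|/2) ‖g‖₁`). Put `f_0 = f`, `R f_k = p_k + f_(k+1)`; `‖f_k‖ ≤ (|z|/2)^k ‖f‖`. `w = ∑ z^(-k-1) f_k` converges in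
`L¹`, `‖w‖ ≤ (2/|z|) ‖f‖`, and `f - (z w - R w) = ∑ z^(-k-1) p_k` (telescoping), with
`am N p_k ≤ ‖f_k‖₁ am N E'` (AMC, `cv_comm`), so `am N ≤ 2 |z|⁻¹ am N E' ‖f‖`. -/
def S_SRC : Prop := ∀ (d : ℕ) (R : L1 d →L[ℂ] L1 d) (E : X d → ℝ≥0∞), Measurable E → ∫⁻ x, E x ≠ ∞ → Dom R E →
  ∀ N : ℝ, 0 < N → ∀ z : ℂ, z ≠ 0 → ∃ C : ℝ≥0∞, C ≠ ∞ ∧ ∀ f : L1 d, ∃ w : L1 d, ‖w‖ₑ ≤ C * ‖f‖ₑ ∧
    am N (mo (f - (z • w - R w))) ≤ C * ‖f‖ₑ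

/-- **SPC** (30 min). Suppose some `z₀` with `Im z₀ > 0` (the other case: conjugate sign) is in the spectrum; the spectrum is
compact, let `z₁` be a point of the spectrum with maximal imaginary part. `‖(z₁ + i/k - R) u‖ ≥ (1/C - 1/k) ‖u‖`, so the
inverses for `z₁ + i/k` are bounded by `2C`, and `z₁ - R = (z₁ + i/k - R)(1 - (i/k)(z₁ + i/k - R)⁻¹)` is invertible. -/
def S_SPC : Prop := ∀ (B : Type) [NormedAddCommGroup B] [NormedSpace ℂ B] [CompleteSpace B] (R : B →L[ℂ] B),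
  (∀ z : ℂ, z.im ≠ 0 → ∃ C : ℝ, ∀ u, ‖u‖ ≤ C * ‖z • u - R u‖) →
  ∀ z : ℂ, z.im ≠ 0 → ∃ Q : B →L[ℂ] B, (∀ u, Q (z • u - R u) = u) ∧ ∀ u, z • Q u - R (Q u) = u

/-- **RGN** (20 min). For `z` not real let `ζ = 1/(lam - z)`, `Q` the inverse of `ζ - R`; `(z - A)⁻¹ = ζ R Q`: with `y = ζ Q g`,
`lam R y - y = z R y - g` since `ζ y - R y = ζ g`; and if `R p = f`, `p = lam f - h`, then `z f - h = (lam - z)(ζ p - R p)`. -/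
def S_RGN : Prop := ∀ (d : ℕ) (S : ℝ → L1 d →L[ℂ] L1 d) (lam : ℝ) (R : L1 d →L[ℂ] L1 d), Resv S (lam : ℂ) R →
  (∀ z : ℂ, z.im ≠ 0 → ∃ Q : L1 d →L[ℂ] L1 d, (∀ u, Q (z • u - R u) = u) ∧ ∀ u, z • Q u - R (Q u) = u) →
  SpecGen S ⊆ {z | z.im = 0}

/-! ## Part B: semigroups. Library: `GQ.C0Semigroup` in `Pool/Agent/GQ/Semi.lean` (continuity, derivative of orbits) -/

/-- **LAP** (45 min). Resolvent = Laplace transform. `t ↦ S t f` is continuous on `[0, ∞)` (`GQ.C0Semigroup.continuousOn`).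
`(S h R f - R f)/h = ((e^{lam h} - 1)/h) R f - (e^{lam h}/h) ∫_0^h e^{-lam t} S t f dt → lam R f - f`. If `IsGen S f h`: `S t` commutes with
`R` and the difference quotients of `f` are mapped by `R` to those of `R f`, so `R h = lam R f - f`. -/
def S_LAP : Prop := ∀ (d : ℕ) (S : ℝ → L1 d →L[ℂ] L1 d) (c lam : ℝ), C0SG S →
  (∀ t, 0 ≤ t → ‖S t‖ ≤ Real.exp (c * t)) → c < lam → ∃ R : L1 d →L[ℂ] L1 d,
    (∀ f, IntegrableOn (fun t : ℝ => Real.exp (-lam * t) • S t f) (Ioi 0)) ∧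
    (∀ f, R f = ∫ t in Ioi (0 : ℝ), Real.exp (-lam * t) • S t f) ∧ Resv S (lam : ℂ) R

/-- **DEN** (25 min). The domain is dense: `f_h = h⁻¹ ∫_0^h S t f dt → f`, in the domain (image `h⁻¹ (S h f - f)`). -/
def S_DEN : Prop := ∀ (d : ℕ) (S : ℝ → L1 d →L[ℂ] L1 d), C0SG S → ∀ (f : L1 d) (ε : ℝ), 0 < ε →
  ∃ f' g', IsGen S f' g' ∧ ‖f - f'‖ ≤ ε

/-- **BND** (45 min; hypothesis S_DEN). Proof. Let `IsGen S f g`, `N t = ‖S t f‖` (continuous on `[0, ∞)`). `IsGen S (S t f) (S t g)`.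
For small `h > 0` the hypothesis with `lam = 1/h` gives
`(1 - h c) N (t+h) ≤ ‖S (t+h) f - h S (t+h) g‖ ≤ N t + ‖S (t+h) f - S t f - h S (t+h) g‖ = N t + o(h)`, so the upper right derivative
of `N` is `≤ c N`: `le_gronwallBound_of_liminf_deriv_right_le` gives `N t ≤ e^{c t} ‖f‖`. Density (DEN). -/
def S_BND : Prop := ∀ (d : ℕ) (S : ℝ → L1 d →L[ℂ] L1 d) (c : ℝ), 0 ≤ c → C0SG S →
  (∀ lam : ℝ, c < lam → ∀ f g, IsGen S f g → (lam - c) * ‖f‖ ≤ ‖(lam : ℂ) • f - g‖) →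
  ∀ t, 0 ≤ t → ‖S t‖ ≤ Real.exp (c * t)

/-- **MS1** (45 min). `‖M t f‖₁ ≤ ∫∫ |f(x-y)| m_t(dy) dx ≤ ‖f‖₁` (Tonelli, mass `≤ 1`); `m_0 = δ_0`; `m_(s+t) = m_s * m_t` and Fubini.
(`f = g` a.e. implies `∫ f(x-y) m_t(dy) = ∫ g(x-y) m_t(dy)` for a.e. `x`.) -/
def S_MS1 : Prop := ∀ (d : ℕ) (m : ℝ → Measure (X d)) (M : ℝ → L1 d →L[ℂ] L1 d), ConvSG m → IsConvOp m M →
  (∀ t, 0 ≤ t → ‖M t‖ ≤ 1) ∧ M 0 = 1 ∧ ∀ s t : ℝ, 0 ≤ s → 0 ≤ t → M (s + t) = M s * M t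

/-- **MS2** (20 min). Test function `0 ≤ φ ≤ 1`, `φ 0 = 1`, supported in the closed ball of radius `r/2`:
`∫ φ dm_t ≤ m_t(ball) ≤ 1`. -/
def S_MS2 : Prop := ∀ (d : ℕ) (m : ℝ → Measure (X d)), ConvSG m → ∀ r : ℝ, 0 < r →
  Tendsto (fun t => m t (Metric.ball 0 r)) (𝓝[>] 0) (𝓝 1)

/-- **MS3** (40 min; hypothesis S_MS2). `‖M t f - f‖₁ ≤ ∫ ‖f(·-y) - f‖₁ m_t(dy) + (1 - m_t(X)) ‖f‖₁`; translation is continuous in
`L¹` (or: prove it first for `f` continuous with compact support, these are dense, and `‖M t‖ ≤ 1`): split at `|y| < r`. -/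
def S_MS3 : Prop := ∀ (d : ℕ) (m : ℝ → Measure (X d)) (M : ℝ → L1 d →L[ℂ] L1 d), ConvSG m → IsConvOp m M →
  (∀ t, 0 ≤ t → ‖M t‖ ≤ 1) → ∀ f, Tendsto (fun t => M t f) (𝓝[>] 0) (𝓝 f)

/-- **VC** (40 min; hypothesis S_MS2). `Φ` is bounded and uniformly continuous. For `h > 0`, `t ≥ 0`:
`∫ Φ dm_(t+h) - ∫ Φ dm_t = ∫ (∫ Φ(x+y) m_h(dy) - Φ x) m_t(dx)`, and `|∫ Φ(x+y) m_h(dy) - Φ x| ≤ sup_{|y|<r} |Φ(x+y) - Φ x| +
2 (sup |Φ|) (1 - m_h(ball 0 r))`, uniformly in `x`: a modulus of continuity independent of `t`. -/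
def S_VC : Prop := ∀ (d : ℕ) (m : ℝ → Measure (X d)), ConvSG m → ∀ Φ : X d → ℝ, Continuous Φ →
  Tendsto Φ (cocompact (X d)) (𝓝 0) → ContinuousOn (fun t => ∫ x, Φ x ∂(m t)) (Ici 0)

/-- **RM1** (30 min; hypothesis S_VC). `Φ = lim φ_k` uniformly, `φ_k` continuous with compact support (cut-offs); both sides
are continuous for uniform convergence (`∫_0^∞ e^{-μ t} dt < ∞`, mass `≤ 1`; measurability in `t` by VC). -/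
def S_RM1 : Prop := ∀ (d : ℕ) (m : ℝ → Measure (X d)) (μ : ℝ) (E : X d → ℝ), ConvSG m → 0 < μ → IsDens m μ E →
  ∀ Φ : X d → ℝ, Continuous Φ → Tendsto Φ (cocompact (X d)) (𝓝 0) →
    ∫ t in Ioi (0 : ℝ), Real.exp (-μ * t) * ∫ x, Φ x ∂(m t) = ∫ x, Φ x * E x

/-- **RM3** (35 min; hypothesis S_VC). For `φ ≥ 0` the left side of `IsDens` is `≥ 0`, so `E ≥ 0` a.e.; replacing `φ` by
`φ(-x)` (symmetry of `m t`) `∫ φ(x) E(-x) = ∫ φ(x) E x` for all `φ`, so `E(-x) = E x` a.e. (`ae_eq_of_integral_contDiff_smul_eq`,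
`ae_nonneg`-type lemmas in `Mathlib/Analysis/Distribution/AEEqOfIntegralContDiff.lean`); for `φ_k ↑ 1`:
`∫ φ_k E ≤ ∫_0^∞ e^{-μ t} dt = 1/μ` (VC for measurability). -/
def S_RM3 : Prop := ∀ (d : ℕ) (m : ℝ → Measure (X d)) (μ : ℝ) (E : X d → ℝ), ConvSG m → 0 < μ → IsDens m μ E →
  (∀ᵐ x, 0 ≤ E x) ∧ (∀ᵐ x, E (-x) = E x) ∧ ∫ x, E x ≤ 1 / μ

/-- **RM2** (60 min; hypothesis S_RM1). For `φ` real, smooth with compact support and `f ∈ L¹` let `Φ w = ∫ φ(w + y) f y dy`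
(continuous, vanishes at infinity). `∫ φ (M t f) = ∫ Φ dm_t` (Fubini), `∫ φ (R f) = ∫_0^∞ e^{-μ t} ∫ Φ dm_t dt = ∫ Φ E` (RM1 for the
real and imaginary part) `= ∫ φ(x) ∫ E(x-y) f y dy dx` (Fubini). So `R f = E * f` a.e. (`ae_eq_of_integral_contDiff_smul_eq`). -/
def S_RM2 : Prop := ∀ (d : ℕ) (m : ℝ → Measure (X d)) (M : ℝ → L1 d →L[ℂ] L1 d) (μ : ℝ) (E : X d → ℝ)
  (R : L1 d →L[ℂ] L1 d), ConvSG m → IsConvOp m M → 0 < μ → IsDens m μ E →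
  (∀ f, IntegrableOn (fun t : ℝ => Real.exp (-μ * t) • M t f) (Ioi 0)) →
  (∀ f, R f = ∫ t in Ioi (0 : ℝ), Real.exp (-μ * t) • M t f) →
  ∀ f : L1 d, R f =ᵐ[volume] fun x => ∫ y, (E (x - y) : ℂ) * f y

/-- **DIS** (35 min). `A_n` is dissipative up to `c`. Let `σ x = conj (f x) / |f x|` (`0` if `f x = 0`), `h` with `IsGen M f h`. `Re ∫ h σ =
lim t⁻¹ Re ∫ (M t f - f) σ ≤ 0` as `‖M t f‖ ≤ ‖f‖`. `Re ∫ min(V,n) f σ = ∫ min(V,n) |f| ≥ -c ‖f‖`. So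
`‖lam f - g‖ ≥ Re ∫ (lam f - g) σ ≥ (lam - c) ‖f‖`. -/
def S_DIS : Prop := ∀ (d : ℕ) (m : ℝ → Measure (X d)) (V : X d → ℝ) (M : ℝ → L1 d →L[ℂ] L1 d)
  (Tn : ℕ → ℝ → L1 d →L[ℂ] L1 d) (T : ℝ → L1 d →L[ℂ] L1 d) (c : ℝ), 0 ≤ c → Measurable V → (∀ x, -c ≤ V x) →
  Absorption m V M Tn T → (∀ t, 0 ≤ t → ‖M t‖ ≤ 1) → ∀ (n : ℕ) (lam : ℝ), c < lam → ∀ f g, IsGen (Tn n) f g →
    (lam - c) * ‖f‖ ≤ ‖(lam : ℂ) • f - g‖

/-- **FIX** (25 min). `F = Rn f`: `IsGen (Tn n) F (lam F - f)`, so by `genn` there is `h`, `IsGen M F h`, `lam F - f = h - min(V,n) F` a.e.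
`q = (lam + n) F - h`. -/
def S_FIX : Prop := ∀ (d : ℕ) (m : ℝ → Measure (X d)) (V : X d → ℝ) (M : ℝ → L1 d →L[ℂ] L1 d)
  (Tn : ℕ → ℝ → L1 d →L[ℂ] L1 d) (T : ℝ → L1 d →L[ℂ] L1 d), Absorption m V M Tn T →
  ∀ (n : ℕ) (lam : ℝ) (Rn RM : L1 d →L[ℂ] L1 d), Resv (Tn n) (lam : ℂ) Rn → Resv M ((lam + n : ℝ) : ℂ) RM →
    ∀ f : L1 d, ∃ q : L1 d, (q =ᵐ[volume] fun x => f x + ((n - min (V x) n : ℝ) : ℂ) * Rn f x) ∧ RM q = Rn f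

/-- **REI** (40 min; hypothesis S_BAS). Resolvent identity `R_a = R_b + (b - a) R_b R_a` (both are resolvents of `M`), applied to the
element `|f|` of `L¹`; for real nonnegative `g ∈ L¹` and `E ≥ 0` `∫ E(x-y) g y dy` is real and equal to
`(cv (en E) (mo g) x).toReal`, finite a.e. -/
def S_REI : Prop := ∀ (d : ℕ) (M : ℝ → L1 d →L[ℂ] L1 d) (a b : ℝ) (Ra Rb : L1 d →L[ℂ] L1 d) (Ea Eb : X d → ℝ),
  a < b → Resv M (a : ℂ) Ra → Resv M (b : ℂ) Rb → Measurable Ea → Measurable Eb → Integrable Ea → Integrable Eb →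
  (∀ᵐ x, 0 ≤ Ea x) → (∀ᵐ x, 0 ≤ Eb x) → (∀ f : L1 d, Ra f =ᵐ[volume] fun x => ∫ y, (Ea (x - y) : ℂ) * f y) →
  (∀ f : L1 d, Rb f =ᵐ[volume] fun x => ∫ y, (Eb (x - y) : ℂ) * f y) →
  ∀ f : L1 d, ∀ᵐ x, cv (en Ea) (mo f) x =
    cv (en Eb) (mo f) x + ENNReal.ofReal (b - a) * cv (en Eb) (cv (en Ea) (mo f)) x

/-- **DMN** (30 min; hypothesis S_BAS). `H = cv Ea |f|`. `|F| ≤ cv Eb |f| + κ cv Eb |F| ≤ cv Eb |f| + κ cv Eb H + κ cv Eb (|F| - H) =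
H + κ cv Eb (|F| - H)` (truncated subtraction). So `|F| - H ≤ κ cv Eb (|F| - H)` a.e., integrate: `∫ (|F| - H) ≤ κ ∫ Eb ∫ (|F| - H)`,
and `κ ∫ Eb < 1`, `∫ |F| < ∞`. -/
def S_DMN : Prop := ∀ (d : ℕ) (f F q : L1 d) (Ea Eb : X d → ℝ≥0∞) (κ : ℝ≥0∞), Measurable Ea → Measurable Eb →
  κ * ∫⁻ x, Eb x < 1 → (∀ᵐ x, mo F x ≤ cv Eb (mo q) x) → (∀ᵐ x, mo q x ≤ mo f x + κ * mo F x) →
  (∀ᵐ x, cv Ea (mo f) x = cv Eb (mo f) x + κ * cv Eb (cv Ea (mo f)) x) →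
  ∀ᵐ x, mo F x ≤ cv Ea (mo f) x

/-- **SYN** (45 min; hypothesis S_YNG). `∫ F conj(q) = ∫∫ E(x-y) q(y) conj(q x)` is real (swap `x, y`, `E` even, real; Fubini: finite by
Young and Cauchy-Schwarz, `q ∈ L²`). `∫ F conj q = ∫ F conj f + ∫ W |F|²`. -/
def S_SYN : Prop := ∀ (d : ℕ) (f F q : L1 d) (W : X d → ℝ) (E : X d → ℝ), Measurable W → (∃ C, ∀ x, |W x| ≤ C) →
  Measurable E → Integrable E → (∀ᵐ x, E (-x) = E x) → n2 (mo f) ≠ ∞ → n2 (mo F) ≠ ∞ →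
  (q =ᵐ[volume] fun x => f x + (W x : ℂ) * F x) → (F =ᵐ[volume] fun x => ∫ y, (E (x - y) : ℂ) * q y) →
  (∫ x, F x * (starRingEnd ℂ) (f x)).im = 0

/-- **CLO** (35 min; hypotheses S_BAS, S_YNG). A subsequence of `Rn f` converges a.e. to `R f`: `Dom`. For `f ∈ L¹ ∩ L²`: dominated
convergence with `(E * |f|) |f| ∈ L¹` (Young and Cauchy-Schwarz) along this subsequence: `Sym`. -/
def S_CLO : Prop := ∀ (d : ℕ) (E : X d → ℝ≥0∞) (Rn : ℕ → L1 d →L[ℂ] L1 d) (R : L1 d →L[ℂ] L1 d), Measurable E →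
  ∫⁻ x, E x ≠ ∞ → (∀ n, Dom (Rn n) E) → (∀ n, Sym (Rn n)) →
  (∀ f, Tendsto (fun n => Rn n f) atTop (𝓝 (R f))) → Dom R E ∧ Sym R

/-- **LIM** (20 min). Dominated convergence for Bochner integrals, bound `e^{-(lam - c) t} ‖f‖`. -/
def S_LIM : Prop := ∀ (d : ℕ) (Tn : ℕ → ℝ → L1 d →L[ℂ] L1 d) (T : ℝ → L1 d →L[ℂ] L1 d) (c lam : ℝ), c < lam →
  (∀ n, C0SG (Tn n)) → (∀ n t, 0 ≤ t → ‖Tn n t‖ ≤ Real.exp (c * t)) →
  (∀ t, 0 ≤ t → ∀ f, Tendsto (fun n => Tn n t f) atTop (𝓝 (T t f))) →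
  ∀ f, Tendsto (fun n => ∫ t in Ioi (0 : ℝ), Real.exp (-lam * t) • Tn n t f) atTop
    (𝓝 (∫ t in Ioi (0 : ℝ), Real.exp (-lam * t) • T t f))

/-- **TSG** (20 min). Limits: `T (s+t) f = lim Tn s (Tn t f)`, and `‖Tn s (Tn t f - T t f)‖ ≤ e^{cs} ‖Tn t f - T t f‖ → 0`. -/
def S_TSG : Prop := ∀ (d : ℕ) (Tn : ℕ → ℝ → L1 d →L[ℂ] L1 d) (T : ℝ → L1 d →L[ℂ] L1 d) (c : ℝ),
  (∀ n, C0SG (Tn n)) → (∀ n t, 0 ≤ t → ‖Tn n t‖ ≤ Real.exp (c * t)) →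
  (∀ t, 0 ≤ t → ∀ f, Tendsto (fun n => Tn n t f) atTop (𝓝 (T t f))) →
  (∀ f, Tendsto (fun t => T t f) (𝓝[>] 0) (𝓝 f)) → C0SG T ∧ ∀ t, 0 ≤ t → ‖T t‖ ≤ Real.exp (c * t)

end Pool.Agent.T2H92.RS
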