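import Pool.Agent.T2H92.RS.Stm

/-! # RS: package TRU -/

set_option autoImplicit false

namespace Pool.Agent.T2H92.RS

open MeasureTheory Filter Topology Set
open scoped ENNReal NNReal

theorem pTRU (hBAS : S_BAS) (hAMF : S_AMF) : S_TRU := by
  classical
  intro d E hE hEi N hN ε hε
  have B := hBAS d
  let A : ℕ → Set (X d) := fun j => {x | ‖x‖ < j ∧ E x ≤ ENNReal.ofReal j}
  have hAm : ∀ j, MeasurableSet (A j) := fun j =>
    (measurableSet_lt measurable_norm measurable_const).inter
      (measurableSet_le hE measurable_const)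
  have hlim : Tendsto (fun j : ℕ => ∫⁻ x, (A j)ᶜ.indicator E x) atTop (𝓝 (∫⁻ _x : X d, 0)) := by
    apply tendsto_lintegral_of_dominated_convergence E
    · intro j
      exact hE.indicator (hAm j).compl
    · intro j
      exact Eventually.of_forall fun x => indicator_le_self _ _ _
    · exact hEi
    · filter_upwards [ae_lt_top hE hEi] with x hx
      apply tendsto_const_nhds.congr'
      filter_upwards [eventually_gt_atTop ⌈‖x‖⌉₊, eventually_ge_atTop ⌈(E x).toReal⌉₊] with j h1 h2
      rw [indicator_of_notMem]
      rw [notMem_compl_iff]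
      refine ⟨lt_of_le_of_lt (Nat.le_ceil _) (by exact_mod_cast h1), ?_⟩
      rw [← ENNReal.ofReal_toReal hx.ne]
      exact ENNReal.ofReal_le_ofReal ((Nat.le_ceil _).trans (by exact_mod_cast h2))
  rw [lintegral_zero] at hlim
  obtain ⟨j, hj⟩ := (hlim.eventually (ge_mem_nhds (pos_iff_ne_zero.mpr hε))).exists
  refine ⟨(A j).indicator E, (A j)ᶜ.indicator E, hE.indicator (hAm j),
    hE.indicator (hAm j).compl, fun x => ?_, ?_, hj⟩
  · rw [indicator_self_add_compl_apply]
  · refine ne_top_of_le_ne_top (hAMF d N hN j j) (B.am_mono N _ _ (Eventually.of_forall fun x => ?_))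
    by_cases hx : x ∈ A j
    · rw [indicator_of_mem hx, indicator_of_mem]
      · exact hx.2
      · rw [mem_ball_zero_iff]
        exact hx.1
    · rw [indicator_of_notMem hx]
      exact zero_le
end Pool.Agent.T2H92.RS
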